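import Pool.Agent.TRR.Defs2
import Pool.Agent.TRP.RA2s
import Pool.Agent.TRP.X0
import Pool.Agent.TRZ.R5

/-! # [REAL2-X5a] `chrS` with `κ` -/

set_option autoImplicit false
set_option linter.unusedSectionVars false

open NumberField Ideal IsDedekindDomain Filter Topology
open scoped Real Classical ComplexConjugate
open TR TRG TTS TU TT TRPR TRP

namespace TRR

section
variable {L M : Type} [Field L] [NumberField L] [Field M] [NumberField M] [Algebra L M]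
  [IsTotallyReal L] {D : Dat L M} (hD : Od2 D)

/-- the symbol of `κ` as a function on `𝓞 M` -/
noncomputable def xaG (D : Dat L M) (u : (𝓞 L)ˣ) (i : Bool) (x : 𝓞 M) : ℤ :=
  TRZ.kp (u : 𝓞 L) i (TRZ.rd8 D true x) * TRZ.kp (u : 𝓞 L) i (TRZ.rd8 D false x)

include hD

omit [IsTotallyReal L] in
theorem xa_unit (u : (𝓞 L)ˣ) : (u : 𝓞 L) ∉ span {(2 : 𝓞 L)} := fun h =>
  hD.two.ne_top (Ideal.eq_top_of_isUnit_mem _ h u.isUnit)

theorem xa_rm {u : (𝓞 L)ˣ} {i : Bool} (hκ : ¬ IsSquare (kap u i)) : TRZ.Rm (u : 𝓞 L) i := by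
  by_contra h
  unfold TRZ.Rm at h
  push Not at h
  obtain ⟨h1, h2⟩ := h
  obtain ⟨w, hw⟩ := TRZ.q4_unit hD h2
  have h3 : i = false := by
    cases i
    · rfl
    · exact absurd rfl h1
  apply hκ
  unfold kap
  rw [h3, if_neg (by decide), mul_one, hw]
  exact ⟨(w : 𝓞 L), by rw [Units.val_pow_eq_pow_val, sq]⟩

/-- the symbol of `κ` -/
theorem xa_sy {u : (𝓞 L)ˣ} {i : Bool} (hR : TRZ.Rm (u : 𝓞 L) i) {x : 𝓞 M} (hx : IsCoprime x 2) :
    sy (algebraMap (𝓞 L) (𝓞 M) (kap u i)) (span {x}) = xaG D u i x := by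
  have := D.isTotallyComplex
  have hu2 := xa_unit hD u
  have hx0 : span {x} ≠ ⊥ := r2_span_ne hx
  have h2 : IsCoprime (span {(2 : 𝓞 M)}) (span {x}) := r1_cop.2 hx.symm
  have hkp : TRZ.kp (u : 𝓞 L) i = TRZ.kc (u : 𝓞 L) i := if_pos hR
  -- the unit
  have hun : sy (algebraMap (𝓞 L) (𝓞 M) (u : 𝓞 L)) (span {x}) =
      TRZ.tp (TRZ.rd8 D true x) (u : 𝓞 L) * TRZ.tp (TRZ.rd8 D false x) (u : 𝓞 L) := by
    have hU : IsUnit (algebraMap (𝓞 L) (𝓞 M) (u : 𝓞 L)) := u.isUnit.map _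
    have hcop : ∀ y : 𝓞 M, IsCoprime (algebraMap (𝓞 L) (𝓞 M) (u : 𝓞 L)) y := fun y => by
      obtain ⟨w, hw⟩ := hU
      exact ⟨((w⁻¹ : (𝓞 M)ˣ) : 𝓞 M), 0, by rw [← hw, Units.inv_mul, zero_mul, add_zero]⟩
    have h1 := TRZ.rec_odd hD (hcop 2) hx (hcop x) true
    have h3 : sy x (span {algebraMap (𝓞 L) (𝓞 M) (u : 𝓞 L)}) = 1 := by
      rw [Ideal.span_singleton_eq_top.2 hU, ← Ideal.one_eq_top, r1_sy_one]
    unfold rs at h1
    rw [h3, mul_one] at h1
    have hper : ∀ s y, TRZ.tp (TRZ.rd8 D s (algebraMap (𝓞 L) (𝓞 M) (u : 𝓞 L))) y = TRZ.tp y (u : 𝓞 L) := by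
      intro s y
      obtain ⟨k, hk⟩ := Ideal.mem_span_singleton'.1 (TRZ.rd8_alg hD s (u : 𝓞 L))
      have e : TRZ.rd8 D s (algebraMap (𝓞 L) (𝓞 M) (u : 𝓞 L)) = (u : 𝓞 L) + 4 * (2 * k) := by linear_combination -hk
      rw [e, TRZ.tp_per hD, TRZ.tp_comm hD]
    rw [h1, hper, hper]
    rfl
  unfold xaG
  rw [hkp]
  unfold TRZ.kc kap
  cases i
  · rw [if_neg (by decide), mul_one, hun]
    unfold TRZ.te
    simp
  · rw [if_pos rfl, map_mul, map_ofNat, r1_sy_mul_left hx0 h2, hun]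
    have h3 : (2 : 𝓞 M) = -(p1 D true) * -(p1 D false) := by
      rw [neg_mul_neg]
      exact (x_mul D true).symm
    have h4 : sy (2 : 𝓞 M) (span {x}) = TRZ.t8 (TRZ.rd8 D false x) * TRZ.t8 (TRZ.rd8 D true x) := by
      rw [h3, r1_sy_mul_left hx0 h2, TRZ.rec_unif hD hx true, TRZ.rec_unif hD hx false]
      rfl
    rw [h4]
    unfold TRZ.te
    rw [if_pos rfl, if_pos rfl]
    ring

theorem xa_zero_iff {u : (𝓞 L)ˣ} {i : Bool} (hR : TRZ.Rm (u : 𝓞 L) i) (x : 𝓞 M) :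
    xaG D u i x = 0 ↔ x ∈ span {p2 D true} ∨ x ∈ span {p2 D false} := by
  have hk := TRZ.kp_kp hD (xa_unit hD u) hR
  unfold xaG
  rw [mul_eq_zero, hk.zero, hk.zero, TRZ.rd8_even hD, TRZ.rd8_even hD]

theorem xa_congr {u : (𝓞 L)ˣ} {i : Bool} (hR : TRZ.Rm (u : 𝓞 L) i) {x y : 𝓞 M} (h : x - y ∈ span {(8 : 𝓞 M)}) :
    xaG D u i x = xaG D u i y := by
  have hk := TRZ.kp_kp hD (xa_unit hD u) hR
  have h1 : ∀ s, TRZ.rd8 D s x - TRZ.rd8 D s y ∈ span {(8 : 𝓞 L)} := by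
    intro s
    apply TRZ.rd8_uniq hD s
    have h2 : span {(8 : 𝓞 M)} ≤ span {p2 D s ^ 3} := by
      rw [Ideal.span_singleton_le_span_singleton]
      refine ⟨p1 D s ^ 3, ?_⟩
      have h3 := x_mul D s
      calc (8 : 𝓞 M) = (p1 D s * p2 D s) ^ 3 := by rw [h3]; norm_num
        _ = p2 D s ^ 3 * p1 D s ^ 3 := by ring
    have e : x - algebraMap (𝓞 L) (𝓞 M) (TRZ.rd8 D s y) = (x - y) + (y - algebraMap (𝓞 L) (𝓞 M) (TRZ.rd8 D s y)) := by ring
    rw [e]
    exact add_mem (h2 h) (TRZ.rd8_cong hD s y)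
  unfold xaG
  rw [TRZ.x1_kp_per hk (h1 true), TRZ.x1_kp_per hk (h1 false)]

/-- **the class character of `κ`** -/
theorem xa_lam {u : (𝓞 L)ˣ} {i : Bool} (hR : TRZ.Rm (u : 𝓞 L) i) : ∃ Λ : Ideal (𝓞 M) →*₀ ℤ,
    (∀ x, Λ (span {x}) = xaG D u i x) ∧ (∀ J, Λ J = 0 ∨ Λ J = 1 ∨ Λ J = -1) ∧
      ∀ P : HeightOneSpectrum (𝓞 M), (2 : 𝓞 M) ∉ P.asIdeal → Λ P.asIdeal = TT.qr P (algebraMap (𝓞 L) (𝓞 M) (kap u i)) := by
  have hk := TRZ.kp_kp hD (xa_unit hD u) hR
  let G : 𝓞 M →* ℤ :=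
    { toFun := xaG D u i
      map_one' := by
        have h1 : ∀ s, TRZ.kp (u : 𝓞 L) i (TRZ.rd8 D s 1) = 1 := by
          intro s
          have h2 := TRZ.rd8_alg hD s 1
          rw [map_one] at h2
          rw [TRZ.x1_kp_per hk h2, TRZ.x1_kp_one hk hD.two]
        unfold xaG
        rw [h1, h1, one_mul]
      map_mul' := by
        intro x y
        have h1 : ∀ s, TRZ.kp (u : 𝓞 L) i (TRZ.rd8 D s (x * y)) =
            TRZ.kp (u : 𝓞 L) i (TRZ.rd8 D s x) * TRZ.kp (u : 𝓞 L) i (TRZ.rd8 D s y) := fun s => by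
          rw [TRZ.x1_kp_per hk (TRZ.rd8_mul hD s x y), hk.mul]
        unfold xaG
        rw [h1, h1]
        ring }
  have hG : ∀ x, G x = xaG D u i x := fun _ => rfl
  have hu : ∀ w : (𝓞 M)ˣ, G w = 1 := by
    intro w
    have hw : IsCoprime (w : 𝓞 M) 2 := ⟨((w⁻¹ : (𝓞 M)ˣ) : 𝓞 M), 0, by rw [Units.inv_mul, zero_mul, add_zero]⟩
    rw [hG, ← xa_sy hD hR hw, Ideal.span_singleton_eq_top.2 w.isUnit, ← Ideal.one_eq_top, r1_sy_one]
  have hv : ∀ x, G x = 0 ∨ G x = 1 ∨ G x = -1 := by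
    intro x
    rw [hG]
    unfold xaG
    rcases hk.val (TRZ.rd8 D true x) with h1 | h1 | h1 <;> rcases hk.val (TRZ.rd8 D false x) with h2 | h2 | h2 <;>
      rw [h1, h2] <;> norm_num
  obtain ⟨Λ, h1, h2⟩ := x_ext D G hu hv
  refine ⟨Λ, fun x => ?_, h2, fun P hP => ?_⟩
  · by_cases hx : x = 0
    · rw [hx, Ideal.span_singleton_zero, ← Ideal.zero_eq_bot, map_zero]
      symm
      rw [xa_zero_iff hD hR]
      exact Or.inl (Ideal.zero_mem _)
    · exact h1 x hx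
  · obtain ⟨α, hα⟩ := r2_class_gen P.asIdeal
    have hα0 : α ≠ 0 := by
      rintro rfl
      rw [Ideal.span_singleton_eq_bot.2 rfl] at hα
      exact P.ne_bot (eq_bot_iff.2 (fun y hy => by
        have h3 : P.asIdeal = 0 := (pow_eq_zero_iff (classNumber_pos M).ne').1 hα
        rw [h3] at hy
        exact hy))
    have hcop : IsCoprime α 2 := by
      apply x0_cop
      intro v hv h3
      have h4 : P.asIdeal ^ classNumber M ≤ v.asIdeal := by
        rw [hα]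
        exact (Ideal.span_singleton_le_iff_mem _).2 h3
      have h5 := P.isMaximal.eq_of_le v.isPrime.ne_top (v.isPrime.le_of_pow_le h4)
      apply hP
      rw [h5]
      exact hv
    have h3 : Λ P.asIdeal ^ classNumber M = TT.qr P (algebraMap (𝓞 L) (𝓞 M) (kap u i)) ^ classNumber M := by
      rw [← map_pow, hα, h1 α hα0, hG, ← xa_sy hD hR hcop, ← hα, r1_sy_pow_right _ P.ne_bot, r1_sy_prime]
    rwa [r1_pow_odd (h2 _) D.hodd, r1_pow_odd (TT.qr_cases P _) D.hodd] at h3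

/-- the two residues are independent -/
theorem xa_crt (a b : 𝓞 L) : ∃ g : 𝓞 M, TRZ.rd8 D true g - a ∈ span {(8 : 𝓞 L)} ∧ TRZ.rd8 D false g - b ∈ span {(8 : 𝓞 L)} := by
  have h0 : IsCoprime (p1 D true) (p2 D true) := ⟨1, 1, by rw [one_mul, one_mul]; exact x_add D true⟩
  obtain ⟨U, V, hUV⟩ := (h0.pow (m := 3) (n := 3))
  refine ⟨algebraMap (𝓞 L) (𝓞 M) a * (U * p1 D true ^ 3) + algebraMap (𝓞 L) (𝓞 M) b * (V * p2 D true ^ 3), ?_, ?_⟩
  · apply TRZ.rd8_uniq hD true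
    refine Ideal.mem_span_singleton'.2 ⟨(algebraMap (𝓞 L) (𝓞 M) b - algebraMap (𝓞 L) (𝓞 M) a) * V, ?_⟩
    linear_combination (-algebraMap (𝓞 L) (𝓞 M) a) * hUV
  · apply TRZ.rd8_uniq hD false
    have e : p2 D false = p1 D true := rfl
    rw [e]
    refine Ideal.mem_span_singleton'.2 ⟨(algebraMap (𝓞 L) (𝓞 M) a - algebraMap (𝓞 L) (𝓞 M) b) * U, ?_⟩
    linear_combination (-algebraMap (𝓞 L) (𝓞 M) b) * hUV

/-- an element modulo `8` with the value `-1` -/
theorem xa_neg {u : (𝓞 L)ˣ} {i : Bool} (hR : TRZ.Rm (u : 𝓞 L) i) : ∃ g h : 𝓞 M, g * h - 1 ∈ span {(8 : 𝓞 M)} ∧ xaG D u i g = -1 := by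
  have hk := TRZ.kp_kp hD (xa_unit hD u) hR
  obtain ⟨y, hy⟩ := hk.prim
  obtain ⟨g, h1, h2⟩ := xa_crt hD (1 + 2 ^ ((if i then 3 else 2) - 1) * y) 1
  have h3 : xaG D u i g = -1 := by
    unfold xaG
    rw [TRZ.x1_kp_per hk h1, TRZ.x1_kp_per hk h2, hy, TRZ.x1_kp_one hk hD.two, mul_one]
  have h4 : IsCoprime g 2 := by
    apply x0_cop
    intro v hv h5
    have h6 : xaG D u i g = 0 := by
      rw [xa_zero_iff hD hR]
      have h7 : p1 D true * p2 D true ∈ v.asIdeal := by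
        rw [x_mul]
        exact hv
      have hid : ∀ s, p2 D s ∈ v.asIdeal → g ∈ span {p2 D s} := by
        intro s hs
        have h8 : span {p2 D s} ≤ v.asIdeal := (Ideal.span_singleton_le_iff_mem _).2 hs
        have h9 : span {p2 D s} ≠ ⊥ := by
          rw [Ne, Ideal.span_singleton_eq_bot]
          exact TRZ.x1_p2_ne s
        have h10 := ((x_prime hD s).isMaximal h9).eq_of_le v.isPrime.ne_top h8
        rw [h10]
        exact h5
      rcases v.isPrime.mem_or_mem h7 with h8 | h8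
      · exact Or.inr (hid false h8)
      · exact Or.inl (hid true h8)
    rw [h3] at h6
    norm_num at h6
  obtain ⟨a, b, hab⟩ := (h4.pow_right (n := 3))
  refine ⟨g, a, ?_, h3⟩
  refine Ideal.mem_span_singleton'.2 ⟨-b, ?_⟩
  linear_combination -hab

omit hD [IsTotallyReal L] in
theorem xa_kap_not {v : HeightOneSpectrum (𝓞 L)} (h2 : (2 : 𝓞 L) ∉ v.asIdeal) (u : (𝓞 L)ˣ) (i : Bool) : kap u i ∉ v.asIdeal := by
  intro h
  unfold kap at h
  rcases v.isPrime.mem_or_mem h with h1 | h1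
  · exact v.isPrime.ne_top (Ideal.eq_top_of_isUnit_mem _ h1 u.isUnit)
  · cases i
    · rw [if_neg (by decide)] at h1
      exact v.isPrime.ne_top ((Ideal.eq_top_iff_one _).2 h1)
    · rw [if_pos rfl] at h1
      exact h2 h1

omit hD [IsTotallyReal L] in
theorem xa_chi (u : (𝓞 L)ˣ) (i : Bool) (v : OQ L) : TT.qr v.1 (kap u i) = TRQ.sy3_sg (chiL (kap u i) v) := by
  unfold chiL
  rcases TT.qr_cases v.1 (kap u i) with h | h | h
  · exact absurd ((TT.qr_eq_zero v.1).1 h) (xa_kap_not v.2.1 u i)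
  · rw [h, if_neg (by norm_num)]
    rfl
  · rw [h, if_pos rfl]
    rfl

/-- **the characters** `P ↦ (κ ∏_{u ∈ A} π_u / P)` of `M`, also for `A = ∅` -/
theorem xa_char {n : HeightOneSpectrum (𝓞 L) → 𝓞 L} (hn : ∀ v : OQ L, NL v.1 (n v.1)) {u : (𝓞 L)ˣ} {i : Bool}
    (hR : TRZ.Rm (u : 𝓞 L) i) (A : Finset (OQ L)) : ∃ X : Ideal (𝓞 M) →*₀ ℤ,
      (∀ (P : HeightOneSpectrum (𝓞 M)) (v : OQ L), a7a_pi (L := L) P = v.1 → v ∉ A → kL v = 0 →
        X P.asIdeal = if ∑ w ∈ A, wL n v w + chiL (kap u i) v = 0 then 1 else -1) ∧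
      (∀ (P : HeightOneSpectrum (𝓞 M)) (v : OQ L), a7a_pi (L := L) P = v.1 → v ∈ A → X P.asIdeal = 0) ∧
      (∀ (P : HeightOneSpectrum (𝓞 M)) (v : OQ L), a7a_pi (L := L) P = v.1 → kL v ≠ 0 → 0 ≤ X P.asIdeal) ∧
      TRQ.CharMod M (8 * ∏ w ∈ A, absNorm w.1.asIdeal) X := by
  obtain ⟨Λ, l1, l2, l3⟩ := xa_lam hD hR
  have l4 : ∀ J, |Λ J| ≤ 1 := fun J => ra_abs_le (l2 J)
  have lsplit : ∀ (P : HeightOneSpectrum (𝓞 M)) (v : OQ L), a7a_pi (L := L) P = v.1 → kL v = 0 →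
      Λ P.asIdeal = TRQ.sy3_sg (chiL (kap u i) v) := by
    intro P v hPv hk
    rw [l3 P (two_above hPv v.2.1), qr_split_alg D hPv v.2.1 (ra_kL.1.1 hk), xa_chi]
  have linert : ∀ (P : HeightOneSpectrum (𝓞 M)) (v : OQ L), a7a_pi (L := L) P = v.1 → kL v ≠ 0 → Λ P.asIdeal = 1 := by
    intro P v hPv hk
    rw [l3 P (two_above hPv v.2.1), qr_inert_alg D hPv v.2.1 (ra_kL.2.1 hk) (xa_kap_not v.2.1 u i)]
  obtain ⟨g₀, h₀, hgh, hg₀⟩ := xa_neg hD hR
  by_cases hA : A.Nonempty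
  · obtain ⟨X, h1, h2, h3, h4⟩ := exists_charS hD hn A hA
    let Y : Ideal (𝓞 M) →*₀ ℤ :=
      { toFun := fun J => X J * Λ J
        map_zero' := by rw [map_zero, zero_mul]
        map_one' := by rw [map_one, map_one, one_mul]
        map_mul' := fun J K => by rw [map_mul, map_mul]; ring }
    have hY : ∀ J, Y J = X J * Λ J := fun _ => rfl
    set N : ℕ := ∏ w ∈ A, absNorm w.1.asIdeal with hN
    have hNodd : Odd N := by
      rw [hN]
      exact Finset.prod_induction _ Odd (fun _ _ h1 h2 => h1.mul h2) odd_one fun w _ => TRB.f1_odd_norm w.2.1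
    refine ⟨Y, fun P v hPv hv hk => ?_, fun P v hPv hv => ?_, fun P v hPv hk => ?_, ⟨?_, fun J => ?_, fun x z => ?_, ?_⟩⟩
    · rw [hY, h1 P v hPv hv hk, lsplit P v hPv hk]
      have h6 : (if ∑ w ∈ A, wL n v w = 0 then (1 : ℤ) else -1) = TRQ.sy3_sg (∑ w ∈ A, wL n v w) := rfl
      rw [h6, ← TRQ.sy3_sg_add]
      rfl
    · rw [hY, h2 P v hPv hv, zero_mul]
    · rw [hY, linert P v hPv hk, mul_one]
      exact h3 P v hPv hk
    · have := hNodd.pos
      positivity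
    · rw [hY, abs_mul]
      exact mul_le_one₀ (h4.le J) (abs_nonneg _) (l4 J)
    · rw [hY, hY]
      congr 1
      · have e1 : ((8 * N : ℕ) : 𝓞 M) * z = ((N : ℕ) : 𝓞 M) * (8 * z) := by
          push_cast
          ring
        rw [e1]
        exact h4.per x (8 * z)
      · rw [l1, l1]
        apply xa_congr hD hR
        refine Ideal.mem_span_singleton'.2 ⟨(N : 𝓞 M) * z, ?_⟩
        push_cast
        ring
    · obtain ⟨α, β, hαβ⟩ : IsCoprime (8 : ℤ) (N : ℤ) := by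
        rw [Int.isCoprime_iff_gcd_eq_one]
        have h5 : Nat.Coprime 8 N := by
          have h6 : (8 : ℕ) = 2 ^ 3 := by norm_num
          rw [h6]
          exact Nat.Coprime.pow_left 3 (Nat.coprime_two_left.2 hNodd)
        exact h5
      have hab : (α : 𝓞 M) * 8 + (β : 𝓞 M) * (N : 𝓞 M) = 1 := by exact_mod_cast congrArg (fun t : ℤ => (t : 𝓞 M)) hαβ
      obtain ⟨k, hk⟩ := Ideal.mem_span_singleton'.1 hgh
      refine ⟨g₀ * (β * N) + α * 8, h₀ * (β * N) + α * 8, ?_, ?_⟩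
      · refine Ideal.mem_span_singleton'.2 ⟨k * β ^ 2 * N + α * β * (g₀ + h₀ - 2), ?_⟩
        push_cast
        linear_combination ((β : 𝓞 M) ^ 2 * N ^ 2) * hk - (α * 8 + β * N + 1) * hab
      · rw [hY]
        have e1 : g₀ * (β * N) + α * 8 = 1 + (N : 𝓞 M) * ((g₀ - 1) * β) := by linear_combination hab
        have e2 : X (span {g₀ * (β * N) + α * 8}) = 1 := by
          rw [e1, h4.per, Ideal.span_singleton_one, ← Ideal.one_eq_top, map_one]
        have e3 : xaG D u i (g₀ * (β * N) + α * 8) = xaG D u i g₀ := by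
          apply xa_congr hD hR
          refine Ideal.mem_span_singleton'.2 ⟨α * (1 - g₀), ?_⟩
          linear_combination (-g₀) * hab
        rw [e2, l1, e3, hg₀, one_mul]
  · rw [Finset.not_nonempty_iff_eq_empty] at hA
    subst hA
    refine ⟨Λ, fun P v hPv _ hk => ?_, fun P v _ hv => absurd hv (Finset.notMem_empty v), fun P v hPv hk => ?_,
      ⟨by norm_num, l4, fun x z => ?_, ⟨g₀, h₀, ?_, ?_⟩⟩⟩
    · rw [lsplit P v hPv hk, Finset.sum_empty, zero_add]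
      rfl
    · rw [linert P v hPv hk]
      norm_num
    · rw [l1, l1]
      apply xa_congr hD hR
      refine Ideal.mem_span_singleton'.2 ⟨z, ?_⟩
      push_cast
      rw [Finset.prod_empty]
      ring
    · rw [Finset.prod_empty, mul_one]
      exact_mod_cast hgh
    · rw [l1, hg₀]

/-- [X5a] `chrS` with `κ` (the set `A` may be empty) -/
theorem chrS_K {n : HeightOneSpectrum (𝓞 L) → 𝓞 L} (hn : ∀ v : OQ L, NL v.1 (n v.1)) (u : (𝓞 L)ˣ) (i : Bool)
    (hκ : ¬ IsSquare (kap u i)) : ∃ C : ℝ, 0 < C ∧ ∀ A : Finset (OQ L), ∀ y : ℝ, 1 ≤ y →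
    ∑ v ∈ ((BOQ L).pb y \ A).filter (fun v => kL v = 0), (if ∑ u ∈ A, wL n v u + chiL (kap u i) v = 0 then (1 : ℝ) else -1) / (BOQ L).N v ≤
      Real.log (Real.log ((BOQ L).nS A + 3)) + C := by
  have hR := xa_rm hD hκ
  obtain ⟨C, hC, h⟩ := TRQ.sum_char_le M
  have h14 : (14 : 𝓞 M) ≠ 0 := by norm_num
  set B14 : Finset (HeightOneSpectrum (𝓞 M)) := (TRN.n7_fin M h14).toFinset with hB14
  have hlg : 0 < Real.log (1 + Real.log (8 : ℕ)) := Real.log_pos (by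
    have : 0 < Real.log (8 : ℕ) := Real.log_pos (by norm_num)
    linarith)
  refine ⟨C + Real.log (1 + Real.log (8 : ℕ)) + B14.card, by positivity, fun A y hy => ?_⟩
  obtain ⟨X, h1, h2, h3, h4⟩ := xa_char hD hn hR A
  have hy0 : (0 : ℝ) ≤ y := by linarith
  have hmain := h _ X h4 y hy
  set T := TRN.prb M ⌊y⌋₊ with hT
  set f : HeightOneSpectrum (𝓞 M) → ℝ := fun P => (X P.asIdeal : ℝ) / absNorm P.asIdeal with hf
  set V := ((BOQ L).pb y \ A).filter (fun v => kL v = 0) with hV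
  set S : ℝ := ∑ v ∈ V, (if ∑ w ∈ A, wL n v w + chiL (kap u i) v = 0 then (1 : ℝ) else -1) / (BOQ L).N v with hS
  have hXle : ∀ P : HeightOneSpectrum (𝓞 M), |(X P.asIdeal : ℝ)| ≤ 1 := fun P => by exact_mod_cast h4.le P.asIdeal
  have hN1 : ∀ P : HeightOneSpectrum (𝓞 M), (1 : ℝ) ≤ absNorm P.asIdeal := by
    intro P
    have h5 : absNorm P.asIdeal ≠ 0 := fun h => P.ne_bot (Ideal.absNorm_eq_zero_iff.1 h)
    exact_mod_cast Nat.one_le_iff_ne_zero.2 h5
  -- the split primes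
  have hsplit : ∀ v ∈ V, ∑ P ∈ T.filter (fun P => a7a_pi (L := L) P = v.1), f P =
      2 * ((if ∑ w ∈ A, wL n v w + chiL (kap u i) v = 0 then (1 : ℝ) else -1) / (BOQ L).N v) := by
    intro v hv
    rw [hV, Finset.mem_filter, Finset.mem_sdiff, TRQ.Base.mem_pb] at hv
    obtain ⟨P, Q, hPQ, -, hRR, hNP, hNQ⟩ := D.split v.1 v.2.2 (ra_kL.1.1 hv.2)
    have hP := a7a_pi_eq.2 ((hRR P).2 (Or.inl rfl))
    have hQ := a7a_pi_eq.2 ((hRR Q).2 (Or.inr rfl))
    have hNv : ((BOQ L).N v : ℝ) = absNorm v.1.asIdeal := rfl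
    have hFe : T.filter (fun P => a7a_pi (L := L) P = v.1) = {P, Q} := by
      ext R
      rw [Finset.mem_filter, a7a_pi_eq, hRR, Finset.mem_insert, Finset.mem_singleton, hT, TRN.mem_prb]
      refine ⟨fun h => h.2, fun h => ⟨?_, h⟩⟩
      have h5 : absNorm R.asIdeal = absNorm v.1.asIdeal := by
        rcases h with rfl | rfl
        · exact hNP
        · exact hNQ
      rw [h5]
      exact Nat.le_floor hv.1.1
    rw [hFe, Finset.sum_pair hPQ, hf]
    dsimp only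
    rw [h1 P v hP hv.1.2 hv.2, h1 Q v hQ hv.1.2 hv.2, hNP, hNQ, hNv]
    split_ifs <;> push_cast <;> ring
  have hV2 : ∑ P ∈ V.biUnion (fun v => T.filter (fun P => a7a_pi (L := L) P = v.1)), f P = 2 * S := by
    rw [Finset.sum_biUnion, hS, Finset.mul_sum]
    · exact Finset.sum_congr rfl hsplit
    · intro u _ w _ huw
      rw [Function.onFun, Finset.disjoint_left]
      intro P hP hP'
      exact huw (Subtype.ext ((Finset.mem_filter.1 hP).2.symm.trans (Finset.mem_filter.1 hP').2))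
  have hsub : V.biUnion (fun v => T.filter (fun P => a7a_pi (L := L) P = v.1)) ⊆ T := by
    intro P hP
    obtain ⟨v, -, hv⟩ := Finset.mem_biUnion.1 hP
    exact (Finset.mem_filter.1 hv).1
  -- the other primes
  have hrest : ∀ P ∈ T \ V.biUnion (fun v => T.filter (fun P => a7a_pi (L := L) P = v.1)),
      -(if P ∈ B14 then (1 : ℝ) else 0) ≤ f P := by
    intro P hP
    rw [Finset.mem_sdiff] at hP
    have hNP := hN1 P
    by_cases hPB : P ∈ B14
    · rw [if_pos hPB]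
      have h5 := (abs_le.1 (hXle P)).1
      rw [hf]
      dsimp only
      rw [le_div_iff₀ (by linarith)]
      linarith
    · rw [if_neg hPB, neg_zero]
      have h14' : (14 : 𝓞 M) ∉ P.asIdeal := by
        intro h
        apply hPB
        rw [hB14, Set.Finite.mem_toFinset]
        exact h
      obtain ⟨v, hv⟩ := ra_below (L := L) h14'
      have h6 : 0 ≤ X P.asIdeal := by
        by_cases hvA : v ∈ A
        · rw [h2 P v hv hvA]
        · by_cases hkv : kL v = 0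
          · exfalso
            apply hP.2
            rw [Finset.mem_biUnion]
            refine ⟨v, ?_, Finset.mem_filter.2 ⟨hP.1, hv⟩⟩
            rw [hV, Finset.mem_filter, Finset.mem_sdiff, TRQ.Base.mem_pb]
            have h9 : absNorm P.asIdeal ≤ ⌊y⌋₊ := (TRN.mem_prb M).1 hP.1
            rw [Nat.le_floor_iff hy0, ra_norm_above D hkv hv] at h9
            exact ⟨⟨h9, hvA⟩, hkv⟩
          · exact h3 P v hv hkv
      exact div_nonneg (by exact_mod_cast h6) (by linarith)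
  have hsum : -(B14.card : ℝ) ≤ ∑ P ∈ T \ V.biUnion (fun v => T.filter (fun P => a7a_pi (L := L) P = v.1)), f P := by
    refine le_trans ?_ (Finset.sum_le_sum hrest)
    rw [Finset.sum_neg_distrib, neg_le_neg_iff, Finset.sum_ite_mem, Finset.sum_const, nsmul_eq_mul, mul_one]
    exact_mod_cast Finset.card_le_card Finset.inter_subset_right
  have htot := Finset.sum_sdiff (f := f) hsub
  have hll : 0 ≤ Real.log (Real.log ((BOQ L).nS A + 3)) := by
    apply Real.log_nonneg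
    rw [Real.le_log_iff_exp_le (by positivity)]
    have h5 := Real.exp_one_lt_d9
    have h6 : (0 : ℝ) ≤ ((BOQ L).nS A : ℝ) := Nat.cast_nonneg _
    linarith
  have e5 : (8 * ∏ u ∈ A, absNorm u.1.asIdeal : ℕ) = 8 * (BOQ L).nS A := rfl
  rw [e5] at hmain
  have h5 := ra_log (c := 8) (by norm_num) (Nat.pos_of_ne_zero fun h0 => ((BOQ L).nS_pos A).ne' h0 : 0 < (BOQ L).nS A)
  have hBc : (0 : ℝ) ≤ B14.card := Nat.cast_nonneg _
  linarith

end

end TRR
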