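import Pool.Agent.TRR.Defs2
import Pool.Agent.TRP.RA2a
import Mathlib.NumberTheory.LegendreSymbol.QuadraticChar.GaussSum

/-! # [REAL2-X5b] `chrE` with `τ` -/

set_option autoImplicit false
set_option linter.unusedSectionVars false

open NumberField Ideal IsDedekindDomain Filter Topology
open scoped Real Classical ComplexConjugate
open TR TRG TTS TU TT TRPR TRP

namespace TRR

/-! ### the character `χ₈ (N ·)` -/

/-- `χ₈` on the integers -/
def xb8 (n : ℤ) : ℤ := ZMod.χ₈ (n : ZMod 8)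

theorem xb8_mul (a b : ℤ) : xb8 (a * b) = xb8 a * xb8 b := by
  unfold xb8
  rw [Int.cast_mul, map_mul]

theorem xb8_neg (n : ℤ) : xb8 (-n) = xb8 n := by
  unfold xb8
  rw [Int.cast_neg]
  have h : ∀ z : ZMod 8, ZMod.χ₈ (-z) = ZMod.χ₈ z := by decide
  exact h _

theorem xb8_congr {a b : ℤ} (h : a % 8 = b % 8) : xb8 a = xb8 b := by
  unfold xb8
  have h1 : ((a : ℤ) : ZMod 8) = ((b : ℤ) : ZMod 8) := (ZMod.intCast_eq_intCast_iff' _ _ 8).2 (by omega)
  rw [h1]

theorem xb8_cases (n : ℤ) : xb8 n = 0 ∨ xb8 n = 1 ∨ xb8 n = -1 := by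
  unfold xb8
  have h : ∀ z : ZMod 8, ZMod.χ₈ z = 0 ∨ ZMod.χ₈ z = 1 ∨ ZMod.χ₈ z = -1 := by decide
  exact h _

theorem xb8_one : xb8 1 = 1 := by decide
theorem xb8_zero : xb8 0 = 0 := by decide

theorem xb8_pow (a : ℤ) (n : ℕ) : xb8 (a ^ n) = xb8 a ^ n := by
  induction n with
  | zero => rw [pow_zero, pow_zero, xb8_one]
  | succ n ih => rw [pow_succ, xb8_mul, ih, pow_succ]

section
variable {L : Type} [Field L] [NumberField L]

/-- the character `χ₈ (N ·)` of the ideals -/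
noncomputable def xbI (L : Type) [Field L] [NumberField L] : Ideal (𝓞 L) →*₀ ℤ where
  toFun J := xb8 (absNorm J : ℤ)
  map_zero' := by rw [map_zero, Nat.cast_zero, xb8_zero]
  map_one' := by rw [map_one, Nat.cast_one, xb8_one]
  map_mul' J K := by rw [map_mul, Nat.cast_mul, xb8_mul]

theorem xbI_apply (J : Ideal (𝓞 L)) : xbI L J = xb8 (absNorm J : ℤ) := rfl

theorem xbI_span (x : 𝓞 L) : xbI L (span {x}) = xb8 (Algebra.norm ℤ x) := by
  rw [xbI_apply, Ideal.absNorm_span_singleton, Int.natCast_natAbs]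
  rcases abs_choice (Algebra.norm ℤ x : ℤ) with h | h <;> rw [h]
  rw [xb8_neg]

theorem xbI_add (x z : 𝓞 L) : xbI L (span {x + 8 * z}) = xbI L (span {x}) := by
  rw [xbI_span, xbI_span]
  apply xb8_congr
  have h := ra_norm_congr 8 x z
  exact_mod_cast h

/-- `(2 / v) = χ₈ (N v)` -/
theorem xbI_prime (v : OQ L) : xbI L v.1.asIdeal = TRQ.sy3_sg (tauL v) := by
  rw [xbI_apply]
  have hfin : Finite (𝓞 L ⧸ v.1.asIdeal) := Ideal.finiteQuotientOfFreeOfNeBot _ v.1.ne_bot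
  have hmax := v.1.isMaximal
  let F := 𝓞 L ⧸ v.1.asIdeal
  let : Field F := Ideal.Quotient.field _
  let : Fintype F := Fintype.ofFinite F
  have hcard : Fintype.card F = absNorm v.1.asIdeal := by
    rw [← Nat.card_eq_fintype_card, Ideal.absNorm_apply, Submodule.cardQuot_apply]
  have hsq : (∃ b : 𝓞 L, b ^ 2 - 2 ∈ v.1.asIdeal) ↔ IsSquare (2 : F) := by
    constructor
    · rintro ⟨b, hb⟩
      refine ⟨Ideal.Quotient.mk _ b, ?_⟩
      have h1 : Ideal.Quotient.mk v.1.asIdeal (b ^ 2) = Ideal.Quotient.mk v.1.asIdeal 2 :=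
        (Ideal.Quotient.mk_eq_mk_iff_sub_mem _ _).2 hb
      rw [map_pow, map_ofNat, sq] at h1
      exact h1.symm
    · rintro ⟨b, hb⟩
      obtain ⟨b', rfl⟩ := Ideal.Quotient.mk_surjective b
      refine ⟨b', (Ideal.Quotient.mk_eq_mk_iff_sub_mem _ _).1 ?_⟩
      rw [map_pow, map_ofNat, sq]
      exact hb.symm
  have h8 := FiniteField.isSquare_two_iff (F := F)
  rw [hcard] at h8
  have hodd : absNorm v.1.asIdeal % 2 = 1 := Nat.odd_iff.1 (TRB.f1_odd_norm v.2.1)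
  have hq : TT.qr v.1 2 = if absNorm v.1.asIdeal % 8 = 3 ∨ absNorm v.1.asIdeal % 8 = 5 then -1 else 1 := by
    unfold TT.qr
    rw [if_neg v.2.1, hsq, h8]
    by_cases h : absNorm v.1.asIdeal % 8 = 3 ∨ absNorm v.1.asIdeal % 8 = 5
    · rw [if_pos h, if_neg (by omega)]
    · rw [if_neg h, if_pos (by omega)]
  have hτ : tauL v = if absNorm v.1.asIdeal % 8 = 3 ∨ absNorm v.1.asIdeal % 8 = 5 then 1 else 0 := by
    unfold tauL
    rw [hq]
    by_cases h : absNorm v.1.asIdeal % 8 = 3 ∨ absNorm v.1.asIdeal % 8 = 5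
    · rw [if_pos h, if_pos h, if_pos rfl]
    · rw [if_neg h, if_neg h, if_neg (by norm_num)]
  have hx : xb8 (absNorm v.1.asIdeal : ℤ) = if absNorm v.1.asIdeal % 8 = 3 ∨ absNorm v.1.asIdeal % 8 = 5 then -1 else 1 := by
    have h1 : ∀ r : ℕ, absNorm v.1.asIdeal % 8 = r → xb8 (absNorm v.1.asIdeal : ℤ) = xb8 (r : ℤ) := fun r hr =>
      xb8_congr (by omega)
    have h2 : absNorm v.1.asIdeal % 8 = 1 ∨ absNorm v.1.asIdeal % 8 = 3 ∨ absNorm v.1.asIdeal % 8 = 5 ∨ absNorm v.1.asIdeal % 8 = 7 := by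
      omega
    rcases h2 with h | h | h | h <;> rw [h1 _ h, h] <;> decide
  rw [hx, hτ]
  by_cases h : absNorm v.1.asIdeal % 8 = 3 ∨ absNorm v.1.asIdeal % 8 = 5
  · rw [if_pos h, if_pos h]
    rfl
  · rw [if_neg h, if_neg h]
    rfl

end

section
variable {L M : Type} [Field L] [NumberField L] [Field M] [NumberField M] [Algebra L M]
  [IsTotallyReal L] {D : Dat L M} (hD : Od2 D)
include hD

/-- the characters of `chrE_L`, also for `A = ∅` -/
theorem xb_charA {n : HeightOneSpectrum (𝓞 L) → 𝓞 L} (hn : ∀ v : OQ L, NL v.1 (n v.1)) (A : Finset (OQ L)) (e : ZMod 2) :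
    ∃ X : Ideal (𝓞 L) →*₀ ℤ, (∀ v : OQ L, v ∉ A → X v.1.asIdeal =
        if ∑ u ∈ A, wL n u v + e * (kL v + xL v) = 0 then 1 else -1) ∧
      (∀ v ∈ A, X v.1.asIdeal = 0) ∧
      (∀ P : HeightOneSpectrum (𝓞 L), ((2 : 𝓞 L) ∈ P.asIdeal ∨ (7 : 𝓞 L) ∈ P.asIdeal) → X P.asIdeal = 0) ∧
      (∀ J, |X J| ≤ 1) ∧
      ∀ x z : 𝓞 L, X (span {x + ((28 * ∏ u ∈ A, absNorm u.1.asIdeal : ℕ) : 𝓞 L) * z}) = X (span {x}) := by
  by_cases hA : A.Nonempty
  · obtain ⟨X, h1, h2, h3, h4⟩ := exists_charL' hD hn A e hA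
    exact ⟨X, h1, h2, h3, h4.le, h4.per⟩
  · rw [Finset.not_nonempty_iff_eq_empty] at hA
    subst hA
    let X : Ideal (𝓞 L) →*₀ ℤ :=
      { toFun := fun J => if e = 0 then raI L J * raI L J else raI L J
        map_zero' := by
          rw [map_zero]
          simp
        map_one' := by
          rw [map_one]
          simp
        map_mul' := by
          intro J K
          rw [map_mul]
          split_ifs <;> ring }
    have hX : ∀ J, X J = if e = 0 then raI L J * raI L J else raI L J := fun J => rfl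
    refine ⟨X, fun v _ => ?_, fun v hv => absurd hv (Finset.notMem_empty v), fun P hP => ?_, fun J => ?_, fun x z => ?_⟩
    · have h2 : (if e = 0 then raI L v.1.asIdeal * raI L v.1.asIdeal else raI L v.1.asIdeal) =
          TRQ.sy3_sg (e * (kL v + xL v)) := by
        rw [raI_prime]
        exact ra_dec e (kL v + xL v)
      rw [hX, h2, Finset.sum_empty, zero_add]
      rfl
    · have h0 : raI L P.asIdeal = 0 := by
        rcases hP with hP | hP
        · exact raI_two hP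
        · exact raI_seven hP
      rw [hX, h0]
      simp
    · have h2 := raE_cases (absNorm J : ℤ)
      rw [← raI_apply] at h2
      rw [hX]
      split_ifs
      · rw [abs_mul]
        exact mul_le_one₀ (ra_abs_le h2) (abs_nonneg _) (ra_abs_le h2)
      · exact ra_abs_le h2
    · rw [hX, hX]
      have h1 : raI L (span {x + ((28 * ∏ u ∈ (∅ : Finset (OQ L)), absNorm u.1.asIdeal : ℕ) : 𝓞 L) * z}) = raI L (span {x}) := by
        rw [Finset.prod_empty, mul_one]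
        exact_mod_cast raI_add x z
      rw [h1]

/-- the product with `χ₈ (N ·)` -/
theorem xb_char {n : HeightOneSpectrum (𝓞 L) → 𝓞 L} (hn : ∀ v : OQ L, NL v.1 (n v.1)) (A : Finset (OQ L)) (e : ZMod 2) :
    ∃ X : Ideal (𝓞 L) →*₀ ℤ, (∀ v : OQ L, v ∉ A → X v.1.asIdeal =
        if ∑ u ∈ A, wL n u v + tauL v + e * (kL v + xL v) = 0 then 1 else -1) ∧
      (∀ v ∈ A, X v.1.asIdeal = 0) ∧
      (∀ P : HeightOneSpectrum (𝓞 L), ((2 : 𝓞 L) ∈ P.asIdeal ∨ (7 : 𝓞 L) ∈ P.asIdeal) → X P.asIdeal = 0) ∧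
      TRQ.CharMod L (56 * ∏ u ∈ A, absNorm u.1.asIdeal) X := by
  obtain ⟨X, h1, h2, h3, h4, h5⟩ := xb_charA hD hn A e
  let Y : Ideal (𝓞 L) →*₀ ℤ :=
    { toFun := fun J => X J * xbI L J
      map_zero' := by rw [map_zero, zero_mul]
      map_one' := by rw [map_one, map_one, one_mul]
      map_mul' := fun J K => by rw [map_mul, map_mul]; ring }
  have hY : ∀ J, Y J = X J * xbI L J := fun _ => rfl
  set N : ℕ := ∏ u ∈ A, absNorm u.1.asIdeal with hN
  have hNodd : Odd N := by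
    rw [hN]
    exact Finset.prod_induction _ Odd (fun _ _ h1 h2 => h1.mul h2) odd_one fun u _ => TRB.f1_odd_norm u.2.1
  refine ⟨Y, fun v hv => ?_, fun v hv => ?_, fun P hP => ?_, ⟨?_, fun J => ?_, fun x z => ?_, ?_⟩⟩
  · rw [hY, h1 v hv, xbI_prime]
    have h6 : (if ∑ u ∈ A, wL n u v + e * (kL v + xL v) = 0 then (1 : ℤ) else -1) =
        TRQ.sy3_sg (∑ u ∈ A, wL n u v + e * (kL v + xL v)) := rfl
    rw [h6, ← TRQ.sy3_sg_add]
    have h7 : ∑ u ∈ A, wL n u v + e * (kL v + xL v) + tauL v = ∑ u ∈ A, wL n u v + tauL v + e * (kL v + xL v) := by ring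
    rw [h7]
    rfl
  · rw [hY, h2 v hv, zero_mul]
  · rw [hY, h3 P hP, zero_mul]
  · have := hNodd.pos
    positivity
  · rw [hY, abs_mul]
    exact mul_le_one₀ (h4 J) (abs_nonneg _) (ra_abs_le (xb8_cases _))
  · rw [hY, hY]
    congr 1
    · have h6 := h5 x (2 * z)
      have e1 : ((56 * N : ℕ) : 𝓞 L) * z = ((28 * N : ℕ) : 𝓞 L) * (2 * z) := by
        push_cast
        ring
      rw [e1]
      exact h6
    · have h6 := xbI_add x ((7 * N : ℕ) * z)
      have e1 : ((56 * N : ℕ) : 𝓞 L) * z = 8 * ((7 * N : ℕ) * z) := by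
        push_cast
        ring
      rw [e1]
      exact h6
  · refine ⟨1 + ((28 * N : ℕ) : 𝓞 L) * 1, 1 - ((28 * N : ℕ) : 𝓞 L), ?_, ?_⟩
    · refine Ideal.mem_span_singleton.2 ⟨-(14 * N : ℕ), ?_⟩
      push_cast
      ring
    · rw [hY, h5]
      have h6 : X (span {1}) = 1 := by
        rw [Ideal.span_singleton_one, ← Ideal.one_eq_top, map_one]
      have h7 : xbI L (span {1 + ((28 * N : ℕ) : 𝓞 L) * 1}) = -1 := by
        have e2 : (1 + ((28 * N : ℕ) : 𝓞 L) * 1) = algebraMap ℤ (𝓞 L) ((1 + 28 * N : ℕ) : ℤ) := by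
          rw [eq_intCast]
          push_cast
          ring
        rw [xbI_span, e2, Algebra.norm_algebraMap, xb8_pow, RingOfIntegers.rank]
        have h8 : xb8 ((1 + 28 * N : ℕ) : ℤ) = -1 := by
          obtain ⟨k, hk⟩ := hNodd
          have h9 : (((1 + 28 * N : ℕ) : ℤ)) % 8 = (5 : ℤ) % 8 := by
            rw [hk]
            push_cast
            omega
          rw [xb8_congr h9]
          decide
        rw [h8, hD.odd.neg_one_pow]
      rw [h6, h7, one_mul]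

/-- [X5b] `chrE` with `τ` (the set `A` may be empty) -/
theorem chrE_K {n : HeightOneSpectrum (𝓞 L) → 𝓞 L} (hn : ∀ v : OQ L, NL v.1 (n v.1)) : ∃ C : ℝ, 0 < C ∧
    ∀ (A : Finset (OQ L)) (e : ZMod 2), ∀ y : ℝ, 1 ≤ y →
    ∑ v ∈ (BOQ L).pb y \ A, (if ∑ u ∈ A, wL n u v + tauL v + e * (kL v + xL v) = 0 then (1 : ℝ) else -1) / (BOQ L).N v ≤
      Real.log (Real.log ((BOQ L).nS A + 3)) + C := by
  obtain ⟨C, hC, h⟩ := TRQ.sum_char_le L
  have hlg : 0 < Real.log (1 + Real.log (56 : ℕ)) := Real.log_pos (by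
    have : 0 < Real.log (56 : ℕ) := Real.log_pos (by norm_num)
    linarith)
  refine ⟨C + Real.log (1 + Real.log (56 : ℕ)), by linarith, fun A e x hx => ?_⟩
  obtain ⟨X, h1, h2, h3, h4⟩ := xb_char hD hn A e
  have hx0 : (0 : ℝ) ≤ x := by linarith
  have e1 : ∑ v ∈ (BOQ L).pb x \ A, (if ∑ u ∈ A, wL n u v + tauL v + e * (kL v + xL v) = 0 then (1 : ℝ) else -1) /
      (BOQ L).N v = ∑ v ∈ (BOQ L).pb x, (X v.1.asIdeal : ℝ) / absNorm v.1.asIdeal := by
    rw [← Finset.sum_filter_add_sum_filter_not ((BOQ L).pb x) (fun v => v ∉ A)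
      (fun v => (X v.1.asIdeal : ℝ) / absNorm v.1.asIdeal)]
    have e2 : ∑ v ∈ ((BOQ L).pb x).filter (fun v => ¬ v ∉ A), (X v.1.asIdeal : ℝ) / absNorm v.1.asIdeal = 0 := by
      refine Finset.sum_eq_zero fun v hv => ?_
      rw [h2 v (not_not.1 (Finset.mem_filter.1 hv).2), Int.cast_zero, zero_div]
    rw [e2, add_zero, ← Finset.sdiff_eq_filter]
    refine Finset.sum_congr rfl fun v hv => ?_
    rw [h1 v (Finset.mem_sdiff.1 hv).2]
    have e3 : ((BOQ L).N v : ℝ) = absNorm v.1.asIdeal := rfl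
    rw [e3]
    split_ifs <;> norm_num
  have e4 : ∑ v ∈ (BOQ L).pb x, (X v.1.asIdeal : ℝ) / absNorm v.1.asIdeal =
      ∑ P ∈ TRN.prb L ⌊x⌋₊, (X P.asIdeal : ℝ) / absNorm P.asIdeal := by
    rw [TRPA.nm_sum (BOQ L) (fun _ => rfl) (fun P => (X P.asIdeal : ℝ) / absNorm P.asIdeal) hx0,
      Finset.sum_filter]
    refine Finset.sum_congr rfl fun P _ => ?_
    by_cases hP : (2 : 𝓞 L) ∉ P.asIdeal ∧ (7 : 𝓞 L) ∉ P.asIdeal
    · rw [if_pos hP]
    · rw [if_neg hP, h3 P (by tauto), Int.cast_zero, zero_div]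
  rw [e1, e4]
  refine (h _ X h4 x hx).trans ?_
  have h5 := ra_log (c := 56) (by norm_num) (Nat.pos_of_ne_zero fun h0 => ((BOQ L).nS_pos A).ne' h0 : 0 < (BOQ L).nS A)
  have e5 : (56 * ∏ u ∈ A, absNorm u.1.asIdeal : ℕ) = 56 * (BOQ L).nS A := rfl
  rw [e5]
  linarith

end

end TRR
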