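import Pool.Agent.TRR.FL2
import Pool.Agent.TRP.RA4

/-! # [REAL2-X7b, X7c] the bad primes and the allowed curves -/

set_option autoImplicit false
set_option linter.unusedSectionVars false

open NumberField Ideal IsDedekindDomain Filter Topology
open scoped Real Classical ComplexConjugate
open TR TRG TTS TU TT XTB TRP TRZ

namespace TRR

section
variable {L M : Type} [Field L] [NumberField L] [Field M] [NumberField M] [Algebra L M]
  [IsTotallyReal L] {D : Dat L M} (hD : Od2 D)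

include hD

theorem kap_false {u : (𝓞 L)ˣ} (h : IsSquare (kap u false)) : ∃ w : (𝓞 L)ˣ, u = w ^ 2 := by
  obtain ⟨x, hx⟩ := h
  unfold kap at hx
  rw [if_neg Bool.false_ne_true, mul_one] at hx
  have hu : IsUnit x := by
    have : IsUnit (x * x) := by
      rw [← hx]
      exact u.isUnit
    exact isUnit_of_mul_isUnit_left this
  obtain ⟨w, rfl⟩ := hu
  refine ⟨w, Units.ext ?_⟩
  rw [hx, Units.val_pow_eq_pow_val, sq]

/-- `κ` is a square iff `i = 0` and `u` is a square -/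
theorem kap_iff {u : (𝓞 L)ˣ} {i : Bool} : IsSquare (kap u i) ↔ i = false ∧ ∃ w : (𝓞 L)ˣ, u = w ^ 2 := by
  constructor
  · intro h
    have hi : i = false := by
      by_contra hi
      have hi' : i = true := by simpa using hi
      subst hi'
      obtain ⟨x, hx⟩ := h
      have h1 : IsSquare ((V2 hD).valuation L (kap u true : L)) := by
        rw [hx, cmul, map_mul]
        exact ⟨_, rfl⟩
      unfold kap at h1
      rw [if_pos rfl, cmul, map_mul, val_unit, one_mul] at h1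
      exact (val_two hD (V2 hD)).1 h1 rfl
    subst hi
    exact ⟨rfl, kap_false hD h⟩
  · rintro ⟨rfl, w, rfl⟩
    refine ⟨(w : 𝓞 L), ?_⟩
    unfold kap
    rw [if_neg Bool.false_ne_true, mul_one, Units.val_pow_eq_pow_val, sq]

variable {n : HeightOneSpectrum (𝓞 L) → 𝓞 L} (hn : ∀ v : OQ L, NL v.1 (n v.1))

theorem dL_lfd (u : (𝓞 L)ˣ) (b : Bool) (S : Finset (OQ L)) : dL n u false b S = ((u : 𝓞 L) : L) * lfd n S b := by
  unfold dL lfd kap
  rw [if_neg Bool.false_ne_true, mul_one, mul_assoc]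

include hn

theorem dL_ne (u : (𝓞 L)ˣ) (i b : Bool) (S : Finset (OQ L)) : dL n u i b S ≠ 0 := by
  rw [← el_coe]
  exact el_ne hn u i b S

/-- unramified at `2` iff `κ` is a square -/
theorem dL_ur (u : (𝓞 L)ˣ) (i b : Bool) (S : Finset (OQ L)) : Ur (V2 hD) (dL n u i b S) ↔ IsSquare (kap u i) := by
  have h2 : (2 : 𝓞 L) ∈ (V2 hD).asIdeal := (V2_iff hD _).2 rfl
  have h7 : (7 : 𝓞 L) ∉ (V2 hD).asIdeal := lf_seven_two h2
  have hl : Ur (V2 hD) (lfd n S b) := lfd_ur hn b h7 fun w _ => (ne_V2 hn hD w).symm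
  rw [kap_iff hD]
  constructor
  · intro h
    have h1 := h.val
    rw [← el_coe, val_el_two hn hD] at h1
    subst h1
    refine ⟨rfl, ?_⟩
    rw [dL_lfd hD] at h
    have h3 := h.mul hl
    have h4 : ((u : 𝓞 L) : L) * lfd n S b * lfd n S b = (lfd n S b) ^ 2 * ((u : 𝓞 L) : L) := by ring
    rw [h4] at h3
    exact lf_unit hD h2 ((ur_sq_mul (lfd_ne hn S b)).1 h3)
  · rintro ⟨rfl, w, rfl⟩
    rw [dL_lfd hD, Units.val_pow_eq_pow_val, cpow]
    exact (ur_sq_mul (unit_ne w)).2 hl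

/-- [X7b] -/
theorem dL_bad (u : (𝓞 L)ˣ) (i b : Bool) (S : Finset (OQ L))
    (v : HeightOneSpectrum (𝓞 L)) : ¬ XTS.GoodReduction (TTS.Ws (dL n u i b S)) v ↔
      (7 : 𝓞 L) ∈ v.asIdeal ∨ ((2 : 𝓞 L) ∈ v.asIdeal ∧ ¬ IsSquare (kap u i)) ∨ ∃ w ∈ S, v = w.1 := by
  have hd0 := dL_ne hD hn u i b S
  show ¬ GoodAt v (Ws (dL n u i b S)) ↔ _
  by_cases h7 : (7 : 𝓞 L) ∈ v.asIdeal
  · refine ⟨fun _ => Or.inl h7, fun _ => ?_⟩
    have hvs : v.asIdeal = span {(7 : 𝓞 L)} := (D.above_seven.1 v).1 h7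
    have h70 : (7 : 𝓞 L) ≠ 0 := by norm_num
    apply ra3_bad hd0
    · have h1 : ((7 : 𝓞 L) : L) = 7 := map_ofNat (algebraMap (𝓞 L) L) 7
      rw [← h1, HeightOneSpectrum.valuation_of_algebraMap]
      exact HeightOneSpectrum.intValuation_singleton v h70 hvs
    · have h3 : (2 : 𝓞 L) ∉ v.asIdeal := fun h4 => lf_seven_two h4 h7
      have h5 : ((2 : 𝓞 L) : L) = 2 := map_ofNat (algebraMap (𝓞 L) L) 2
      rw [← h5, HeightOneSpectrum.valuation_of_algebraMap]
      exact HeightOneSpectrum.intValuation_eq_one_iff.2 h3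
  · rw [ra3_good hd0 h7]
    by_cases h2 : (2 : 𝓞 L) ∈ v.asIdeal
    · obtain rfl := (V2_iff hD v).1 h2
      rw [dL_ur hD hn]
      constructor
      · intro h
        exact Or.inr (Or.inl ⟨h2, h⟩)
      · rintro (h | h | ⟨w, -, hw⟩)
        · exact absurd h h7
        · exact h.2
        · exact absurd hw.symm (ne_V2 hn hD w)
    · rw [ur_iff_val h2 hd0, ← el_coe, val_el_odd hn hD u i b S ⟨v, h2, h7⟩, not_not]
      constructor
      · intro h
        exact Or.inr (Or.inr ⟨_, h, rfl⟩)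
      · rintro (h | h | ⟨w, hw, hvw⟩)
        · exact absurd h h7
        · exact absurd h.1 h2
        · have : w = ⟨v, h2, h7⟩ := Subtype.ext hvw.symm
          rwa [← this]

/-- [X7c] the allowed curves -/
theorem dL_ok (u : (𝓞 L)ˣ) (i b : Bool) (S : Finset (OQ L)) (C : WeierstrassCurve.VariableChange L) :
    GenCurve (C • TTS.Ws (dL n u i b S)) ↔ (IsSquare (kap u i) → ∑ v ∈ S, tauL v = 0) := by
  have hd0 := dL_ne hD hn u i b S
  have h2 : (2 : 𝓞 L) ∈ (V2 hD).asIdeal := (V2_iff hD _).2 rfl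
  have h7 : (7 : 𝓞 L) ∉ (V2 hD).asIdeal := lf_seven_two h2
  have hgood : XTS.GoodReduction (C • Ws (dL n u i b S)) (V2 hD) ↔ IsSquare (kap u i) := by
    rw [ra_good_iff, ← dL_ur hD hn u i b S]
    exact ra3_good hd0 h7
  constructor
  · intro h hsq
    obtain ⟨rfl, w, rfl⟩ := (kap_iff hD).1 hsq
    obtain ⟨C1, hC1⟩ := h.two (V2 hD) h2 (hgood.2 hsq)
    have : CharZero ((V2 hD).adicCompletion L) :=
      charZero_of_injective_algebraMap (algebraMap L ((V2 hD).adicCompletion L)).injective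
    have h3 : IsSquare (algebraMap L ((V2 hD).adicCompletion L) (dL n (w ^ 2) false b S)) := by
      rw [← WeierstrassCurve.map_variableChange, Ws_map, ← mul_smul] at hC1
      refine nf_sq (C := C1 * C.map (algebraMap L ((V2 hD).adicCompletion L))) ?_
      rw [hC1]
      ext <;> simp [TT.Wc]
    rw [← lf_tau, ← lf_sg hD hn S b h2]
    have h4 := sg_eq_one_iff.2 (TRX.Sq_of_isSquare (V2 hD) hd0 h3)
    rw [dL_lfd hD, Units.val_pow_eq_pow_val, cpow, sg_sq_mul (unit_ne w)] at h4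
    exact h4
  · intro h
    refine ⟨nf3_j hd0 C, fun P hP hg => ?_⟩
    obtain rfl := (V2_iff hD P).1 hP
    have hsq := hgood.1 hg
    have hS := h hsq
    obtain ⟨rfl, w, rfl⟩ := (kap_iff hD).1 hsq
    obtain ⟨C1, hC1⟩ := (lf_curve hD hn S b hS).two (V2 hD) h2
    obtain ⟨C2, hC2⟩ := (ws_iso_iff (d := lfd n S b) hd0).2 ⟨((w : 𝓞 L) : L), unit_ne w, by
      rw [dL_lfd hD, Units.val_pow_eq_pow_val, cpow]⟩
    refine ⟨C1 * ((C * C2).map (algebraMap L ((V2 hD).adicCompletion L)))⁻¹, ?_⟩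
    rw [hC2, ← mul_smul C C2, ← WeierstrassCurve.map_variableChange, mul_smul, inv_smul_smul]
    exact hC1

end

end TRR
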