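import Pool.Agent.TRR.X7e
import Pool.Agent.TRZ.SG4

/-! # [REAL2-X7d] the condition of the criterion over `M` -/

set_option autoImplicit false
set_option linter.unusedSectionVars false

open NumberField Ideal IsDedekindDomain
open scoped Real Classical ComplexConjugate
open TR TRG TTS TU TT XTB TRPR TRP TRZ

namespace TRR

section
variable {L : Type} [Field L] [NumberField L]

/-- the symbol of `2` -/
theorem x7_qr_two {v : HeightOneSpectrum (𝓞 L)} (h2 : (2 : 𝓞 L) ∉ v.asIdeal) :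
    TT.qr v 2 = ZMod.χ₈ ((absNorm v.asIdeal : ℕ) : ZMod 8) := by
  obtain ⟨k, _, _, q, hs, h0, hc, hq⟩ := q0_data v
  rw [hq, map_ofNat, quadraticChar_two (q0_ringChar v q h0 h2), hc]

/-- the symbol of the generator at `2` -/
theorem x7_t8_one {n : HeightOneSpectrum (𝓞 L) → 𝓞 L} (hn : ∀ v : OQ L, NL v.1 (n v.1)) (v : OQ L) :
    t8 (n v.1) = TT.qr v.1 2 := by
  obtain ⟨⟨k, hk, hq⟩, -⟩ := hn v
  rw [x7_qr_two v.2.1]
  unfold t8
  have h1 : (Algebra.norm ℤ (n v.1)).natAbs = absNorm v.1.asIdeal ^ k := by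
    rw [← absNorm_span_singleton, hq, map_pow]
  have h2 : ZMod.χ₈ ((Algebra.norm ℤ (n v.1) : ℤ) : ZMod 8) = ZMod.χ₈ ((absNorm v.1.asIdeal : ℕ) : ZMod 8) ^ k := by
    rw [← map_pow]
    have h3 : ((absNorm v.1.asIdeal : ℕ) : ZMod 8) ^ k = (((Algebra.norm ℤ (n v.1)).natAbs : ℕ) : ZMod 8) := by
      rw [h1, Nat.cast_pow]
    rw [h3]
    rcases Int.natAbs_eq (Algebra.norm ℤ (n v.1)) with h | h
    · conv_lhs => rw [h]
      rw [Int.cast_natCast]
    · conv_lhs => rw [h]
      rw [Int.cast_neg, Int.cast_natCast, neg_eq_neg_one_mul, map_mul]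
      have h4 : ZMod.χ₈ (-1) = 1 := by decide
      rw [h4, one_mul]
  rw [h2]
  have h5 : ∀ x : ZMod 8, ZMod.χ₈ x = 0 ∨ ZMod.χ₈ x = 1 ∨ ZMod.χ₈ x = -1 := by decide
  rcases h5 ((absNorm v.1.asIdeal : ℕ) : ZMod 8) with h | h | h
  · rw [h, zero_pow]
    rintro rfl
    exact (by decide : ¬ Odd 0) hk
  · rw [h, one_pow]
  · rw [h, hk.neg_one_pow]

theorem x7_t8 {n : HeightOneSpectrum (𝓞 L) → 𝓞 L} (hn : ∀ v : OQ L, NL v.1 (n v.1)) (S : Finset (OQ L)) :
    t8 (∏ v ∈ S, n v.1) = ∏ v ∈ S, TT.qr v.1 2 := by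
  induction S using Finset.induction_on with
  | empty =>
    rw [Finset.prod_empty, Finset.prod_empty]
    exact k1_one
  | insert v U hv ih => rw [Finset.prod_insert hv, Finset.prod_insert hv, k1_mul, ih, x7_t8_one hn]

end

section
variable {L M : Type} [Field L] [NumberField L] [Field M] [NumberField M] [Algebra L M]
  [IsTotallyReal L] {D : Dat L M}

/-- the primes above `7` and above `S` -/
theorem exists_T7 (D : Dat L M) (S : Finset (OQ L)) : ∃ T : Finset (HeightOneSpectrum (𝓞 M)),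
    ∀ P, P ∈ T ↔ (7 : 𝓞 M) ∈ P.asIdeal ∨ ∃ v ∈ S, a7a_pi (L := L) P = v.1 := by
  have hfin : {P : HeightOneSpectrum (𝓞 M) | (7 : 𝓞 M) ∈ P.asIdeal ∨ ∃ v ∈ S, a7a_pi (L := L) P = v.1}.Finite := by
    have h0 : ∀ v : OQ L, v.1.asIdeal.map (algebraMap (𝓞 L) (𝓞 M)) ≠ ⊥ := by
      intro v h
      exact v.1.ne_bot ((Ideal.map_eq_bot_iff_of_injective (FaithfulSMul.algebraMap_injective (𝓞 L) (𝓞 M))).1 h)
    have h7 : span {(7 : 𝓞 M)} ≠ ⊥ := by
      rw [Ne, Ideal.span_singleton_eq_bot]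
      norm_num
    set I : Ideal (𝓞 M) := ∏ v ∈ S, v.1.asIdeal.map (algebraMap (𝓞 L) (𝓞 M)) with hI
    have hI0 : I ≠ 0 := Finset.prod_ne_zero_iff.2 fun v _ => h0 v
    refine (Ideal.finite_factors (I := span {(7 : 𝓞 M)} * I) (mul_ne_zero h7 hI0)).subset ?_
    rintro P (h | ⟨v, hv, h⟩)
    · have h1 : P.asIdeal ∣ span {(7 : 𝓞 M)} := by
        rw [Ideal.dvd_iff_le, Ideal.span_singleton_le_iff_mem]
        exact h
      exact Dvd.dvd.mul_right h1 I
    · have h1 : P.asIdeal ∣ v.1.asIdeal.map (algebraMap (𝓞 L) (𝓞 M)) := by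
        rw [Ideal.dvd_iff_le, Ideal.map_le_iff_le_comap, ← h]
        exact le_refl _
      have h2 : v.1.asIdeal.map (algebraMap (𝓞 L) (𝓞 M)) ∣ I := by
        rw [hI]
        exact Finset.dvd_prod_of_mem (fun v : OQ L => v.1.asIdeal.map (algebraMap (𝓞 L) (𝓞 M))) hv
      exact Dvd.dvd.mul_left (h1.trans h2) (span {(7 : 𝓞 M)})
  refine ⟨hfin.toFinset, fun P => ?_⟩
  rw [Set.Finite.mem_toFinset]
  rfl

variable (hD : Od2 D)
include hD

/-- [X7d] the condition of the criterion over `M` -/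
theorem dL_nsq {n : HeightOneSpectrum (𝓞 L) → 𝓞 L} (hn : ∀ v : OQ L, NL v.1 (n v.1)) (u : (𝓞 L)ˣ) (i b : Bool) (S : Finset (OQ L)) :
    (∀ t, TRZ.Nsq D t (algebraMap L M (dL n u i b S))) ↔ (IsSquare (kap u i) → ∑ v ∈ S, tauL v = 0) := by
  have hne : algebraMap L M (dL n u i b S) ≠ 0 := by
    rw [Ne, map_eq_zero]
    unfold dL
    refine mul_ne_zero (mul_ne_zero ?_ ?_) (lf_prod_ne hn S)
    · rw [RingOfIntegers.coe_ne_zero_iff]
      unfold kap
      refine mul_ne_zero u.ne_zero ?_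
      split_ifs
      · exact two_ne_zero
      · exact one_ne_zero
    · split_ifs
      · norm_num
      · exact one_ne_zero
  by_cases hκ : IsSquare (kap u i)
  · -- `κ` is a square
    obtain ⟨w, hw⟩ := hκ
    have hw0 : (w : L) ≠ 0 := by
      rw [RingOfIntegers.coe_ne_zero_iff]
      rintro rfl
      apply hne
      unfold dL
      rw [hw, mul_zero]
      rw [show (((0 : 𝓞 L)) : L) = 0 from map_zero (algebraMap (𝓞 L) L), zero_mul, zero_mul, map_zero]
    have hr : D.r ≠ 0 := by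
      intro h
      have h1 := D.hr
      rw [h] at h1
      norm_num at h1
    set y : M := algebraMap L M (w : L) * (if b then D.r else 1) with hy
    have hy0 : y ≠ 0 := mul_ne_zero ((map_ne_zero _).2 hw0) (by split_ifs; exacts [hr, one_ne_zero])
    have key : ∀ t, TRZ.Nsq D t (algebraMap L M (dL n u i b S)) ↔ ∑ v ∈ S, tauL v = 0 := by
      intro t
      set x : 𝓞 M := algebraMap (𝓞 L) (𝓞 M) (∏ v ∈ S, n v.1) * rs7 D t with hx
      have hd : algebraMap L M (dL n u i b S) * (rs7 D t : M) = y ^ 2 * (x : M) := by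
        have e3 : (∏ v ∈ S, ((n v.1 : 𝓞 L) : L)) = (((∏ v ∈ S, n v.1 : 𝓞 L)) : L) := (map_prod (algebraMap (𝓞 L) L) _ _).symm
        have e4 : algebraMap L M (if b then -7 else 1) = (if b then D.r else 1) ^ 2 := by
          cases b
          · simp
          · simp only [if_true]
            rw [D.hr, map_neg, map_ofNat]
        have e5 : (((w * w : 𝓞 L)) : L) = (w : L) * (w : L) := map_mul (algebraMap (𝓞 L) L) _ _
        unfold dL
        rw [hw, e3, e5, map_mul, map_mul, map_mul, e4, hx, x7_cm, x7_alg, hy]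
        ring
      have hEx : Et D t x := Et.mul' (x7_et hn D t S) (se4_et_rs7 D t)
      have ht8 : t8 (rd8 D t x) = -∏ v ∈ S, TT.qr v.1 2 := by
        rw [hx, sg_t8_mul hD, x1_t8_per (rd8_alg hD t _), x1_t8_per (c1_rs7 hD t), sg_t8_five hD, x7_t8 hn]
        ring
      have hval : ∏ v ∈ S, TT.qr v.1 2 = 1 ∨ ∏ v ∈ S, TT.qr v.1 2 = -1 := by
        have h1 := k1_val (∏ v ∈ S, n v.1)
        rw [x7_t8 hn] at h1
        rcases h1 with h1 | h1
        · exfalso
          obtain ⟨v, -, h2⟩ := Finset.prod_eq_zero_iff.1 h1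
          exact v.2.1 ((TT.qr_eq_zero v.1).1 h2)
        · exact h1
      rw [← lf_tau]
      have hloc : ∀ P : HeightOneSpectrum (𝓞 M), p2 D t ∈ P.asIdeal →
          (IsSquare (algebraMap M (P.adicCompletion M) (algebraMap L M (dL n u i b S) * (rs7 D t : M))) ↔
            ∏ v ∈ S, TT.qr v.1 2 = -1) := by
        intro P hP
        have hy' : algebraMap M (P.adicCompletion M) y ≠ 0 := (map_ne_zero _).2 hy0
        have h1 : IsSquare (algebraMap M (P.adicCompletion M) (algebraMap L M (dL n u i b S) * (rs7 D t : M))) ↔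
            IsSquare (algebraMap M (P.adicCompletion M) (x : M)) := by
          rw [hd, map_mul, map_pow]
          constructor
          · rintro ⟨a, ha⟩
            refine ⟨a / algebraMap M (P.adicCompletion M) y, ?_⟩
            rw [div_mul_div_comm, ← ha, sq, mul_div_cancel_left₀ _ (mul_ne_zero hy' hy')]
          · rintro ⟨a, ha⟩
            exact ⟨algebraMap M (P.adicCompletion M) y * a, by rw [ha]; ring⟩
        rw [h1, sg_t8 hD hP hEx, ht8]
        constructor
        · intro h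
          linarith
        · intro h
          rw [h]
          norm_num
      constructor
      · intro h
        have hV : p2 D t ∈ (Vp hD (!t)).asIdeal := Ideal.mem_span_singleton_self _
        have h1 := h (Vp hD (!t)) hV
        rw [hloc _ hV] at h1
        exact hval.resolve_right h1
      · intro h P hP
        rw [hloc P hP, h]
        norm_num
    constructor
    · intro h _
      exact (key true).1 (h true)
    · intro h t
      exact (key t).2 (h ⟨w, hw⟩)
  · -- `κ` is no square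
    refine iff_of_true ?_ (fun h => absurd h hκ)
    intro t P hP
    obtain ⟨T, hT⟩ := exists_T7 D S
    have hz : ∀ P : HeightOneSpectrum (𝓞 M), ∃ q, (2 : 𝓞 M) ∉ P.asIdeal → NG D t P q := by
      intro P
      by_cases h : (2 : 𝓞 M) ∈ P.asIdeal
      · exact ⟨1, fun h1 => absurd h h1⟩
      · obtain ⟨q, hq⟩ := exists_NG hD t h
        exact ⟨q, fun _ => hq⟩
    choose z hz using hz
    have H := dL_DK hD hz hn u i b hT
    have hR : TRZ.Rm (u : 𝓞 L) i := by
      by_contra hR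
      unfold TRZ.Rm at hR
      push Not at hR
      obtain ⟨hi, a, c, -, h1⟩ := hR
      obtain ⟨w, hw⟩ := unit_sq D h1
      apply hκ
      refine ⟨(w : 𝓞 L), ?_⟩
      unfold kap
      rw [if_neg hi, mul_one, hw, Units.val_pow_eq_pow_val, sq]
    intro hsq
    have hU := se4_ur P (c1_mem_two hP) (mul_ne_zero hne (c2_rs7_ne t)) hsq
    exact ((H.ur_p2 hP hD).1 ((sg_ur_dr hD hP).1 hU)) hR

end

end TRR
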