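import Pool.Agent.TRR.X6b
import Pool.Agent.TRR.X7d
import Pool.Agent.TRR.FL3
import Pool.Agent.TRZ.FD8
import Pool.Agent.TRP.RL1

/-! # [REAL2-X7f] the criterion over `L` -/

set_option autoImplicit false
set_option linter.unusedSectionVars false

open NumberField Ideal IsDedekindDomain Filter Topology
open scoped Real Classical ComplexConjugate
open TR TRG TTS TU TT XTB TRPR TRP

namespace TRR

section
variable {L M : Type} [Field L] [NumberField L] [Field M] [NumberField M] [Algebra L M]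
  [IsTotallyReal L] {D : Dat L M} (hD : Od2 D)

theorem sm_kap (s : Bool) (T : Finset (HeightOneSpectrum (𝓞 M))) (z : HeightOneSpectrum (𝓞 M) → 𝓞 M) (u : (𝓞 L)ˣ) (i : Bool) :
    TRZ.sm D s T z u i i =
      Pool.Agent.TRG.lap (TRG.aM z) (fun P => if TT.qr P (algebraMap (𝓞 L) (𝓞 M) (kap u i)) = -1 then 1 else 0) T +
      Matrix.vecMulVec (fun P : T => TRZ.nu D s P) (fun P : T => TRZ.nv D s z P) := by
  have e : algebraMap (𝓞 L) (𝓞 M) (u : 𝓞 L) * (if i then -(p1 D s) else 1) * (if i then -(p2 D s) else 1) =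
      algebraMap (𝓞 L) (𝓞 M) (kap u i) := by
    unfold kap
    cases i
    · simp
    · simp only [if_true, map_mul, map_ofNat]
      linear_combination (algebraMap (𝓞 L) (𝓞 M) (u : 𝓞 L)) * x_mul D s
  unfold TRZ.sm
  rw [e]

include hD in
/-- the set of the primes above `S` and `7` -/
theorem exists_T (S : Finset (OQ L)) : ∃ T : Finset (HeightOneSpectrum (𝓞 M)),
    ∀ P, P ∈ T ↔ (7 : 𝓞 M) ∈ P.asIdeal ∨ ∃ v ∈ S, a7a_pi (L := L) P = v.1 := by
  have hx0 : algebraMap (𝓞 L) (𝓞 M) (7 * ∏ v ∈ S, (absNorm v.1.asIdeal : 𝓞 L)) ≠ 0 := by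
    rw [Ne, FaithfulSMul.algebraMap_eq_zero_iff]
    refine mul_ne_zero (by norm_num) (Finset.prod_ne_zero_iff.2 fun v _ => ?_)
    rw [Ne, Nat.cast_eq_zero, Ideal.absNorm_eq_zero_iff]
    exact v.1.ne_bot
  have hfin := Ideal.finite_factors (I := span {algebraMap (𝓞 L) (𝓞 M) (7 * ∏ v ∈ S, (absNorm v.1.asIdeal : 𝓞 L))})
    (by rwa [Ne, Ideal.zero_eq_bot, Ideal.span_singleton_eq_bot])
  refine ⟨hfin.toFinset.filter fun P => (7 : 𝓞 M) ∈ P.asIdeal ∨ ∃ v ∈ S, a7a_pi (L := L) P = v.1, fun P => ?_⟩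
  rw [Finset.mem_filter, Set.Finite.mem_toFinset]
  refine ⟨fun h => h.2, fun h => ⟨?_, h⟩⟩
  show P.asIdeal ∣ _
  rw [Ideal.dvd_span_singleton]
  rcases h with h | ⟨v, hv, hP⟩
  · rw [map_mul, map_ofNat]
    exact P.asIdeal.mul_mem_right _ h
  · have h1 := a7a_pi_eq.1 hP
    have h2 : (7 * ∏ v ∈ S, (absNorm v.1.asIdeal : 𝓞 L)) ∈ v.1.asIdeal := by
      apply v.1.asIdeal.mul_mem_left
      rw [← Finset.mul_prod_erase S _ hv]
      exact v.1.asIdeal.mul_mem_right _ (Ideal.absNorm_mem _)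
    rw [← h1] at h2
    exact h2

include hD in
/-- [X7f] **the criterion over `L`** (from `rl_finiteSha`, `TRZ.finiteSha_iff`, `TRZ.sel_lap`, `TRZ.sm_other`, `dL_DK`, `link_X`) -/
theorem sha_X {s : Bool} {z : HeightOneSpectrum (𝓞 M) → 𝓞 M} (hz : ∀ P, (2 : 𝓞 M) ∉ P.asIdeal → NG D s P (z P))
    {n : HeightOneSpectrum (𝓞 L) → 𝓞 L} (hn : ∀ v : OQ L, NL v.1 (n v.1)) {Pv : OQ L → HeightOneSpectrum (𝓞 M)} (hP : Above Pv)
    {rt eta : OQ L → ZMod 2} {m : OQ L → OQ L → ZMod 2} (hrt : ∀ v, kL v = 0 → rt v = rtL D s Pv v)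
    (hm : ∀ u v, kL u = 0 → kL v = 0 → m u v = mL D z Pv u v) (heta : ∀ v, kL v = 0 → eta v = TRZ.nu D (!s) (Pv v))
    (u : (𝓞 L)ˣ) (i b : Bool) (S : Finset (OQ L)) (h : IsSquare (kap u i) → ∑ v ∈ S, tauL v = 0)
    (C : WeierstrassCurve.VariableChange L) :
    TRB.FiniteSha (C • TTS.Ws (dL n u i b S)) ↔
      HRk kL xL tauL rt (wL n) m (chiL (kap u i)) eta (e0L u) (∑ v ∈ S, tauL v) S := by
  obtain ⟨T, hT⟩ := exists_T (M := M) hD S
  have hd0 := dL_ne hD hn u i b S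
  have hd : algebraMap L M (dL n u i b S) ≠ 0 := (map_ne_zero _).2 hd0
  have hN := (dL_nsq hD hn u i b S).2 h
  have H := dL_DK hD hz hn u i b hT
  obtain ⟨T', z', ε', i', j', H', -⟩ := TRZ.exists_DK hD hd (!s)
  obtain ⟨hT', hi, hj, -⟩ := TRZ.DK.other hD H H'
  subst hT'
  subst hi
  subst hj
  have h1 := TRZ.sel_lap hD H (hN s) (hN (!s))
  have h2 := TRZ.sel_lap hD H' (hN (!s)) (hN (!(!s)))
  have h3 := TRZ.sm_other hD hd H H'
  rw [← link_X hD hz hn hP hrt hm heta u _ hT, ← sm_kap, rl_finiteSha (TRB.ofTR D) hd0 C 1, TRZ.finiteSha_iff hD hd hN 1]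
  constructor
  · intro h
    exact h1.1 (h s)
  · intro h t
    by_cases ht : t = s
    · subst ht
      exact h1.2 h
    · have ht' : t = !s := by
        cases s <;> cases t <;> simp at ht ⊢
      subst ht'
      rw [h2]
      change (TRZ.sm D (!s) _ z' ε' _ _).det ≠ 0
      rw [h3, Matrix.det_transpose]
      exact h

end

end TRR
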