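import Pool.Agent.TRR.FL5
import Pool.Agent.TRR.X8
import Pool.Agent.TRR.X5a
import Pool.Agent.TRR.X5b
import Pool.Agent.TRR.X7f
import Pool.Agent.TRP.RA7

/-! # [REAL2-X7g] the exact limit over `L` for all allowed curves, and their proportion -/

set_option autoImplicit false
set_option linter.unusedSectionVars false

open NumberField Ideal IsDedekindDomain Filter Topology
open scoped Real Classical ComplexConjugate
open TR TRG TTS TU TT XTB TRPR TRP TRZ

namespace TRR

section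
variable {L : Type} [Field L] [NumberField L]

/-- the systems have the same sets of primes -/
theorem fl6_pb {P : Type} {B B' : TRQ.Base P} (h : B.N = B'.N) (y : ℝ) : B.pb y = B'.pb y := by
  ext v
  rw [B.mem_pb, B'.mem_pb, h]

theorem fl6_sdiff {α : Type} (i1 i2 : DecidableEq α) (s t : Finset α) :
    @sdiff _ (@Finset.instSDiff α i1) s t = @sdiff _ (@Finset.instSDiff α i2) s t := by
  rw [Subsingleton.elim i1 i2]

theorem fl6_nS {P : Type} {B B' : TRQ.Base P} (h : B.N = B'.N) (A : Finset P) : B.nS A = B'.nS A := by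
  unfold TRQ.Base.nS
  rw [h]

end

section
variable {L M : Type} [Field L] [NumberField L] [Field M] [NumberField M] [Algebra L M]
  [IsTotallyReal L] {D : Dat L M} (hD : Od2 D)
include hD

/-- a sum over the classes -/
theorem fl6_sum (a b : ℝ) : ∑ f : FI L, (if IsSquare (kap (Quotient.out f.1) f.2.1) then a else b) =
    2 * a + (4 * 2 ^ Module.finrank ℚ L - 2) * b := by
  have h2 := fl5_card_sq (L := L) hD
  have h3 := Finset.card_filter_add_card_filter_not (s := (Finset.univ : Finset (FI L)))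
    (fun f => IsSquare (kap (Quotient.out f.1) f.2.1))
  rw [h2, Finset.card_univ, fl5_card_FI] at h3
  have h4 : ((((Finset.univ : Finset (FI L)).filter fun f => ¬ IsSquare (kap (Quotient.out f.1) f.2.1)).card : ℕ) : ℝ) =
      4 * 2 ^ Module.finrank ℚ L - 2 := by
    have h5 : (((2 + ((Finset.univ : Finset (FI L)).filter fun f => ¬ IsSquare (kap (Quotient.out f.1) f.2.1)).card : ℕ)) : ℝ) =
        ((4 * 2 ^ Module.finrank ℚ L : ℕ) : ℝ) := by rw [h3]
    push_cast at h5
    linarith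
  rw [Finset.sum_ite, Finset.sum_const, Finset.sum_const, h2, nsmul_eq_mul, nsmul_eq_mul, h4]
  norm_num

/-- the classes with `κ` a square -/
theorem fl6_sq {s : Bool} {z : HeightOneSpectrum (𝓞 M) → 𝓞 M} (hz : ∀ P, (2 : 𝓞 M) ∉ P.asIdeal → NG D s P (z P))
    {n : HeightOneSpectrum (𝓞 L) → 𝓞 L} (hn : ∀ v : OQ L, NL v.1 (n v.1)) {Pv : OQ L → HeightOneSpectrum (𝓞 M)} (hP : Above Pv)
    (B : RSys (OQ L)) (hk : B.k = kL) (hx : B.x = xL)
    (hrt : ∀ v, kL v = 0 → B.rt v = rtL D s Pv v) (hw : B.w = wL n)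
    (hm : ∀ u v, kL u = 0 → kL v = 0 → B.m u v = mL D z Pv u v) {u : (𝓞 L)ˣ} {i b : Bool} {S : Finset (OQ L)}
    (hκ : IsSquare (kap u i)) (hS : ∑ v ∈ S, tauL v = 0) (C : WeierstrassCurve.VariableChange L) :
    TRB.FiniteSha (C • Ws (dL n u i b S)) ↔ HR B S := by
  have hgen := (dL_ok hD hn u i b S C).2 fun _ => hS
  have hbad : ∀ v : HeightOneSpectrum (𝓞 L), ¬ XTS.GoodReduction (C • Ws (dL n u i b S)) v ↔
      (7 : 𝓞 L) ∈ v.asIdeal ∨ ∃ u ∈ S, v = u.1 := by
    intro v
    rw [ra_good_iff, dL_bad hD hn]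
    constructor
    · rintro (h | h | h)
      · exact Or.inl h
      · exact absurd hκ h.2
      · exact Or.inr h
    · rintro (h | h)
      · exact Or.inl h
      · exact Or.inr (Or.inr h)
  have hE : TwoCurve (C • Ws (dL n u i b S)) := by
    refine ⟨hgen.j_eq, fun P hP2 => hgen.two P hP2 ?_⟩
    by_contra hg
    rcases (hbad P).1 hg with h | ⟨w, -, rfl⟩
    · exact lf_seven_two hP2 h
    · exact w.2.1 hP2
  obtain ⟨SM, hSM, hiff⟩ := ra_iff hD hz hE hbad
  rw [hiff]
  exact (link_R hD hz hn hP B hk hx hrt hw hm hSM).symm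

/-- **[X7g]** -/
theorem realX_limit :
    Tendsto (fun X : ℕ => (cmFamily L X GenCurve).ncard) atTop atTop ∧
    Tendsto (fun X : ℕ => ((cmFamily L X fun E => GenCurve E ∧ TRB.FiniteSha E).ncard : ℝ) /
      ((cmFamily L X GenCurve).ncard : ℝ)) atTop (𝓝 (1 / 4 * ∏' k : ℕ, (1 - 1 / 2 ^ (2 * k + 1)))) ∧
    Tendsto (fun X : ℕ => ((cmFamily L X GenCurve).ncard : ℝ) / ((cmFamily L X fun _ => True).ncard : ℝ)) atTop
      (𝓝 (1 - 1 / (6 - 2 / 2 ^ Module.finrank ℚ L))) := by
  have hnat : Tendsto (fun X : ℕ => (X : ℝ)) atTop atTop := tendsto_natCast_atTop_atTop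
  obtain ⟨z, hz⟩ : ∃ z : HeightOneSpectrum (𝓞 M) → 𝓞 M, ∀ P, (2 : 𝓞 M) ∉ P.asIdeal → NG D false P (z P) := by
    have h : ∀ P : HeightOneSpectrum (𝓞 M), (2 : 𝓞 M) ∉ P.asIdeal → ∃ q, NG D false P q :=
      fun P hP => exists_NG hD false hP
    choose! z hz using h
    exact ⟨z, hz⟩
  obtain ⟨n, hn⟩ : ∃ n : HeightOneSpectrum (𝓞 L) → 𝓞 L, ∀ v : OQ L, NL v.1 (n v.1) := by
    have h : ∀ v : HeightOneSpectrum (𝓞 L), (2 : 𝓞 L) ∉ v.asIdeal → ∃ q, NL v q :=
      fun v hv => exists_NL hD hv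
    choose! n hn using h
    exact ⟨n, fun v => hn v.1 v.2.1⟩
  obtain ⟨Pv, hPv⟩ := exists_Pv D
  obtain ⟨B, hN, hk, hx, hτ, hrt, hw, hm⟩ := exists_lsys hD hz hn hPv
  have hdiag : ∀ v, B.k v = 0 → B.m v v = B.rt v := by
    intro v hv
    rw [hk] at hv
    rw [hm v v hv hv, hrt v hv]
    exact mL_diag hD hz hPv hv
  have hNb : B.toBase.N = (BOQ L).N := hN
  obtain ⟨eta, heta⟩ : ∃ eta : OQ L → ZMod 2, ∀ v, kL v = 0 → eta v = TRZ.nu D (!false) (Pv v) :=
    ⟨fun v => TRZ.nu D (!false) (Pv v), fun _ _ => rfl⟩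
  -- the properties
  obtain ⟨sq, hsq⟩ : ∃ sq : FI L → Prop, ∀ f, sq f ↔ IsSquare (kap (Quotient.out f.1) f.2.1) := ⟨fun f => _, fun _ => Iff.rfl⟩
  obtain ⟨H, hH⟩ : ∃ H : FI L → ZMod 2 → Finset (OQ L) → Prop, ∀ f c S, H f c S ↔
      HRk B.k B.x B.τ B.rt B.w B.m (chiL (kap (Quotient.out f.1) f.2.1)) eta (e0L (Quotient.out f.1)) c S :=
    ⟨fun f c S => _, fun _ _ _ => Iff.rfl⟩
  have hF1 : ∀ (f : FI L) (S : Finset (OQ L)) (C : WeierstrassCurve.VariableChange L),
      GenCurve (C • Ws (dL n (Quotient.out f.1) f.2.1 f.2.2 S)) ↔ (sq f → ∑ v ∈ S, B.τ v = 0) := by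
    intro f S C
    rw [dL_ok hD hn, hsq, hτ]
  have hF2 : ∀ (f : FI L) (S : Finset (OQ L)) (C : WeierstrassCurve.VariableChange L),
      (GenCurve (C • Ws (dL n (Quotient.out f.1) f.2.1 f.2.2 S)) ∧
        TRB.FiniteSha (C • Ws (dL n (Quotient.out f.1) f.2.1 f.2.2 S))) ↔
      (if sq f then ∑ v ∈ S, B.τ v = 0 ∧ HR B.toRSys S else H f (∑ v ∈ S, B.τ v) S) := by
    intro f S C
    rw [hF1 f S C]
    by_cases h : sq f
    · rw [if_pos h]
      have h0 := (hsq f).1 h
      constructor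
      · rintro ⟨h1, h2⟩
        have h3 := h1 h
        refine ⟨h3, ?_⟩
        rw [hτ] at h3
        exact (fl6_sq hD hz hn hPv B.toRSys hk hx hrt hw hm h0 h3 C).1 h2
      · rintro ⟨h1, h2⟩
        refine ⟨fun _ => h1, ?_⟩
        rw [hτ] at h1
        exact (fl6_sq hD hz hn hPv B.toRSys hk hx hrt hw hm h0 h1 C).2 h2
    · rw [if_neg h, hH]
      have h1 := sha_X hD hz hn hPv hrt hm heta (Quotient.out f.1) f.2.1 f.2.2 S
        (fun h2 => absurd ((hsq f).2 h2) h) C
      rw [h1, hk, hx, hτ, hw]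
      exact ⟨fun h2 => h2.2, fun h2 => ⟨fun h3 => absurd h3 h, h2⟩⟩
  -- the weights
  obtain ⟨w, hw'⟩ : ∃ w : FI L → ℝ, ∀ f, w f = (wt (Quotient.out f.1) f.2.1 : ℕ) := ⟨fun f => _, fun _ => rfl⟩
  have hw0 : ∀ f, 0 < w f := fun f => by
    rw [hw']
    exact_mod_cast wt_pos _ _
  -- the limits of the classes
  have hlim : ∀ f, ¬ sq f → Tendsto (fun X : ℝ => (((B.sb X).filter fun S => H f (∑ v ∈ S, B.τ v) S).card : ℝ) / X) atTop
      (𝓝 (Pinf / 4 * B.kap)) := by
    intro f hf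
    have hκ : ¬ IsSquare (kap (Quotient.out f.1) f.2.1) := fun h => hf ((hsq f).2 h)
    refine fl5_both B (H f) fun c => ?_
    obtain ⟨C, hC, hCS⟩ := chrS_K hD hn (Quotient.out f.1) f.2.1 hκ
    obtain ⟨C', hC', hCE⟩ := chrE_K hD hn
    refine (lim_X B hdiag (chiL (kap (Quotient.out f.1) f.2.1)) eta (e0L (Quotient.out f.1)) c
      (fun _ => ⟨C, hC, fun A _ y hy => ?_⟩) ⟨C', hC', fun A e _ y hy => ?_⟩).congr fun X => ?_
    · have h := hCS A y hy
      rw [fl6_pb hNb, fl6_nS hNb, hk, hw, hN]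
      rw [fl6_sdiff _ fun a b => Classical.propDecidable (a = b)] at h
      exact h
    · have h := hCE A e y hy
      rw [fl6_pb hNb, fl6_nS hNb, hk, hw, hN, hτ, hx]
      rw [fl6_sdiff _ fun a b => Classical.propDecidable (a = b)] at h
      exact h
    · congr 3
      ext S
      simp only [Finset.mem_filter, hH]
  have h2 : ∀ f : FI L, Tendsto (fun X : ℝ => (((B.sb (X / w f)).filter fun S =>
      if sq f then ∑ v ∈ S, B.τ v = 0 ∧ HR B.toRSys S else H f (∑ v ∈ S, B.τ v) S).card : ℝ) / X) atTop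
      (𝓝 (Pinf / 4 * ((if sq f then B.kap / 2 else B.kap) / w f))) := by
    intro f
    by_cases h : sq f
    · rw [if_pos h, ← mul_div_assoc]
      refine fl5_scale (F := fun X => (((B.sb X).filter fun S =>
        if sq f then ∑ v ∈ S, B.τ v = 0 ∧ HR B.toRSys S else H f (∑ v ∈ S, B.τ v) S).card : ℝ)) ?_ (hw0 f)
      refine (fl5_H B 0 (HR B.toRSys) (B.real_lim hdiag)).congr fun X => ?_
      congr 3
      ext S
      simp only [Finset.mem_filter, if_pos h]
    · rw [if_neg h, ← mul_div_assoc]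
      refine fl5_scale (F := fun X => (((B.sb X).filter fun S =>
        if sq f then ∑ v ∈ S, B.τ v = 0 ∧ HR B.toRSys S else H f (∑ v ∈ S, B.τ v) S).card : ℝ)) ?_ (hw0 f)
      refine (hlim f h).congr fun X => ?_
      congr 3
      ext S
      simp only [Finset.mem_filter, if_neg h]
  have h1 : ∀ f : FI L, Tendsto (fun X : ℝ => (((B.sb (X / w f)).filter fun S => sq f → ∑ v ∈ S, B.τ v = 0).card : ℝ) / X) atTop
      (𝓝 ((if sq f then B.kap / 2 else B.kap) / w f)) := by
    intro f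
    refine fl5_scale (F := fun X => (((B.sb X).filter fun S => sq f → ∑ v ∈ S, B.τ v = 0).card : ℝ)) ?_ (hw0 f)
    by_cases h : sq f
    · rw [if_pos h]
      refine (fl5_tau B 0).congr fun X => ?_
      congr 3
      ext S
      simp only [Finset.mem_filter, h, true_imp_iff]
    · rw [if_neg h]
      refine B.card_sb.congr fun X => ?_
      congr 3
      ext S
      simp only [Finset.mem_filter, h, false_imp_iff, and_true]
  have h0 : ∀ f : FI L, Tendsto (fun X : ℝ => (((B.sb (X / w f)).filter fun _ => True).card : ℝ) / X) atTop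
      (𝓝 (B.kap / w f)) := by
    intro f
    refine fl5_scale (F := fun X => (((B.sb X).filter fun _ => True).card : ℝ)) ?_ (hw0 f)
    refine B.card_sb.congr fun X => ?_
    congr 3
    ext S
    simp only [Finset.mem_filter, and_true]
  -- the sums
  obtain ⟨A, hA⟩ : ∃ A : ℝ, A = ∑ f : FI L, (if sq f then B.kap / 2 else B.kap) / w f := ⟨_, rfl⟩
  obtain ⟨T, hT⟩ : ∃ T : ℝ, T = ∑ f : FI L, B.kap / w f := ⟨_, rfl⟩
  have H2 : Tendsto (fun X : ℕ => ((cmFamily L X fun E => GenCurve E ∧ TRB.FiniteSha E).ncard : ℝ) / X) atTop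
      (𝓝 (Pinf / 4 * A)) := by
    have h := (tendsto_finsetSum (Finset.univ : Finset (FI L)) fun f _ => h2 f).comp hnat
    rw [← Finset.mul_sum, ← hA] at h
    refine h.congr fun X => ?_
    have hc := (fam_cardL hD hn (B := B.toBase) hN X (fun E => GenCurve E ∧ TRB.FiniteSha E) _ hF2).2
    rw [hc, Nat.cast_sum, Finset.sum_div, Function.comp_apply]
    refine Finset.sum_congr rfl fun f _ => ?_
    rw [hw']
    congr 3
    ext S
    simp only [Finset.mem_filter]
  have H1 : Tendsto (fun X : ℕ => ((cmFamily L X GenCurve).ncard : ℝ) / X) atTop (𝓝 A) := by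
    have h := (tendsto_finsetSum (Finset.univ : Finset (FI L)) fun f _ => h1 f).comp hnat
    rw [← hA] at h
    refine h.congr fun X => ?_
    have hc := (fam_cardL hD hn (B := B.toBase) hN X GenCurve _ hF1).2
    rw [hc, Nat.cast_sum, Finset.sum_div, Function.comp_apply]
    refine Finset.sum_congr rfl fun f _ => ?_
    rw [hw']
    congr 3
    ext S
    simp only [Finset.mem_filter]
  have H0 : Tendsto (fun X : ℕ => ((cmFamily L X fun _ => True).ncard : ℝ) / X) atTop (𝓝 T) := by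
    have h := (tendsto_finsetSum (Finset.univ : Finset (FI L)) fun f _ => h0 f).comp hnat
    rw [← hT] at h
    refine h.congr fun X => ?_
    have hc := (fam_cardL hD hn (B := B.toBase) hN X (fun _ => True) (fun _ _ => True) fun _ _ _ => Iff.rfl).2
    rw [hc, Nat.cast_sum, Finset.sum_div, Function.comp_apply]
    refine Finset.sum_congr rfl fun f _ => ?_
    rw [hw']
    congr 3
    ext S
    simp only [Finset.mem_filter]
  -- the constants
  have h7 : (0 : ℝ) < 7 ^ Module.finrank ℚ L := by positivity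
  have hG1 : (1 : ℝ) ≤ 2 ^ Module.finrank ℚ L := one_le_pow₀ (by norm_num)
  have hkp := B.hkap
  have hwf : ∀ f, w f = 7 ^ Module.finrank ℚ L * if sq f then 1 else 2 ^ Module.finrank ℚ L := by
    intro f
    rw [hw']
    unfold wt
    by_cases h : sq f
    · rw [if_pos h, if_pos ((hsq f).1 h)]
      push_cast
      rfl
    · rw [if_neg h, if_neg fun h3 => h ((hsq f).2 h3)]
      push_cast
      rfl
  have hsum : ∀ a b : ℝ, ∑ f : FI L, (if sq f then a else b) = 2 * a + (4 * 2 ^ Module.finrank ℚ L - 2) * b := by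
    intro a b
    rw [← fl6_sum hD a b]
    refine Finset.sum_congr rfl fun f _ => ?_
    by_cases h : sq f
    · rw [if_pos h, if_pos ((hsq f).1 h)]
    · rw [if_neg h, if_neg fun h3 => h ((hsq f).2 h3)]
  have hAv : A = B.kap / 7 ^ Module.finrank ℚ L * (5 - 2 / 2 ^ Module.finrank ℚ L) := by
    have e : ∀ f : FI L, (if sq f then B.kap / 2 else B.kap) / w f =
        if sq f then B.kap / 7 ^ Module.finrank ℚ L / 2 else B.kap / 7 ^ Module.finrank ℚ L / 2 ^ Module.finrank ℚ L := by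
      intro f
      rw [hwf]
      by_cases h : sq f
      · rw [if_pos h, if_pos h, if_pos h, mul_one]
        ring
      · rw [if_neg h, if_neg h, if_neg h, div_div]
    rw [hA, Finset.sum_congr rfl fun f _ => e f, hsum]
    field_simp
    ring
  have hTv : T = B.kap / 7 ^ Module.finrank ℚ L * (6 - 2 / 2 ^ Module.finrank ℚ L) := by
    have e : ∀ f : FI L, B.kap / w f =
        if sq f then B.kap / 7 ^ Module.finrank ℚ L else B.kap / 7 ^ Module.finrank ℚ L / 2 ^ Module.finrank ℚ L := by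
      intro f
      rw [hwf]
      by_cases h : sq f
      · rw [if_pos h, if_pos h, mul_one]
      · rw [if_neg h, if_neg h, div_div]
    rw [hT, Finset.sum_congr rfl fun f _ => e f, hsum]
    field_simp
    ring
  have h2G : 2 / 2 ^ Module.finrank ℚ L ≤ (2 : ℝ) := by
    rw [div_le_iff₀ (by linarith)]
    linarith
  have hA0 : 0 < A := by
    rw [hAv]
    exact mul_pos (by positivity) (by linarith)
  have hT0 : 0 < T := by
    rw [hTv]
    exact mul_pos (by positivity) (by linarith)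
  have hdiv : ∀ {a b : ℕ → ℝ} {p q : ℝ}, q ≠ 0 → Tendsto (fun X : ℕ => a X / X) atTop (𝓝 p) →
      Tendsto (fun X : ℕ => b X / X) atTop (𝓝 q) → Tendsto (fun X : ℕ => a X / b X) atTop (𝓝 (p / q)) := by
    intro a b p q hq ha hb
    refine (ha.div hb hq).congr' ?_
    filter_upwards [eventually_gt_atTop 0] with X hX
    have hX0 : (X : ℝ) ≠ 0 := by exact_mod_cast hX.ne'
    show a X / X / (b X / X) = a X / b X
    exact div_div_div_cancel_right₀ hX0 _ _
  refine ⟨?_, ?_, ?_⟩
  · have h3 : Tendsto (fun X : ℕ => (((cmFamily L X GenCurve).ncard : ℝ) / X) * X) atTop atTop := H1.pos_mul_atTop hA0 hnat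
    have h4 : Tendsto (fun X : ℕ => ((cmFamily L X GenCurve).ncard : ℝ)) atTop atTop := by
      refine h3.congr' ?_
      filter_upwards [eventually_gt_atTop 0] with X hX
      have hX0 : (X : ℝ) ≠ 0 := by exact_mod_cast hX.ne'
      exact div_mul_cancel₀ _ hX0
    exact tendsto_natCast_atTop_iff.1 h4
  · have e : (1 / 4 * ∏' k : ℕ, (1 - 1 / 2 ^ (2 * k + 1)) : ℝ) = Pinf / 4 * A / A := by
      rw [mul_div_cancel_right₀ _ hA0.ne']
      unfold Pinf
      ring
    rw [e]
    exact hdiv hA0.ne' H2 H1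
  · have e : (1 - 1 / (6 - 2 / 2 ^ Module.finrank ℚ L) : ℝ) = A / T := by
      have h5 : (6 - 2 / 2 ^ Module.finrank ℚ L : ℝ) ≠ 0 := by linarith
      have h6 : B.kap / 7 ^ Module.finrank ℚ L ≠ 0 := by positivity
      rw [hAv, hTv, mul_div_mul_left _ _ h6, eq_div_iff h5, sub_mul, one_div, inv_mul_cancel₀ h5]
      ring
    rw [e]
    exact hdiv hT0.ne' H1 H0

end

end TRR
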