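import Pool.Agent.TRR.FL3
import Pool.Agent.TRP.LF1

/-! # [REAL2-X7a, X7g1] the isomorphism classes over `L` correspond to the data `(q, i, b, S)` -/

set_option autoImplicit false
set_option linter.unusedSectionVars false

open NumberField Ideal IsDedekindDomain Filter Topology
open scoped Real Classical ComplexConjugate
open TR TRG TTS TU TT XTB TRP TRZ

namespace TRR

section
variable {L M : Type} [Field L] [NumberField L] [Field M] [NumberField M] [Algebra L M]
  [IsTotallyReal L] {D : Dat L M} (hD : Od2 D)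

include hD

/-- the contribution of `2` and `7` to the product of the norms of the bad primes -/
noncomputable def wt (u : (𝓞 L)ˣ) (i : Bool) : ℕ :=
  7 ^ Module.finrank ℚ L * if IsSquare (kap u i) then 1 else 2 ^ Module.finrank ℚ L

omit [IsTotallyReal L] hD in
theorem wt_pos (u : (𝓞 L)ˣ) (i : Bool) : 0 < wt u i := by
  unfold wt
  split_ifs <;> positivity

variable {n : HeightOneSpectrum (𝓞 L) → 𝓞 L} (hn : ∀ v : OQ L, NL v.1 (n v.1))
include hn

/-- [X7a] every twist, up to squares -/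
theorem exists_dL {d : L} (hd : d ≠ 0) :
    ∃ (q : UQ L) (i b : Bool) (S : Finset (OQ L)) (y : L), y ≠ 0 ∧ d = dL n (Quotient.out q) i b S * y ^ 2 := by
  have hfin : {P : HeightOneSpectrum (𝓞 L) | ¬ IsSquare (P.valuation L d)}.Finite := by
    refine (TRH.h2_finite hd).subset ?_
    intro P hP h1
    apply hP
    have h1' : P.valuation L d = 1 := h1
    rw [h1']
    exact ⟨1, by rw [one_mul]⟩
  have hfin2 : {v : OQ L | ¬ IsSquare (v.1.valuation L d)}.Finite :=
    Set.Finite.preimage (Subtype.val_injective.injOn) hfin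
  obtain ⟨q, i, b, y, hy, h⟩ := exists_el hD hn hd (S := hfin2.toFinset) (fun v => by
    rw [Set.Finite.mem_toFinset]
    exact Iff.rfl)
  exact ⟨q, i, b, hfin2.toFinset, y, hy, h.trans (mul_comm _ _)⟩

theorem dL_inj {q q' : UQ L} {i i' b b' : Bool} {S S' : Finset (OQ L)} {y : L} (hy : y ≠ 0)
    (h : dL n (Quotient.out q) i b S = dL n (Quotient.out q') i' b' S' * y ^ 2) : q = q' ∧ i = i' ∧ b = b' ∧ S = S' :=
  el_inj hD hn hy (by rw [h]; ring)

/-- the product of the norms of the bad primes -/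
theorem badProd_dL {B : TRQ.Base (OQ L)} (hB : B.N = fun v => absNorm v.1.asIdeal) (u : (𝓞 L)ˣ) (i b : Bool)
    (S : Finset (OQ L)) (C : WeierstrassCurve.VariableChange L) :
    badProd (C • Ws (dL n u i b S)) = wt u i * B.nS S := by
  set emb : OQ L ↪ HeightOneSpectrum (𝓞 L) := ⟨Subtype.val, Subtype.val_injective⟩ with hemb
  have h7n : absNorm (V7 D).asIdeal = 7 ^ Module.finrank ℚ L := by
    rw [V7_span D]
    exact D.above_seven.2.2.1
  have h2n : absNorm (V2 hD).asIdeal = 2 ^ Module.finrank ℚ L := by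
    have h3 := absNorm_span_singleton (2 : 𝓞 L)
    have : (2 : 𝓞 L) = algebraMap ℤ (𝓞 L) 2 := by simp
    rw [this, Algebra.norm_algebraMap, RingOfIntegers.rank, Int.natAbs_pow, ← this] at h3
    exact h3
  have hbad : ∀ v : HeightOneSpectrum (𝓞 L), ¬ XTS.GoodReduction (C • Ws (dL n u i b S)) v ↔
      v = V7 D ∨ (v = V2 hD ∧ ¬ IsSquare (kap u i)) ∨ ∃ w ∈ S, v = w.1 := by
    intro v
    rw [ra_good_iff, dL_bad hD hn, V7_iff D, V2_iff hD]
  have hmap : ∀ P, P ∈ S.map emb ↔ ∃ u ∈ S, P = u.1 := by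
    intro P
    rw [Finset.mem_map]
    constructor
    · rintro ⟨u, hu, rfl⟩
      exact ⟨u, hu, rfl⟩
    · rintro ⟨u, hu, rfl⟩
      exact ⟨u, hu, rfl⟩
  have hn7 : V7 D ∉ S.map emb := by
    rw [hmap]
    rintro ⟨w, -, hw⟩
    exact ne_V7 hn D w hw.symm
  have hn2 : V2 hD ∉ S.map emb := by
    rw [hmap]
    rintro ⟨w, -, hw⟩
    exact ne_V2 hn hD w hw.symm
  have hnS : ∏ P ∈ S.map emb, absNorm P.asIdeal = B.nS S := by
    rw [Finset.prod_map]
    unfold TRQ.Base.nS
    rw [hB]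
    rfl
  unfold wt
  by_cases hk : IsSquare (kap u i)
  · rw [if_pos hk, mul_one, ra_badProd (S := insert (V7 D) (S.map emb)), Finset.prod_insert hn7, h7n, hnS]
    intro P
    rw [Finset.mem_insert, hmap, hbad]
    constructor
    · rintro (h | h)
      · exact Or.inl h
      · exact Or.inr (Or.inr h)
    · rintro (h | h | h)
      · exact Or.inl h
      · exact absurd hk h.2
      · exact Or.inr h
  · have hn7' : V7 D ∉ insert (V2 hD) (S.map emb) := by
      rw [Finset.mem_insert]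
      rintro (h | h)
      · exact V27_ne hD h.symm
      · exact hn7 h
    rw [if_neg hk, ra_badProd (S := insert (V7 D) (insert (V2 hD) (S.map emb))), Finset.prod_insert hn7',
      Finset.prod_insert hn2, h7n, h2n, hnS]
    · ring
    intro P
    rw [Finset.mem_insert, Finset.mem_insert, hmap, hbad]
    constructor
    · rintro (h | h | h)
      · exact Or.inl h
      · exact Or.inr (Or.inl ⟨h, hk⟩)
      · exact Or.inr (Or.inr h)
    · rintro (h | h | h)
      · exact Or.inl h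
      · exact Or.inr (Or.inl h.1)
      · exact Or.inr (Or.inr h)

/-- **the isomorphism classes** -/
theorem fam_cardL {B : TRQ.Base (OQ L)} (hB : B.N = fun v => absNorm v.1.asIdeal) (X : ℕ)
    (Q : WeierstrassCurve L → Prop) (F : FI L → Finset (OQ L) → Prop)
    (hF : ∀ (f : FI L) (S : Finset (OQ L)) (C : WeierstrassCurve.VariableChange L),
      Q (C • Ws (dL n (Quotient.out f.1) f.2.1 f.2.2 S)) ↔ F f S) :
    (cmFamily L X Q).Finite ∧ (cmFamily L X Q).ncard =
      ∑ f : FI L, ((B.sb ((X : ℝ) / wt (Quotient.out f.1) f.2.1)).filter fun S => F f S).card := by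
  set G : FI L → Finset (Finset (OQ L)) := fun f =>
    (B.sb ((X : ℝ) / wt (Quotient.out f.1) f.2.1)).filter fun S => F f S with hG
  have hmem : ∀ (f : FI L) (S : Finset (OQ L)), S ∈ G f ↔ wt (Quotient.out f.1) f.2.1 * B.nS S ≤ X ∧ F f S := by
    intro f S
    have hw : (0 : ℝ) < wt (Quotient.out f.1) f.2.1 := by exact_mod_cast wt_pos _ _
    rw [hG, Finset.mem_filter, B.mem_sb, le_div_iff₀ hw]
    refine and_congr_left fun _ => ?_
    rw [mul_comm]
    exact_mod_cast Iff.rfl
  obtain ⟨cl, hcl⟩ : ∃ cl : ((_ : FI L) × Finset (OQ L)) →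
      MulAction.orbitRel.Quotient (WeierstrassCurve.VariableChange L) (WeierstrassCurve L),
      ∀ p, cl p = Quotient.mk _ (Ws (dL n (Quotient.out p.1.1) p.1.2.1 p.1.2.2 p.2)) :=
    ⟨fun p => Quotient.mk _ _, fun _ => rfl⟩
  have hset : cmFamily L X Q = ↑(((Finset.univ : Finset (FI L)).sigma G).image cl) := by
    ext c
    rw [Finset.mem_coe, Finset.mem_image]
    constructor
    · rintro ⟨E, hc, ⟨hell, hj⟩, hX, hQ⟩
      obtain ⟨d, C, C', hd, hC, -⟩ := exists_Ws E hj
      obtain ⟨q, i, b, S, y, hy, hdy⟩ := exists_dL hD hn hd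
      obtain ⟨C₂, hC₂⟩ := (ws_iso_iff (d := dL n (Quotient.out q) i b S) hd).2 ⟨y, hy, hdy.trans (mul_comm _ _)⟩
      have hE : E = (C * C₂) • Ws (dL n (Quotient.out q) i b S) := by
        rw [hC, hC₂, mul_smul]
      refine ⟨⟨(q, i, b), S⟩, ?_, ?_⟩
      · rw [Finset.mem_sigma]
        refine ⟨Finset.mem_univ _, ?_⟩
        change S ∈ G (q, i, b)
        rw [hmem]
        refine ⟨?_, ?_⟩
        · rw [← badProd_dL hD hn hB (Quotient.out q) i b S (C * C₂), ← hE]
          exact hX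
        · rw [← hF (q, i, b) S (C * C₂), ← hE]
          exact hQ
      · rw [hcl, ← hc]
        apply Quotient.sound
        change Ws (dL n (Quotient.out q) i b S) ∈ MulAction.orbit _ E
        refine ⟨(C * C₂)⁻¹, ?_⟩
        change (C * C₂)⁻¹ • E = _
        rw [hE, inv_smul_smul]
    · rintro ⟨⟨f, S⟩, hp, rfl⟩
      rw [Finset.mem_sigma] at hp
      have hp2 : S ∈ G f := hp.2
      rw [hmem] at hp2
      have e : (1 : WeierstrassCurve.VariableChange L) • Ws (dL n (Quotient.out f.1) f.2.1 f.2.2 S) =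
        Ws (dL n (Quotient.out f.1) f.2.1 f.2.2 S) := one_smul _ _
      have k1 := nf3_j (dL_ne hD hn (Quotient.out f.1) f.2.1 f.2.2 S) (1 : WeierstrassCurve.VariableChange L)
      have k2 := badProd_dL hD hn hB (Quotient.out f.1) f.2.1 f.2.2 S (1 : WeierstrassCurve.VariableChange L)
      have k3 := (hF f S (1 : WeierstrassCurve.VariableChange L)).2 hp2.2
      rw [e] at k1 k2 k3
      have k4 := hcl ⟨f, S⟩
      exact ⟨Ws (dL n (Quotient.out f.1) f.2.1 f.2.2 S), k4.symm, k1, k2.trans_le hp2.1, k3⟩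
  have hinj : Set.InjOn cl ↑((Finset.univ : Finset (FI L)).sigma G) := by
    intro p _ p' _ h
    have h0 : (Quotient.mk _ (Ws (dL n (Quotient.out p.1.1) p.1.2.1 p.1.2.2 p.2)) :
        MulAction.orbitRel.Quotient (WeierstrassCurve.VariableChange L) (WeierstrassCurve L)) =
        Quotient.mk _ (Ws (dL n (Quotient.out p'.1.1) p'.1.2.1 p'.1.2.2 p'.2)) := by
      rw [← hcl, ← hcl, h]
    have h1 : Ws (dL n (Quotient.out p.1.1) p.1.2.1 p.1.2.2 p.2) ∈ MulAction.orbit (WeierstrassCurve.VariableChange L)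
        (Ws (dL n (Quotient.out p'.1.1) p'.1.2.1 p'.1.2.2 p'.2)) := Quotient.exact h0
    obtain ⟨C, hC⟩ := h1
    have hC' : C • Ws (dL n (Quotient.out p'.1.1) p'.1.2.1 p'.1.2.2 p'.2) =
      Ws (dL n (Quotient.out p.1.1) p.1.2.1 p.1.2.2 p.2) := hC
    obtain ⟨y, hy, hdy⟩ := (ws_iso_iff (d := dL n (Quotient.out p'.1.1) p'.1.2.1 p'.1.2.2 p'.2)
      (dL_ne hD hn (Quotient.out p.1.1) p.1.2.1 p.1.2.2 p.2)).1 ⟨C, hC'.symm⟩
    obtain ⟨h2, h3, h4, h5⟩ := dL_inj hD hn hy (hdy.trans (mul_comm _ _))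
    exact Sigma.ext (Prod.ext h2 (Prod.ext h3 h4)) (heq_of_eq h5)
  rw [hset]
  refine ⟨Finset.finite_toSet _, ?_⟩
  rw [Set.ncard_coe_finset, Finset.card_image_of_injOn hinj, Finset.card_sigma]

end

end TRR
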