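import Pool.Agent.TRR.Defs2
import Pool.Agent.TRZ.R6a
import Pool.Agent.TRP.LF0

/-! # [REAL2-X7e] the decomposition of the twists over `M` -/

set_option autoImplicit false
set_option linter.unusedSectionVars false

open NumberField Ideal IsDedekindDomain
open scoped Real Classical ComplexConjugate
open TR TRG TTS TU TT XTB TRPR TRP TRZ

namespace TRR

section
variable {L M : Type} [Field L] [NumberField L] [Field M] [NumberField M] [Algebra L M]
  [IsTotallyReal L] {D : Dat L M}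

theorem x7_cm (x y : 𝓞 M) : ((x * y : 𝓞 M) : M) = (x : M) * (y : M) := map_mul (algebraMap (𝓞 M) M) _ _

theorem x7_alg (x : 𝓞 L) : ((algebraMap (𝓞 L) (𝓞 M) x : 𝓞 M) : M) = algebraMap L M (x : L) := rfl

/-- the prime above `7` -/
theorem x7_seven (D : Dat L M) (s : Bool) (P : HeightOneSpectrum (𝓞 M)) :
    IsSquare (P.valuation M (rs7 D s : M)) ↔ (7 : 𝓞 M) ∉ P.asIdeal := by
  obtain ⟨R, hR⟩ := se4_R D
  have h1 : span {rs7 D s} = R.asIdeal ^ 1 := by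
    rw [pow_one, hR]
    cases s
    · rw [bl_rs7_false, Ideal.span_singleton_neg]
    · rw [bl_rs7_true]
  rw [ad1_val odd_one h1, n1_rr_iff D P]
  constructor
  · intro h2 h3
    exact h2 (se4_uniq hR h3)
  · rintro h2 rfl
    apply h2
    rw [hR]
    exact Ideal.mem_span_singleton_self _

theorem x7_et_prod {s : Bool} {z : HeightOneSpectrum (𝓞 M) → 𝓞 M} {T : Finset (HeightOneSpectrum (𝓞 M))}
    (hz : ∀ P ∈ T, NG D s P (z P)) : Et D s (∏ P ∈ T, z P) := by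
  induction T using Finset.induction_on with
  | empty =>
    rw [Finset.prod_empty]
    exact Et.one s
  | insert Q U hQ ih =>
    rw [Finset.prod_insert hQ]
    exact Et.mul' (hz Q (Finset.mem_insert_self _ _)).et (ih (fun R hR => hz R (Finset.mem_insert_of_mem hR)))

section
variable {n : HeightOneSpectrum (𝓞 L) → 𝓞 L} (hn : ∀ v : OQ L, NL v.1 (n v.1))
include hn

/-- the product of the generators, over `M` -/
theorem x7_prod (D : Dat L M) (S : Finset (OQ L)) (P : HeightOneSpectrum (𝓞 M)) :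
    IsSquare (P.valuation M ((algebraMap (𝓞 L) (𝓞 M) (∏ v ∈ S, n v.1) : 𝓞 M) : M)) ↔ ¬ ∃ v ∈ S, a7a_pi (L := L) P = v.1 := by
  have e : (((∏ v ∈ S, n v.1 : 𝓞 L)) : L) = lfd n S false := by
    unfold lfd
    rw [if_neg (by decide), one_mul]
    exact map_prod (algebraMap (𝓞 L) L) _ _
  by_cases h7 : (7 : 𝓞 L) ∈ (a7a_pi (L := L) P).asIdeal
  · refine iff_of_true ?_ ?_
    · have h1 : (algebraMap (𝓞 L) (𝓞 M) (∏ v ∈ S, n v.1) : 𝓞 M) ∉ P.asIdeal := by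
        intro h2
        have h3 : (∏ v ∈ S, n v.1 : 𝓞 L) ∈ (a7a_pi (L := L) P).asIdeal := h2
        obtain ⟨v, hv, h4⟩ := ((a7a_pi (L := L) P).isPrime.prod_mem_iff).1 h3
        refine lf_notMem hn v (a7a_pi (L := L) P) ?_ h4
        intro h5
        exact v.2.2 (h5 ▸ h7)
      rw [(P.valuation_eq_one_iff_notMem (K := M)).2 h1]
      exact ⟨1, (mul_one _).symm⟩
    · rintro ⟨v, hv, h1⟩
      exact v.2.2 (h1 ▸ h7)
  · rw [x7_alg, TRB.f4_val (TRB.ofTR D) h7 rfl, e]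
    constructor
    · rintro h ⟨v, hv, h1⟩
      rw [h1] at h
      exact lfd_od hn false hv h
    · intro h
      refine (lfd_ur hn false h7 fun w hw h1 => h ⟨w, hw, h1⟩).val

/-- the generators are normalised -/
theorem x7_et (D : Dat L M) (s : Bool) (S : Finset (OQ L)) : Et D s (algebraMap (𝓞 L) (𝓞 M) (∏ v ∈ S, n v.1)) := by
  induction S using Finset.induction_on with
  | empty =>
    rw [Finset.prod_empty, map_one]
    exact Et.one s
  | insert v U hv ih =>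
    rw [Finset.prod_insert hv, map_mul]
    refine Et.mul' ?_ ih
    obtain ⟨-, t, c, ht, h⟩ := hn v
    rw [Units.val_one, one_mul] at h
    refine ⟨algebraMap (𝓞 L) (𝓞 M) t, p1 D s ^ 2 * algebraMap (𝓞 L) (𝓞 M) c, ?_, ?_⟩
    · have h1 := ht.map (algebraMap (𝓞 L) (𝓞 M))
      rw [map_ofNat, ← p12 D s] at h1
      exact h1.of_mul_right_right
    · rw [h, map_add, map_mul, map_pow, map_ofNat]
      linear_combination -(algebraMap (𝓞 L) (𝓞 M) c) * (p1 D s * p2 D s + 2) * p12 D s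

variable (hD : Od2 D)
include hD

/-- the main identity -/
theorem x7_key {s : Bool} {z : HeightOneSpectrum (𝓞 M) → 𝓞 M} {S : Finset (OQ L)}
    {T : Finset (HeightOneSpectrum (𝓞 M))} (hz : ∀ P ∈ T, NG D s P (z P))
    (hT : ∀ P, P ∈ T ↔ (7 : 𝓞 M) ∈ P.asIdeal ∨ ∃ v ∈ S, a7a_pi (L := L) P = v.1) :
    ∃ y : M, y ≠ 0 ∧ ((algebraMap (𝓞 L) (𝓞 M) (∏ v ∈ S, n v.1) : 𝓞 M) : M) * (rs7 D s : M) =
      ((∏ P ∈ T, z P : 𝓞 M) : M) * y ^ 2 := by
  set A : 𝓞 M := algebraMap (𝓞 L) (𝓞 M) (∏ v ∈ S, n v.1) with hA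
  set B : 𝓞 M := ∏ P ∈ T, z P with hB
  have hA0 : (A : M) ≠ 0 := by
    rw [RingOfIntegers.coe_ne_zero_iff, hA]
    intro h
    have h1 := (FaithfulSMul.algebraMap_injective (𝓞 L) (𝓞 M)) (h.trans (map_zero _).symm)
    exact Finset.prod_ne_zero_iff.2 (fun u _ => lf_ne hn u) h1
  have hr0 : (rs7 D s : M) ≠ 0 := c2_rs7_ne s
  have hB0 : (B : M) ≠ 0 := RingOfIntegers.coe_ne_zero_iff.2 (r6_prod hz (Vp hD s)).1
  have hev : ∀ P : HeightOneSpectrum (𝓞 M), IsSquare (P.valuation M ((A : M) * (rs7 D s : M) * (B : M))) := by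
    intro P
    rw [r6_mul (mul_ne_zero hA0 hr0) hB0, r6_mul hA0 hr0, (r6_prod hz P).2, hA, x7_prod hn D S P, x7_seven D s P, hT P]
    have h1 : (7 : 𝓞 M) ∈ P.asIdeal → ¬ ∃ v ∈ S, a7a_pi (L := L) P = v.1 := by
      rintro h7 ⟨v, -, h2⟩
      apply v.2.2
      rw [← h2]
      change (7 : 𝓞 L) ∈ P.asIdeal.comap (algebraMap (𝓞 L) (𝓞 M))
      rw [Ideal.mem_comap, map_ofNat]
      exact h7
    generalize (∃ v ∈ S, a7a_pi (L := L) P = v.1) = Q1 at h1 ⊢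
    generalize ((7 : 𝓞 M) ∈ P.asIdeal) = Q2 at h1 ⊢
    tauto
  obtain ⟨w, y, hy, he⟩ := r6_unit (D := D) (mul_ne_zero (mul_ne_zero hA0 hr0) hB0) hev
  -- the unit is a square
  set X : 𝓞 M := A * rs7 D s * B with hX
  have hXM : (X : M) = (A : M) * (rs7 D s : M) * (B : M) := by rw [hX, x7_cm, x7_cm]
  have hEX : Et D s X := by
    refine Et.mul' (Et.mul' (x7_et hn D s S) (se4_et_rs7 D s)) ?_
    exact x7_et_prod hz
  have hwu : ((algebraMap (𝓞 L) (𝓞 M) (w : 𝓞 L) : 𝓞 M) : M) * ((algebraMap (𝓞 L) (𝓞 M) ((w⁻¹ : (𝓞 L)ˣ) : 𝓞 L) : 𝓞 M) : M) = 1 := by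
    rw [← x7_cm, ← map_mul, Units.mul_inv, map_one]
    exact map_one (algebraMap (𝓞 M) M)
  have hint : ((X * algebraMap (𝓞 L) (𝓞 M) ((w⁻¹ : (𝓞 L)ˣ) : 𝓞 L) : 𝓞 M) : M) = y ^ 2 := by
    rw [x7_cm, hXM, he]
    linear_combination y ^ 2 * hwu
  obtain ⟨Y, hY, hY2⟩ := r6_int hD hint
  have hXY : X = algebraMap (𝓞 L) (𝓞 M) (w : 𝓞 L) * Y ^ 2 := by
    apply RingOfIntegers.ext
    rw [hXM, he, x7_cm, g1_pow, hY]
  have hYc : IsCoprime Y (p2 D s) := by
    have h1 := hEX.cop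
    rw [hXY] at h1
    exact (IsCoprime.pow_left_iff (by norm_num : 0 < 2)).1 h1.of_mul_left_right
  have hEY : Et D s (Y ^ 2) := ⟨Y, 0, hYc, by ring⟩
  obtain ⟨w', hw'⟩ := Et.unit hD (v := Units.map (algebraMap (𝓞 L) (𝓞 M)).toMonoidHom w) hEY (by
    have e : ((Units.map (algebraMap (𝓞 L) (𝓞 M)).toMonoidHom w : (𝓞 M)ˣ) : 𝓞 M) * Y ^ 2 = X := by
      rw [hXY]
      rfl
    rw [e]
    exact hEX)
  have hw2 : algebraMap (𝓞 L) (𝓞 M) (w : 𝓞 L) = algebraMap (𝓞 L) (𝓞 M) (w' : 𝓞 L) ^ 2 := by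
    rw [← map_pow]
    exact hw'
  have hw0 : ((algebraMap (𝓞 L) (𝓞 M) (w' : 𝓞 L) : 𝓞 M) : M) ≠ 0 := by
    rw [RingOfIntegers.coe_ne_zero_iff]
    exact (w'.isUnit.map (algebraMap (𝓞 L) (𝓞 M))).ne_zero
  refine ⟨((algebraMap (𝓞 L) (𝓞 M) (w' : 𝓞 L) : 𝓞 M) : M) * y / (B : M), div_ne_zero (mul_ne_zero hw0 hy) hB0, ?_⟩
  rw [hw2, g1_pow] at he
  field_simp
  linear_combination he

end

variable (hD : Od2 D)
include hD

/-- [X7e] the decomposition over `M` -/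
theorem dL_DK {s : Bool} {z : HeightOneSpectrum (𝓞 M) → 𝓞 M} (hz : ∀ P, (2 : 𝓞 M) ∉ P.asIdeal → NG D s P (z P))
    {n : HeightOneSpectrum (𝓞 L) → 𝓞 L} (hn : ∀ v : OQ L, NL v.1 (n v.1)) (u : (𝓞 L)ˣ) (i b : Bool) {S : Finset (OQ L)}
    {T : Finset (HeightOneSpectrum (𝓞 M))} (hT : ∀ P, P ∈ T ↔ (7 : 𝓞 M) ∈ P.asIdeal ∨ ∃ v ∈ S, a7a_pi (L := L) P = v.1) :
    TRZ.DK D s (algebraMap L M (dL n u i b S)) T z u i i := by
  have h2 : ∀ P ∈ T, (2 : 𝓞 M) ∉ P.asIdeal := by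
    intro P hP h2
    rcases (hT P).1 hP with h7 | ⟨v, -, hv⟩
    · apply P.isPrime.ne_top
      rw [Ideal.eq_top_iff_one]
      have e : (1 : 𝓞 M) = 7 - 3 * 2 := by norm_num
      rw [e]
      exact Ideal.sub_mem _ h7 (Ideal.mul_mem_left _ _ h2)
    · apply v.2.1
      rw [← hv]
      change (2 : 𝓞 L) ∈ P.asIdeal.comap (algebraMap (𝓞 L) (𝓞 M))
      rw [Ideal.mem_comap, map_ofNat]
      exact h2
  obtain ⟨y, hy, he⟩ := x7_key hn hD (fun P hP => hz P (h2 P hP)) hT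
  have hr : D.r ≠ 0 := by
    intro h
    have h1 := D.hr
    rw [h] at h1
    norm_num at h1
  refine ⟨h2, fun P hP => hz P (h2 P hP), (if b then D.r else 1) * y, mul_ne_zero (by split_ifs; exacts [hr, one_ne_zero]) hy, ?_⟩
  have e1 : (algebraMap L M (dL n u i b S)) = ((algebraMap (𝓞 L) (𝓞 M) (u : 𝓞 L) : 𝓞 M) : M) * (if i then 2 else 1) *
      (if b then D.r else 1) ^ 2 * ((algebraMap (𝓞 L) (𝓞 M) (∏ v ∈ S, n v.1) : 𝓞 M) : M) := by
    have e2 : ((kap u i : 𝓞 L) : L) = ((u : 𝓞 L) : L) * (if i then 2 else 1) := by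
      unfold kap
      rw [show (((u : 𝓞 L) * if i then 2 else 1 : 𝓞 L) : L) = ((u : 𝓞 L) : L) * (((if i then 2 else 1 : 𝓞 L)) : L) from
        map_mul (algebraMap (𝓞 L) L) _ _]
      congr 1
      cases i
      · exact map_one (algebraMap (𝓞 L) L)
      · exact map_ofNat (algebraMap (𝓞 L) L) 2
    have e3 : (∏ v ∈ S, ((n v.1 : 𝓞 L) : L)) = (((∏ v ∈ S, n v.1 : 𝓞 L)) : L) := (map_prod (algebraMap (𝓞 L) L) _ _).symm
    have e4 : algebraMap L M (if b then -7 else 1) = (if b then D.r else 1) ^ 2 := by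
      cases b
      · simp
      · simp only [if_true]
        rw [D.hr, map_neg, map_ofNat]
    have e5 : algebraMap L M (if i then 2 else 1) = (if i then 2 else 1) := by
      cases i
      · simp
      · simp only [if_true]
        exact map_ofNat (algebraMap L M) 2
    unfold dL
    rw [e2, e3, map_mul, map_mul, map_mul, e4, e5, x7_alg, x7_alg]
  have e2 : (((if i then -(p1 D s) else 1 : 𝓞 M)) : M) * (((if i then -(p2 D s) else 1 : 𝓞 M)) : M) = if i then 2 else 1 := by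
    rw [← x7_cm]
    cases i
    · simp
    · simp only [if_true]
      rw [neg_mul_neg, p12 D s]
      exact map_ofNat (algebraMap (𝓞 M) M) 2
  rw [x7_cm, x7_cm, x7_cm, e1, ← e2]
  linear_combination ((algebraMap (𝓞 L) (𝓞 M) (u : 𝓞 L) : 𝓞 M) : M) * (((if i then -(p1 D s) else 1 : 𝓞 M)) : M) *
    (((if i then -(p2 D s) else 1 : 𝓞 M)) : M) * (if b then D.r else 1) ^ 2 * he

end

end TRR
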