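import Pool.Agent.TRR.L0
import Pool.Agent.TRR.FL3
import Pool.Agent.TRR.X7e
import Pool.Agent.TRZ.H2b
import Pool.Agent.TRG.LEa

/-! # [REAL2-L1] the `L`-series over `L` of the curves with bad reduction at `2` -/

set_option autoImplicit false
set_option linter.unusedSectionVars false

open NumberField Ideal IsDedekindDomain ArithmeticFunction Filter Topology
open CM27 CMT GE TR TT TK TU TTS TRG XTB TRP
open scoped Real Classical ComplexConjugate

namespace TRR

section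
variable {L M : Type} [Field L] [NumberField L] [Field M] [NumberField M] [Algebra L M]
  [IsTotallyReal L] {D : Dat L M} (hD : Od2 D)
include hD

theorem l1_V2_sq : (2 : 𝓞 L) ∉ (V2 hD).asIdeal ^ 2 := by
  intro h
  have h1 : (V2 hD).asIdeal ^ 2 = span {(2 : 𝓞 L) ^ 2} := by
    have h2 : (V2 hD).asIdeal = span {(2 : 𝓞 L)} := rfl
    rw [h2, Ideal.span_singleton_pow]
  rw [h1, Ideal.mem_span_singleton] at h
  obtain ⟨c, hc⟩ := h
  have h20 : (2 : 𝓞 L) ≠ 0 := by norm_num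
  have h2 : (2 : 𝓞 L) * (2 * c) = 2 * 1 := by
    rw [mul_one, ← mul_assoc, ← pow_two]
    exact hc.symm
  have h3 := mul_left_cancel₀ h20 h2
  apply hD.two.ne_top
  rw [Ideal.eq_top_iff_one, Ideal.mem_span_singleton]
  exact ⟨c, h3.symm⟩

/-- ramified at both primes above `2` -/
theorem l1_Rm {u : (𝓞 L)ˣ} {i : Bool} (hκ : ¬ IsSquare (kap u i)) : TRZ.Rm (u : 𝓞 L) i := by
  cases i
  · right
    rintro ⟨a, c, ha, hu⟩
    apply hκ
    rw [kap_iff hD]
    refine ⟨rfl, ?_⟩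
    have h2 : (2 : 𝓞 L) ∈ (V2 hD).asIdeal := (V2_iff hD _).2 rfl
    refine lf_unit hD h2 ⟨1, a, c, one_ne_zero, ?_, ?_⟩
    · rw [one_pow, one_mul, hu]
    · rw [← hu]
      exact fun h => (V2 hD).isPrime.ne_top (Ideal.eq_top_of_isUnit_mem _ h u.isUnit)
  · left; rfl

section
variable {s : Bool} {z : HeightOneSpectrum (𝓞 M) → 𝓞 M} (hz : ∀ P, (2 : 𝓞 M) ∉ P.asIdeal → NG D s P (z P))
  {n : HeightOneSpectrum (𝓞 L) → 𝓞 L} (hn : ∀ v : OQ L, NL v.1 (n v.1)) (u : (𝓞 L)ˣ) (i b : Bool) {S : Finset (OQ L)}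
  {T : Finset (HeightOneSpectrum (𝓞 M))} (hT : ∀ P, P ∈ T ↔ (7 : 𝓞 M) ∈ P.asIdeal ∨ ∃ v ∈ S, a7a_pi (L := L) P = v.1)
  (hκ : ¬ IsSquare (kap u i))

include hz hn hT hκ in
/-- the Euler factor over `L` -/
theorem l1_euler (Ψ : PsiDat D) {Φ : Ideal (𝓞 M) →*₀ ℂ} (hΦ : TRZ.PhiK D s T (TRZ.kp (TRZ.cd D s T z u) i) (TRZ.kp (u : 𝓞 L) i) Φ)
    (C : WeierstrassCurve.VariableChange L) (v : HeightOneSpectrum (𝓞 L)) {p f : ℕ} (hp : p.Prime) (hf : 0 < f)
    (hv : absNorm v.asIdeal = p ^ f) (X : Finset (HeightOneSpectrum (𝓞 M)))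
    (hX : ∀ P, P ∈ X ↔ P.asIdeal.comap (algebraMap (𝓞 L) (𝓞 M)) = v.asIdeal)
    (e : HeightOneSpectrum (𝓞 M) → ℕ) (he : ∀ P ∈ X, absNorm P.asIdeal = p ^ e P) :
    PowerSeries.map (Int.castRingHom ℂ) (loc p (fW L (C • Wd (dL n u i b S)) v)) *
      ∏ P ∈ X, (1 - PowerSeries.C (Φ P.asIdeal) * PowerSeries.X ^ e P) = 1 := by
  have H := dL_DK hD hz hn u i b hT
  have hd0 := dL_ne hD hn u i b S
  have hmem : ∀ P ∈ X, ∀ a : 𝓞 L, algebraMap (𝓞 L) (𝓞 M) a ∈ P.asIdeal ↔ a ∈ v.asIdeal := by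
    intro P hP a
    rw [← (hX P).1 hP, Ideal.mem_comap]
  by_cases h7 : (7 : 𝓞 L) ∈ v.asIdeal
  · -- the prime above seven
    have hvs : v.asIdeal = span {(7 : 𝓞 L)} := (D.above_seven.1 v).1 h7
    have h72 : (7 : 𝓞 L) ∉ v.asIdeal ^ 2 := by
      intro h
      rw [hvs, Ideal.span_singleton_pow, Ideal.mem_span_singleton] at h
      obtain ⟨c, hc⟩ := h
      have h70 : (7 : 𝓞 L) ≠ 0 := by norm_num
      have h2 : (7 : 𝓞 L) * (7 * c) = 7 * 1 := by
        rw [mul_one, ← mul_assoc, ← pow_two]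
        exact hc.symm
      have h3 := mul_left_cancel₀ h70 h2
      apply v.isPrime.ne_top
      rw [hvs, Ideal.eq_top_iff_one, Ideal.mem_span_singleton]
      exact ⟨c, h3.symm⟩
    rw [loc7 v h7 hd0 (Or.inl h72) C, loc_one hp, map_one, one_mul]
    apply Finset.prod_eq_one
    intro P hP
    have e4 : (7 : 𝓞 M) ∈ P.asIdeal := by
      have := (hmem P hP 7).2 h7
      rwa [map_ofNat] at this
    rw [hΦ.h2_zero ((hT P).2 (Or.inl e4)) le_rfl, _root_.map_zero, zero_mul, sub_zero]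
  have h7M : ∀ P ∈ X, (7 : 𝓞 M) ∉ P.asIdeal := by
    intro P hP h
    apply h7
    rw [← hmem P hP, map_ofNat]
    exact h
  by_cases h2 : (2 : 𝓞 L) ∈ v.asIdeal
  · -- the prime above two
    obtain rfl := (V2_iff hD v).1 h2
    have hU : ¬ Ur (V2 hD) (dL n u i b S) := fun h => hκ ((dL_ur hD hn u i b S).1 h)
    rw [TRX2.fWd_ram (V2 hD) h2 (l1_V2_sq hD) hd0 hU C, loc_one hp, map_one, one_mul]
    apply Finset.prod_eq_one
    intro P hP
    have h2P : (2 : 𝓞 M) ∈ P.asIdeal := by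
      have := (hmem P hP 2).2 h2
      rwa [map_ofNat] at this
    have hR := l1_Rm hD hκ
    have h0 : ∀ I : Ideal (𝓞 M), I ≤ span {p2 D s} → Φ I = 0 := fun I hI =>
      hΦ.h2_zero2 hD (fun x hx => ((TRZ.kp_kp hD (TRZ.h2_eps2 hD u) hR).zero x).2 hx) hI
    have h1 : Φ P.asIdeal = 0 := by
      rcases TRZ.h2_cases hD s h2P with h | h
      · exact h0 _ h.le
      · have h3 : (span {p2 D s} : Ideal (𝓞 M)).map D.cjO = P.asIdeal := by
          rw [h, Ideal.map_span, Set.image_singleton, bl_not, ← bl_cj (D := D) s, a5_cj_cj D]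
        rw [← h3, PhiK_conj hD H hΦ, h0 _ le_rfl, _root_.map_zero]
    rw [h1, _root_.map_zero, zero_mul, sub_zero]
  have h2M : ∀ P ∈ X, (2 : 𝓞 M) ∉ P.asIdeal := by
    intro P hP h
    apply h2
    rw [← hmem P hP, map_ofNat]
    exact h
  have hp7 : p ≠ 7 := by
    rintro rfl
    exact h7 (by exact_mod_cast u5_mem v 7 f hv)
  have hcases : Ur v (dL n u i b S) ∨ (Od v (dL n u i b S) ∧ (2 : 𝓞 L) ∉ v.asIdeal) := by
    rcases ur_or_od h2 hd0 with h1 | h1
    · exact Or.inl h1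
    · exact Or.inr ⟨h1, h2⟩
  have hloc : ∀ {α β : ℂ}, Wl p α β →
      PowerSeries.map (Int.castRingHom ℂ) (loc p (fW L (C • Wd (dL n u i b S)) v)) *
      ((1 - PowerSeries.C ((sg v (dL n u i b S) : ℂ) * α ^ f) * PowerSeries.X ^ f) *
        (1 - PowerSeries.C ((sg v (dL n u i b S) : ℂ) * β ^ f) * PowerSeries.X ^ f)) = 1 :=
    fun {α β} hw => loc_Wd v hp hf hv h7 hcases hw C
  have hval := val_el_odd hn hD u i b S ⟨v, h2, h7⟩
  by_cases hvS : (⟨v, h2, h7⟩ : OQ L) ∈ S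
  · -- the primes of `S`
    have hU : ¬ Ur v (dL n u i b S) := by
      rw [ur_iff_val h2 hd0, ← el_coe, hval, not_not]
      exact hvS
    have hs0 : sg v (dL n u i b S) = 0 := by
      unfold sg
      rw [if_neg hU]
    obtain ⟨α, β, hw⟩ := exists_Wl hp hp7
    have e3 := hloc hw
    rw [hs0, Int.cast_zero, zero_mul, zero_mul, _root_.map_zero, zero_mul, sub_zero, mul_one] at e3
    rw [mul_one] at e3
    rw [e3, one_mul]
    apply Finset.prod_eq_one
    intro P hP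
    have hPT : P ∈ T := (hT P).2 (Or.inr ⟨_, hvS, HeightOneSpectrum.ext ((hX P).1 hP)⟩)
    rw [hΦ.h2_zero hPT le_rfl, _root_.map_zero, zero_mul, sub_zero]
  -- good reduction
  have hur : Ur v (dL n u i b S) := by
    rw [ur_iff_val h2 hd0, ← el_coe, hval]
    exact hvS
  set d := dL n u i b S with hd
  set c : ℤ := sg v d with hc0
  have hinj := Nat.pow_right_injective hp.two_le
  have hsq : (c : ℂ) ^ 2 = 1 := by
    rw [hc0]
    unfold sg
    rw [if_pos hur]
    split_ifs <;> norm_num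
  have hpair : ∀ P Q : HeightOneSpectrum (𝓞 M), P ≠ Q →
      (∀ R : HeightOneSpectrum (𝓞 M), R.asIdeal.comap (algebraMap (𝓞 L) (𝓞 M)) = v.asIdeal ↔
        R = P ∨ R = Q) → absNorm P.asIdeal = absNorm v.asIdeal →
        absNorm Q.asIdeal = absNorm v.asIdeal → 
      ∏ P ∈ X, (1 - PowerSeries.C (Φ P.asIdeal) * PowerSeries.X ^ e P : PowerSeries ℂ) =
        (1 - PowerSeries.C ((c : ℂ) * Ψ.psi P.asIdeal) * PowerSeries.X ^ f) *
          (1 - PowerSeries.C ((c : ℂ) * Ψ.psi Q.asIdeal) * PowerSeries.X ^ f) := by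
    intro P Q hPQ hR hP hQ
    have hSe : X = {P, Q} := by
      ext R
      rw [hX, hR, Finset.mem_insert, Finset.mem_singleton]
    have hPX : P ∈ X := by rw [hSe]; simp
    have hQX : Q ∈ X := by rw [hSe]; simp
    have hdP : e P = f := by
      have := he P hPX
      rw [hP, hv] at this
      exact (hinj this).symm
    have hdQ : e Q = f := by
      have := he Q hQX
      rw [hQ, hv] at this
      exact (hinj this).symm
    rw [hSe, Finset.prod_pair hPQ, hdP, hdQ, H.h2_at hD Ψ hΦ (h7M P hPX), H.h2_at hD Ψ hΦ (h7M Q hQX),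
      sg_same ((hX P).1 hPX) hP hur, sg_same ((hX Q).1 hQX) hQ hur]
  rcases u5_c7_cases p hp hp7 with hc | hc
  · -- split
    have hcv : c7 (absNorm v.asIdeal) = 1 := by
      rw [hv, u5_c7_pow, hc, one_pow]
    obtain ⟨P, Q, hPQ, hconj, hR, hP, hQ⟩ := D.split v h7 hcv
    obtain ⟨α, hα, hα2, hcount⟩ := point_count_split hp hc
    have hαβ : toC α * conj (toC α) = p := by
      rw [u5_norm_toC, hα]; simp
    have hw : Wl p (toC α) (conj (toC α)) := ⟨hαβ, fun n hn k _ _ hk => hcount n hn k hk⟩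
    have hg := hloc hw
    rw [hpair P Q hPQ hR hP hQ, hconj, Ψ.conj_eq]
    rcases Ψ.split_eq P p f hp (by rw [hP, hv]) hc α hα hα2 with h | h
    · rw [h, map_pow (starRingEnd ℂ)]
      exact hg
    · rw [h, map_pow (starRingEnd ℂ), Complex.conj_conj,
        mul_comm (1 - PowerSeries.C ((c : ℂ) * (conj (toC α)) ^ f) * PowerSeries.X ^ f)]
      exact hg
  · -- inert
    set α : ℂ := Complex.I * (√(p : ℝ) : ℝ) with hα
    have hsqp : (((√(p : ℝ) : ℝ)) : ℂ) ^ 2 = p := by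
      rw [← Complex.ofReal_pow, Real.sq_sqrt (by positivity)]
      simp
    have hα2 : α ^ 2 = -(p : ℂ) := by
      rw [hα, mul_pow, Complex.I_sq, hsqp]
      ring
    have hβ2 : (-α) ^ 2 = -(p : ℂ) := by rw [neg_sq, hα2]
    have hprod : α * (-α) = p := by linear_combination -hα2
    have hw : Wl p α (-α) := by
      refine ⟨hprod, ?_⟩
      intro n hn K _ _ hK
      have h := point_count_inert hp hc n hn K hK
      rcases Nat.even_or_odd n with hev | hodd
      · rw [if_pos hev] at h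
        obtain ⟨k', hk⟩ := hev
        have hk2 : n = 2 * k' := by omega
        have hαf : α ^ n = (-(p : ℂ)) ^ k' := by rw [hk2, pow_mul, hα2]
        have hβf : (-α) ^ n = (-(p : ℂ)) ^ k' := by rw [hk2, pow_mul, hβ2]
        have h' : ((Nat.card (TR.E K).toAffine.Point : ℤ) : ℂ) = _ := congrArg (Int.cast : ℤ → ℂ) h
        rw [Int.cast_natCast] at h'
        rw [h', hαf, hβf]
        push_cast
        have : n / 2 = k' := by omega
        rw [this]
        ring
      · rw [if_neg (Nat.not_even_iff_odd.2 hodd)] at h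
        have hsum : α ^ n + (-α) ^ n = 0 := by rw [hodd.neg_pow, add_neg_cancel]
        have h' : ((Nat.card (TR.E K).toAffine.Point : ℤ) : ℂ) = _ := congrArg (Int.cast : ℤ → ℂ) h
        rw [Int.cast_natCast] at h'
        rw [h', hsum]
        push_cast
        ring
    have hg := hloc hw
    rcases Nat.even_or_odd f with hev | hodd
    · obtain ⟨k', hk⟩ := hev
      have hk2 : f = 2 * k' := by omega
      have hαf : α ^ f = (-(p : ℂ)) ^ k' := by rw [hk2, pow_mul, hα2]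
      have hβf : (-α) ^ f = (-(p : ℂ)) ^ k' := by rw [hk2, pow_mul, hβ2]
      have hcv : c7 (absNorm v.asIdeal) = 1 := by
        rw [hv, u5_c7_pow, hc, hk2, pow_mul]
        norm_num
      obtain ⟨P, Q, hPQ, hconj, hR, hP, hQ⟩ := D.split v h7 hcv
      rw [hpair P Q hPQ hR hP hQ, Ψ.inert_eq P p k' hp (by rw [hP, hv, hk2]) hc,
        Ψ.inert_eq Q p k' hp (by rw [hQ, hv, hk2]) hc]
      rw [hαf, hβf] at hg
      exact hg
    · have hcv : c7 (absNorm v.asIdeal) = -1 := by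
        rw [hv, u5_c7_pow, hc, hodd.neg_one_pow]
      obtain ⟨P, hR, hP⟩ := D.inert v h7 hcv
      have hSe : X = {P} := by
        ext R
        rw [hX, hR, Finset.mem_singleton]
      have hPX : P ∈ X := by rw [hSe]; simp
      have hP2 : absNorm P.asIdeal = p ^ (2 * f) := by
        rw [hP, hv, ← pow_mul, mul_comm]
      have hdP : e P = 2 * f := by
        have := he P hPX
        rw [hP2] at this
        exact (hinj this).symm
      have hlamP : Φ P.asIdeal = (-(p : ℂ)) ^ f := by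
        rw [H.h2_at hD Ψ hΦ (h7M P hPX), sg_quad ((hX P).1 hPX) hP hur, Int.cast_one,
          one_mul, Ψ.inert_eq P p f hp hP2 hc]
      rw [hSe, Finset.prod_singleton, hdP, hlamP]
      have hsum : α ^ f + (-α) ^ f = 0 := by rw [hodd.neg_pow, add_neg_cancel]
      have e : (1 - PowerSeries.C ((c : ℂ) * α ^ f) * PowerSeries.X ^ f) *
          (1 - PowerSeries.C ((c : ℂ) * (-α) ^ f) * PowerSeries.X ^ f) =
          1 - PowerSeries.C ((-(p : ℂ)) ^ f) * PowerSeries.X ^ (2 * f) := by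
        have e1 : (-(p : ℂ)) ^ f = - (((c : ℂ) * α ^ f) * ((c : ℂ) * (-α) ^ f)) := by
          have e0 : (-(p : ℂ)) ^ f = - (α ^ f * (-α) ^ f) := by
            rw [← mul_pow, hprod, hodd.neg_pow]
          rw [e0]
          linear_combination (α ^ f * (-α) ^ f) * hsq
        have e2 : PowerSeries.C ((c : ℂ) * α ^ f) + PowerSeries.C ((c : ℂ) * (-α) ^ f) =
            (0 : PowerSeries ℂ) := by
          rw [← map_add, ← mul_add, hsum, mul_zero, _root_.map_zero]
        rw [e1, map_neg, map_mul (PowerSeries.C) ((c : ℂ) * α ^ f), two_mul, pow_add]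
        linear_combination (-(PowerSeries.X ^ f : PowerSeries ℂ)) * e2
      rw [← e]
      exact hg

include hz hn hT hκ in
/-- the Dirichlet series over `L` -/
theorem l1_LCW (Ψ : PsiDat D) {Φ : Ideal (𝓞 M) →*₀ ℂ} (hΦ : TRZ.PhiK D s T (TRZ.kp (TRZ.cd D s T z u) i) (TRZ.kp (u : 𝓞 L) i) Φ)
    (C : WeierstrassCurve.VariableChange L) : LCW L (C • Wd (dL n u i b S)) = idA M Φ := by
  rw [ArithmeticFunction.IsMultiplicative.eq_iff_eq_on_prime_powers _
    (isMultiplicative_LCW L (C • Wd (dL n u i b S))) _ (isMultiplicative_idA M Φ)]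
  intro p k hp
  rw [← coeff_loc, ← coeff_loc]
  congr 1
  rw [loc_LCW, loc_LFunctionW L (C • Wd (dL n u i b S)) hp (u6_S L hp) (fun v hv => (u6_mem_S L hp v).2 hv),
    map_prod]
  have h1 := loc_idA M Φ hp (u6_S M hp) (u6_mem_S M hp) (u6_d p) (u6_d_spec hp)
  refine u6_inv ?_ h1
  have hmaps : ∀ P ∈ u6_S M hp, u6_below (L := L) P ∈ u6_S L hp := by
    intro P hP
    rw [u6_mem_S] at hP ⊢
    change (p : 𝓞 L) ∈ P.asIdeal.comap (algebraMap (𝓞 L) (𝓞 M))
    rw [Ideal.mem_comap, map_natCast]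
    exact hP
  rw [← Finset.prod_fiberwise_of_maps_to hmaps, ← Finset.prod_mul_distrib]
  apply Finset.prod_eq_one
  intro v hv
  refine l1_euler hD hz hn u i b hT hκ Ψ hΦ C v hp (u6_d_pos hp v hv) (u6_d_spec hp v hv) _ ?_ (u6_d p) ?_
  · intro P
    rw [Finset.mem_filter]
    constructor
    · rintro ⟨-, rfl⟩
      rfl
    · intro h
      refine ⟨?_, HeightOneSpectrum.ext h⟩
      rw [u6_mem_S] at hv ⊢
      rw [← h, Ideal.mem_comap, map_natCast] at hv
      exact hv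
  · intro P hP
    exact u6_d_spec hp P (Finset.mem_filter.1 hP).1

include hz hn hT hκ in
/-- [FINL-1] the `L`-series over `L` (`v = 2`: additive reduction, the local factor is `1`) -/
theorem series_LX {Φ : Ideal (𝓞 M) →*₀ ℂ} (hΦ : TRZ.PhiK D s T (TRZ.kp (TRZ.cd D s T z u) i) (TRZ.kp (u : 𝓞 L) i) Φ)
    {Z : ℂ → ℂ} (hZd : Differentiable ℂ Z)
    (hZ : ∀ t : ℂ, 3 / 2 < t.re → Z t = ∑' I : Ideal (𝓞 M), conj (Φ I) * (absNorm I : ℂ) ^ (-t))
    (C : WeierstrassCurve.VariableChange L) :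
    SBSD2.IsEntireLSeries (C • Wd (dL n u i b S)) Z ∧ conj (Z 1) = Z 1 := by
  obtain ⟨Ψ⟩ := D.exists_psi
  have H := dL_DK hD hz hn u i b hT
  have hcj := PhiK_conj hD H hΦ
  have hkz : ∀ {c : 𝓞 L} {b : Bool}, c ∉ span {(2 : 𝓞 L)} →
      (∀ x, x ∈ span {(2 : 𝓞 L)} → TRZ.kp c b x = 0) ∨ TRZ.kp c b = fun _ => 1 := by
    intro c b hc
    by_cases h : TRZ.Rm c b
    · exact Or.inl fun x hx => ((TRZ.kp_kp hD hc h).zero x).2 hx
    · exact Or.inr (TRZ.kp_one hD h)
  have hle : ∀ I, ‖Φ I‖ ≤ (absNorm I : ℝ) ^ (1 / 2 : ℝ) := by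
    intro I
    rw [← Real.sqrt_eq_rpow]
    exact Real.le_sqrt_of_sq_le (hΦ.h2_norm_le hD (hkz (H.h2_cd hD)) (hkz (TRZ.h2_eps2 hD u)) I)
  have hZ' : ∀ t : ℂ, 3 / 2 < t.re → Z t = ∑' I : Ideal (𝓞 M), Φ I * (absNorm I : ℂ) ^ (-t) := by
    intro t ht
    rw [hZ t ht, ← (Function.Involutive.toPerm (fun I : Ideal (𝓞 M) => I.map D.cjO)
      (fun I => u6_map_map D I)).tsum_eq]
    refine tsum_congr fun I => ?_
    change conj (Φ (I.map D.cjO)) * (absNorm (I.map D.cjO) : ℂ) ^ (-t) = _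
    rw [hcj, Complex.conj_conj, u6_absNorm]
  have hL := f1_LSeries_eq L (C • Wd (dL n u i b S)) (l1_LCW hD hz hn u i b hT hκ Ψ hΦ C)
  refine ⟨⟨hZd, fun t ht => ?_⟩, ?_⟩
  · obtain ⟨a1, a2, a3⟩ := lseries_idA M Φ (1 / 2) (by norm_num) hle (s := t) (by linarith)
    refine ⟨?_, ?_⟩
    · rw [hL]
      exact a2
    · rw [hZ' t ht, ← a3, ← hL]
      rfl
  · have hcd : Differentiable ℂ (fun s => conj (Z (conj s))) := by
      intro s
      have h1 := (hZd (conj s)).conj_conj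
      rw [Complex.conj_conj] at h1
      exact h1
    have heq : ∀ t : ℂ, 3 / 2 < t.re → conj (Z (conj t)) = Z t := by
      intro t ht
      rw [hZ (conj t) (by rw [Complex.conj_re]; exact ht), Complex.conj_tsum, hZ' t ht]
      refine tsum_congr fun I => ?_
      rw [map_mul, Complex.conj_conj]
      congr 1
      have h5 : ((absNorm I : ℂ)).arg ≠ π := by
        rw [Complex.natCast_arg]
        exact Real.pi_ne_zero.symm
      have h6 := Complex.conj_cpow (absNorm I : ℂ) (-t) h5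
      rw [Complex.conj_natCast, map_neg] at h6
      rw [← h6]
    have hfe : (fun s => conj (Z (conj s))) = Z := by
      refine AnalyticOnNhd.eq_of_eventuallyEq (𝕜 := ℂ) (z₀ := 2)
        (fun x _ => hcd.analyticAt x) (fun x _ => hZd.analyticAt x) ?_
      have hop : IsOpen {t : ℂ | 3 / 2 < t.re} := isOpen_lt continuous_const Complex.continuous_re
      filter_upwards [hop.mem_nhds (show (2 : ℂ) ∈ {t : ℂ | 3 / 2 < t.re} by
        show (3 / 2 : ℝ) < (2 : ℂ).re
        norm_num)] with t ht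
      exact heq t ht
    have h1 := congrFun hfe 1
    simpa using h1

end

end

end TRR
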