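import Pool.Agent.TRZ.H2b
import Pool.Agent.TRB.F4
import Pool.Agent.TR.U6
import Pool.Agent.TR.Z2

/-! # [REAL2-L0] the Hecke character of a twist by `d ∈ L` is invariant under conjugation -/

set_option autoImplicit false
set_option linter.unusedSectionVars false

open NumberField Ideal IsDedekindDomain
open scoped Real Classical ComplexConjugate
open TR TRG TTS TU TT TRP

namespace TRR

section
variable {L M : Type} [Field L] [NumberField L] [Field M] [NumberField M] [Algebra L M]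
  [IsTotallyReal L] (D : Dat L M)

/-- the local class at the conjugate prime -/
theorem l0_ur {P : HeightOneSpectrum (𝓞 M)} {d : L} (h : Ur P (algebraMap L M d)) :
    Ur (u6_conj D P) (algebraMap L M d) ∧
      sg (u6_conj D P) (algebraMap L M d) = sg P (algebraMap L M d) := by
  obtain ⟨x, t, c, hx, he, hD⟩ := h
  have hmem : ∀ y : 𝓞 M, y ∈ (u6_conj D P).asIdeal ↔ D.cjO y ∈ P.asIdeal := by
    intro y
    change y ∈ P.asIdeal.map D.cjO ↔ _
    rw [u6_map_eq_comap, Ideal.mem_comap]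
  have hx' : D.cj x ≠ 0 := by
    intro h
    apply hx
    rw [← D.cj_cj x, h, map_zero]
  have he' : algebraMap L M d = D.cj x ^ 2 * ((D.cjO t ^ 2 + 4 * D.cjO c : 𝓞 M) : M) := by
    have h1 : D.cj (algebraMap L M d) = algebraMap L M d := D.cj.commutes d
    have h2 : (D.cjO t ^ 2 + 4 * D.cjO c : 𝓞 M) = D.cjO (t ^ 2 + 4 * c) := by
      rw [map_add, map_pow, map_mul, map_ofNat]
    rw [h2, D.coe_cjO, ← map_pow, ← map_mul, ← he, h1]
  have hD' : D.cjO t ^ 2 + 4 * D.cjO c ∉ (u6_conj D P).asIdeal := by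
    rw [hmem, map_add, map_pow, map_mul, map_ofNat, u6_cjO_cjO, u6_cjO_cjO]
    exact hD
  refine ⟨⟨_, _, _, hx', he', hD'⟩, ?_⟩
  have h3 : sg (u6_conj D P) (algebraMap L M d) = chd (D.cjO t) (D.cjO c) (u6_conj D P) := by
    rw [he', sg_sq_mul hx', sg_int hD']
  have h4 : sg P (algebraMap L M d) = chd t c P := by
    rw [he, sg_sq_mul hx, sg_int hD]
  rw [h3, h4]
  unfold chd
  congr 1
  rw [eq_iff_iff]
  constructor
  · rintro ⟨b, hb⟩
    refine ⟨D.cjO b, ?_⟩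
    rw [hmem] at hb
    simp only [map_sub, map_mul, map_pow, u6_cjO_cjO] at hb
    exact hb
  · rintro ⟨b, hb⟩
    refine ⟨D.cjO b, ?_⟩
    rw [hmem]
    simp only [map_sub, map_mul, map_pow, u6_cjO_cjO]
    exact hb

theorem l0_sg (P : HeightOneSpectrum (𝓞 M)) (d : L) :
    sg (u6_conj D P) (algebraMap L M d) = sg P (algebraMap L M d) := by
  by_cases h : Ur P (algebraMap L M d)
  · exact (l0_ur D h).2
  · have h' : ¬ Ur (u6_conj D P) (algebraMap L M d) := by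
      intro h1
      apply h
      have h2 := (l0_ur D h1).1
      rwa [u6_conj_conj] at h2
    unfold sg
    rw [if_neg h, if_neg h']

variable {D}

/-- elements of `L` have even valuation at `√-7` -/
theorem l0_urR {R : HeightOneSpectrum (𝓞 M)} (hR : R.asIdeal = span {D.rr}) {d : L} (hd : d ≠ 0) :
    Ur R (algebraMap L M d) := by
  have h2R := g2_two_R hR
  obtain ⟨v, hv⟩ : ∃ v : HeightOneSpectrum (𝓞 L), R.asIdeal.comap (algebraMap (𝓞 L) (𝓞 M)) = v.asIdeal :=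
    ⟨u6_below R, rfl⟩
  have h2v : (2 : 𝓞 L) ∉ v.asIdeal := by
    rw [← hv, Ideal.mem_comap, map_ofNat]
    exact h2R
  have h7v : (7 : 𝓞 L) ∈ v.asIdeal := by
    rw [← hv, Ideal.mem_comap, map_ofNat, g2_seven D]
    exact neg_mem (Ideal.mul_mem_left _ _ (g2_rr_mem hR))
  have hv7 : v.asIdeal = span {(7 : 𝓞 L)} := (D.above_seven.1 v).1 h7v
  rcases ur_or_od h2v hd with h | h
  · exact h.up hv
  · obtain ⟨x, a, hx, hda, ha, ha2⟩ := h
    obtain ⟨e, he⟩ : ∃ e, a = 7 * e := by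
      rw [hv7, Ideal.mem_span_singleton] at ha
      exact ha
    have heR : -(algebraMap (𝓞 L) (𝓞 M) e) ∉ R.asIdeal := by
      rw [neg_mem_iff]
      intro h
      have h1 : e ∈ v.asIdeal := by
        rw [← hv, Ideal.mem_comap]
        exact h
      apply ha2
      rw [he, sq]
      exact Ideal.mul_mem_mul h7v h1
    have hx' : algebraMap L M x * D.r ≠ 0 := mul_ne_zero ((map_ne_zero _).2 hx) g2_r_ne
    have e1 : algebraMap L M d = (algebraMap L M x * D.r) ^ 2 * ((-(algebraMap (𝓞 L) (𝓞 M) e) : 𝓞 M) : M) := by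
      have h3 : ((algebraMap (𝓞 L) (𝓞 M) e : 𝓞 M) : M) = algebraMap L M (e : L) := rfl
      have h4 : ((-(algebraMap (𝓞 L) (𝓞 M) e) : 𝓞 M) : M) = -(algebraMap L M (e : L)) := by
        rw [← h3]
        rfl
      have h5 : algebraMap L M (a : L) = 7 * algebraMap L M (e : L) := by
        rw [he]
        have h6 : ((7 * e : 𝓞 L) : L) = 7 * (e : L) := rfl
        rw [h6, map_mul, map_ofNat]
      rw [hda, map_mul, map_pow, h4, h5]
      have h7 := D.hr
      linear_combination (algebraMap L M x ^ 2 * algebraMap L M (e : L)) * h7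
    rw [e1, ur_sq_mul hx']
    exact TRZ.h2_ur_odd h2R heR

variable (hD : Od2 D)
include hD

section
variable {s : Bool} {z : HeightOneSpectrum (𝓞 M) → 𝓞 M} {d : L} {T : Finset (HeightOneSpectrum (𝓞 M))} {u : (𝓞 L)ˣ} {i j : Bool}
    (H : TRZ.DK D s (algebraMap L M d) T z u i j)
include H

theorem l0_ne : d ≠ 0 := (map_ne_zero _).1 H.h2_ne

/-- the prime `√-7` belongs to `T` -/
theorem l0_R {R : HeightOneSpectrum (𝓞 M)} (hR : R.asIdeal = span {D.rr}) : R ∈ T := by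
  rw [H.mem_iff (g2_two_R hR), g2_sq_mul H.h2_ne g2_r_ne]
  intro h
  exact g2_R_not_sq hR (h.1 (l0_urR hR (l0_ne hD H)).val)

variable {Φ : Ideal (𝓞 M) →*₀ ℂ} (hΦ : TRZ.PhiK D s T (TRZ.kp (TRZ.cd D s T z u) i) (TRZ.kp (u : 𝓞 L) j) Φ)
include hΦ

theorem l0_seven {P : HeightOneSpectrum (𝓞 M)} (h7 : (7 : 𝓞 M) ∈ P.asIdeal) : Φ P.asIdeal = 0 := by
  have hR : P.asIdeal = span {D.rr} := (D.above_seven.2.1 P).1 h7
  exact hΦ.h2_zero (l0_R hD H hR) le_rfl

theorem l0_prime (P : HeightOneSpectrum (𝓞 M)) : Φ (P.asIdeal.map D.cjO) = conj (Φ P.asIdeal) := by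
  obtain ⟨Ψ⟩ := D.exists_psi
  have h7 : (7 : 𝓞 M) ∈ (u6_conj D P).asIdeal ↔ (7 : 𝓞 M) ∈ P.asIdeal := by
    change (7 : 𝓞 M) ∈ P.asIdeal.map D.cjO ↔ _
    rw [u6_map_eq_comap, Ideal.mem_comap, map_ofNat]
  change Φ (u6_conj D P).asIdeal = _
  by_cases h : (7 : 𝓞 M) ∈ P.asIdeal
  · rw [l0_seven hD H hΦ (h7.2 h), l0_seven hD H hΦ h, map_zero]
  · rw [H.h2_at hD Ψ hΦ (fun h' => h (h7.1 h')), H.h2_at hD Ψ hΦ h, l0_sg, map_mul, map_intCast]
    congr 1
    exact Ψ.conj_eq P.asIdeal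

/-- [FINL-0] `Φ` for a twist by `d ∈ L` -/
theorem PhiK_conj' (I : Ideal (𝓞 M)) : Φ (I.map D.cjO) = conj (Φ I) := by
  refine UniqueFactorizationMonoid.induction_on_prime (P := fun I => Φ (I.map D.cjO) = conj (Φ I)) I ?_ ?_ ?_
  · rw [Ideal.zero_eq_bot, Ideal.map_bot, ← Ideal.zero_eq_bot, map_zero, map_zero]
  · intro J hJ
    rw [Ideal.isUnit_iff] at hJ
    rw [hJ, Ideal.map_top, ← Ideal.one_eq_top, map_one, map_one]
  · intro J p _ hp hJ
    have hp0 : p ≠ ⊥ := hp.ne_zero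
    have h1 := l0_prime hD H hΦ ⟨p, Ideal.isPrime_of_prime hp, hp0⟩
    rw [Ideal.map_mul, map_mul, map_mul, map_mul, hJ]
    congr 1

end

/-- [FINL-0] `Φ` for a twist by `d ∈ L` (`hd`: from `dL_DK`, SPEC2, `s` arbitrary) -/
theorem PhiK_conj {s : Bool} {z : HeightOneSpectrum (𝓞 M) → 𝓞 M} {d : L} {T : Finset (HeightOneSpectrum (𝓞 M))} {u : (𝓞 L)ˣ} {i : Bool}
    (H : TRZ.DK D s (algebraMap L M d) T z u i i) {Φ : Ideal (𝓞 M) →*₀ ℂ}
    (hΦ : TRZ.PhiK D s T (TRZ.kp (TRZ.cd D s T z u) i) (TRZ.kp (u : 𝓞 L) i) Φ) (I : Ideal (𝓞 M)) :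
    Φ (I.map D.cjO) = conj (Φ I) := PhiK_conj' hD H hΦ I

end

end TRR
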