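import Pool.Agent.TRR.L2b
import Pool.Agent.TRR.L0

/-! # [REAL2-L2] rationality of the value over `L` -/

set_option autoImplicit false
set_option linter.unusedSectionVars false

open NumberField Ideal IsDedekindDomain
open scoped Real Classical ComplexConjugate
open TR TRG TTS TU TT XTB TRP TRZ

namespace TRR

section
variable {L M : Type} [Field L] [NumberField L] [Field M] [NumberField M] [Algebra L M]
  [IsTotallyReal L] {D : Dat L M} (hD : Od2 D)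
include hD

/-- the value is real if the character is invariant -/
theorem l2_real {Φ : Ideal (𝓞 M) →*₀ ℂ} (hc : ∀ I : Ideal (𝓞 M), Φ (I.map D.cjO) = conj (Φ I))
    {Z : ℂ → ℂ} (hZd : Differentiable ℂ Z)
    (hZ : ∀ t : ℂ, 3 / 2 < t.re → Z t = ∑' I : Ideal (𝓞 M), conj (Φ I) * (absNorm I : ℂ) ^ (-t)) : conj (Z 1) = Z 1 := by
  have _ := hD
  obtain ⟨h1, h2⟩ := g3_conj D hZd hZ
  have h3 : (fun s => conj (Z (conj s))) = Z := by
    refine z2_identity h1 hZd fun s hs => ?_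
    rw [h2 s hs, hZ s hs]
    refine tsum_congr fun I => ?_
    rw [phiC_apply, hc, Complex.conj_conj]
  have h4 := congrFun h3 1
  simp only [map_one] at h4
  exact h4

/-- the square root of the norm of `d`, and the Galois action -/
theorem l2_root {n : HeightOneSpectrum (𝓞 L) → 𝓞 L} (hn : ∀ v : OQ L, NL v.1 (n v.1)) (u : (𝓞 L)ˣ) (i b : Bool) (S : Finset (OQ L))
    (σ : ℂ ≃+* ℂ) (hr : σ (Complex.I * (√7 : ℝ)) = Complex.I * (√7 : ℝ)) {m : ℕ} (hm : 0 < m) (h8 : 8 ∣ m)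
    (hS : ∀ v ∈ S, absNorm v.1.asIdeal ∣ m) {t : ℤ} (ht : IsCoprime t (m : ℤ)) (ht2 : t % 2 = 1)
    (hσ : σ (ee (1 / (m : ℂ))) = ee ((t : ℂ) / (m : ℂ))) :
    σ (Complex.I ^ ng (dL n u i b S) * ((√|((Algebra.norm ℚ (dL n u i b S) : ℚ) : ℝ)| : ℝ) : ℂ)) =
      (((∏ v ∈ S, TT.qr v.1 (t : 𝓞 L)) * ((if Algebra.norm ℤ (u : 𝓞 L) = -1 then ZMod.χ₄ (t : ZMod 4) else 1) *
        (if i then ZMod.χ₈ (t : ZMod 8) else 1)) : ℤ) : ℂ) *
      (Complex.I ^ ng (dL n u i b S) * ((√|((Algebra.norm ℚ (dL n u i b S) : ℚ) : ℝ)| : ℝ) : ℂ)) := by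
  choose B hB using fun v : OQ L => l2_nv (hn v)
  set g := Module.finrank ℚ L with hg
  have hgo : Odd g := hD.odd
  set e4 : ℤ := ZMod.χ₄ (t : ZMod 4) with he4
  set e8 : ℤ := ZMod.χ₈ (t : ZMod 8) with he8
  have hI : σ Complex.I = (e4 : ℂ) * Complex.I := h3_I σ hm ((by norm_num : 4 ∣ 8).trans h8) ht2 hσ
  have h2 : σ ((√2 : ℝ) : ℂ) = (e8 : ℂ) * ((√2 : ℝ) : ℂ) := h3_sqrt2 σ hm h8 ht2 hσ
  have h8' : e8 ^ g = e8 := r1_pow_odd (by
    have hd : ∀ a : ZMod 8, ZMod.χ₈ a = 0 ∨ ZMod.χ₈ a = 1 ∨ ZMod.χ₈ a = -1 := by decide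
    exact hd _) hgo
  -- the explicit root
  set yv : OQ L → ℂ := fun v => f2_e (absNorm v.1.asIdeal) * ((√(absNorm v.1.asIdeal : ℝ) : ℝ) : ℂ) * (B v : ℂ) with hyv
  set Y : ℂ := (if Algebra.norm ℤ (u : 𝓞 L) = -1 then Complex.I else 1) * (if i then ((√2 : ℝ) : ℂ) ^ g else 1) *
    (if b then (Complex.I * (√7 : ℝ)) ^ g else 1) * ∏ v ∈ S, yv v with hY
  have c2 : (((√2 : ℝ) : ℂ) ^ g) ^ 2 = 2 ^ g := by
    have h3 : ((√2 : ℝ) : ℂ) ^ 2 = 2 := by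
      rw [← Complex.ofReal_pow, Real.sq_sqrt (by norm_num)]
      norm_num
    rw [← pow_mul, mul_comm g 2, pow_mul, h3]
  have c7 : ((Complex.I * ((√7 : ℝ) : ℂ)) ^ g) ^ 2 = (-7) ^ g := by
    have h3 : (Complex.I * ((√7 : ℝ) : ℂ)) ^ 2 = -7 := by
      rw [mul_pow, Complex.I_sq, ← Complex.ofReal_pow, Real.sq_sqrt (by norm_num)]
      norm_num
    rw [← pow_mul, mul_comm g 2, pow_mul, h3]
  have hY2 : Y ^ 2 = ((Algebra.norm ℚ (dL n u i b S) : ℚ) : ℂ) := by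
    rw [l2_nd, ← hg, hY, mul_pow, mul_pow, mul_pow, ← Finset.prod_pow]
    push_cast
    congr 1
    · congr 1
      · congr 1
        · rcases Int.isUnit_iff.1 (u.isUnit.map (Algebra.norm ℤ)) with h6 | h6
          · rw [h6, if_neg (by norm_num)]
            norm_num
          · rw [h6, if_pos rfl, Complex.I_sq]
            norm_num
        · cases i
          · simp
          · simp only [if_true]
            rw [c2]
            push_cast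
            rfl
      · cases b
        · simp
        · simp only [if_true]
          rw [c7]
          push_cast
          rfl
    · refine Finset.prod_congr rfl fun v _ => ?_
      rw [hyv, hB v]
  have hyvσ : ∀ v ∈ S, σ (yv v) = ((TT.qr v.1 (t : 𝓞 L) : ℤ) : ℂ) * yv v := by
    intro v hv
    rw [hyv]
    simp only
    rw [map_mul, f2_sqrt_v v.1 v.2.1 σ hm ht hσ (hS v hv), map_natCast]
    ring
  have hYσ : σ Y = (((∏ v ∈ S, TT.qr v.1 (t : 𝓞 L)) * ((if Algebra.norm ℤ (u : 𝓞 L) = -1 then e4 else 1) *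
        (if i then e8 else 1)) : ℤ) : ℂ) * Y := by
    have a1 : σ (if Algebra.norm ℤ (u : 𝓞 L) = -1 then Complex.I else 1) =
        ((if Algebra.norm ℤ (u : 𝓞 L) = -1 then e4 else 1 : ℤ) : ℂ) * (if Algebra.norm ℤ (u : 𝓞 L) = -1 then Complex.I else 1) := by
      split_ifs
      · exact hI
      · rw [map_one, Int.cast_one, one_mul]
    have a2 : σ (if i then ((√2 : ℝ) : ℂ) ^ g else 1) = ((if i then e8 else 1 : ℤ) : ℂ) * (if i then ((√2 : ℝ) : ℂ) ^ g else 1) := by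
      cases i
      · simp
      · simp only [if_true]
        rw [map_pow, h2, mul_pow, ← Int.cast_pow, h8']
    have a3 : σ (if b then (Complex.I * (√7 : ℝ)) ^ g else 1) = if b then (Complex.I * (√7 : ℝ)) ^ g else 1 := by
      cases b
      · simp
      · simp only [if_true]
        rw [map_pow, hr]
    have a4 : σ (∏ v ∈ S, yv v) = ((∏ v ∈ S, TT.qr v.1 (t : 𝓞 L) : ℤ) : ℂ) * ∏ v ∈ S, yv v := by
      rw [map_prod, Finset.prod_congr rfl hyvσ, Finset.prod_mul_distrib, Int.cast_prod]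
    rw [hY, map_mul, map_mul, map_mul, a1, a2, a3, a4]
    simp only [Int.cast_mul]
    ring
  -- compare
  set y : ℂ := Complex.I ^ ng (dL n u i b S) * ((√|((Algebra.norm ℚ (dL n u i b S) : ℚ) : ℝ)| : ℝ) : ℂ) with hy
  have hy2 : y ^ 2 = ((Algebra.norm ℚ (dL n u i b S) : ℚ) : ℂ) := by
    have h3 := congrArg (fun x : ℝ => (x : ℂ)) (l2_sg (dL n u i b S))
    rw [hy, mul_pow, ← pow_mul, mul_comm (ng _), pow_mul, Complex.I_sq, ← Complex.ofReal_pow, Real.sq_sqrt (abs_nonneg _)]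
    have h4 : (((Algebra.norm ℚ (dL n u i b S) : ℚ) : ℝ) : ℂ) = ((Algebra.norm ℚ (dL n u i b S) : ℚ) : ℂ) := by
      push_cast
      rfl
    rw [← h4, h3]
    push_cast
    ring
  rcases sq_eq_sq_iff_eq_or_eq_neg.1 (hy2.trans hY2.symm) with h | h
  · rw [h, hYσ]
  · rw [h, map_neg, hYσ]
    ring

/-- the general form: `Φ` invariant under conjugation -/
theorem l2_main {s : Bool} {z : HeightOneSpectrum (𝓞 M) → 𝓞 M} (hz : ∀ P, (2 : 𝓞 M) ∉ P.asIdeal → NG D s P (z P))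
    {n : HeightOneSpectrum (𝓞 L) → 𝓞 L} (hn : ∀ v : OQ L, NL v.1 (n v.1)) (u : (𝓞 L)ˣ) (i b : Bool) {S : Finset (OQ L)}
    {T : Finset (HeightOneSpectrum (𝓞 M))} (hT : ∀ P, P ∈ T ↔ (7 : 𝓞 M) ∈ P.asIdeal ∨ ∃ v ∈ S, a7a_pi (L := L) P = v.1)
    {Φ : Ideal (𝓞 M) →*₀ ℂ} (hΦ : TRZ.PhiK D s T (TRZ.kp (TRZ.cd D s T z u) i) (TRZ.kp (u : 𝓞 L) i) Φ)
    {Z : ℂ → ℂ} (hZd : Differentiable ℂ Z)
    (hZ : ∀ t : ℂ, 3 / 2 < t.re → Z t = ∑' I : Ideal (𝓞 M), conj (Φ I) * (absNorm I : ℂ) ^ (-t)) (hreal : conj (Z 1) = Z 1) :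
    ∃ q : ℚ, Z 1 * ((√|(discr L : ℝ)| : ℝ) : ℂ) * ((√|((Algebra.norm ℚ (dL n u i b S) : ℚ) : ℝ)| : ℝ) : ℂ) /
        (((√7 : ℝ) : ℂ) ^ ng (dL n u i b S) * ((TRS.Om : ℝ) : ℂ) ^ Module.finrank ℚ L) = q := by
  have H := dL_DK hD hz hn u i b hT
  have hu : (u : 𝓞 L) ∉ span {(2 : 𝓞 L)} := fun h => hD.two.ne_top (Ideal.eq_top_of_isUnit_mem _ h u.isUnit)
  have hf := h2_gd hD (h2_cd_not hD H) i
  have hf' := h2_gd hD hu i
  have hSg := h3_Sg hD H.two hf hf' hΦ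
  obtain ⟨halg, hact⟩ := h3_act D hD.odd hSg (h3_ChB hD hf hf' hΦ) hZd hZ
  set m : ℕ := 8 * ∏ P ∈ T, absNorm P.asIdeal with hm
  set N : ℚ := Algebra.norm ℚ (dL n u i b S) with hN
  set k : ℕ := ng (dL n u i b S) with hk
  set X : ℂ := Z 1 * (((√|(discr L : ℝ)| : ℝ) : ℂ) / ((TRS.Om : ℝ) : ℂ) ^ Module.finrank ℚ L) with hX
  set y : ℂ := Complex.I ^ k * ((√|(N : ℝ)| : ℝ) : ℂ) with hy
  have h7 : ((√7 : ℝ) : ℂ) ≠ 0 := Complex.ofReal_ne_zero.2 (Real.sqrt_pos.2 (by norm_num)).ne'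
  have hOm : ((TRS.Om : ℝ) : ℂ) ≠ 0 := by exact_mod_cast TRS.Om_pos.ne'
  have hform : Z 1 * ((√|(discr L : ℝ)| : ℝ) : ℂ) * ((√|(N : ℝ)| : ℝ) : ℂ) /
        (((√7 : ℝ) : ℂ) ^ k * ((TRS.Om : ℝ) : ℂ) ^ Module.finrank ℚ L) = X * y / (Complex.I * (√7 : ℝ)) ^ k := by
    rw [hX, hy, mul_pow]
    have hI : Complex.I ^ k ≠ 0 := pow_ne_zero _ Complex.I_ne_zero
    field_simp
  refine TRS.rational_of_fixed _ ?_ ?_ fun σ hσ => ?_
  · rw [hform]
    have halgI : IsAlgebraic ℚ Complex.I := by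
      refine ⟨Polynomial.X ^ 2 - Polynomial.C (-1 : ℚ), (Polynomial.monic_X_pow_sub_C _ (by norm_num)).ne_zero, ?_⟩
      simp [Complex.I_sq]
    have halgs : ∀ r : ℝ, 0 ≤ r → (∃ q : ℚ, r = (q : ℝ)) → IsAlgebraic ℚ ((√r : ℝ) : ℂ) := by
      rintro r hr ⟨q, rfl⟩
      refine ⟨Polynomial.X ^ 2 - Polynomial.C q, (Polynomial.monic_X_pow_sub_C _ (by norm_num)).ne_zero, ?_⟩
      simp only [map_sub, map_pow, Polynomial.aeval_X, Polynomial.aeval_C]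
      rw [← Complex.ofReal_pow, Real.sq_sqrt hr]
      simp
    have a1 : IsAlgebraic ℚ y := (halgI.pow k).mul (halgs _ (abs_nonneg _) ⟨|N|, by push_cast; rfl⟩)
    have a2 : IsAlgebraic ℚ ((Complex.I * (√7 : ℝ)) ^ k) := (halgI.mul (halgs 7 (by norm_num) ⟨7, by norm_num⟩)).pow k
    rw [div_eq_mul_inv]
    exact (halg.mul a1).mul a2.inv
  · have h1 : Z 1 = (((Z 1).re : ℝ) : ℂ) := (Complex.conj_eq_iff_real.1 hreal).elim fun r hr => by rw [hr]; simp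
    have h6 : Z 1 * ((√|(discr L : ℝ)| : ℝ) : ℂ) * ((√|(N : ℝ)| : ℝ) : ℂ) /
        (((√7 : ℝ) : ℂ) ^ k * ((TRS.Om : ℝ) : ℂ) ^ Module.finrank ℚ L) =
        (((Z 1).re * √|(discr L : ℝ)| * √|(N : ℝ)| / (√7 ^ k * TRS.Om ^ Module.finrank ℚ L) : ℝ) : ℂ) := by
      conv_lhs => rw [h1]
      push_cast
      rfl
    rw [h6]
    exact Complex.ofReal_im _
  · rw [hform]
    obtain ⟨a, c, ha7, ht, hee, hX'⟩ := hact σ hσ
    obtain ⟨R, hR⟩ := se4_R D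
    have hRT : R ∈ T := by
      rw [hT]
      left
      rw [n1_rr_iff D, hR]
      exact Ideal.mem_span_singleton_self _
    have hdvd : ∀ P ∈ T, absNorm P.asIdeal ∣ m := fun P hP =>
      Dvd.dvd.mul_left (Finset.dvd_prod_of_mem (fun P : HeightOneSpectrum (𝓞 M) => absNorm P.asIdeal) hP) _
    have h7m : 7 ∣ m := by
      refine Dvd.dvd.trans ?_ (hdvd R hRT)
      rw [hR, a7e_absNorm D]
      exact dvd_pow_self _ (Module.finrank_pos (R := ℚ) (M := L)).ne'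
    have h8 : 8 ∣ m := Dvd.intro _ rfl
    set t : ℤ := a ^ 2 - 7 * a * c + 14 * c ^ 2 with htd
    have ht2 : t % 2 = 1 := by
      have h4 : IsCoprime t 2 := by
        obtain ⟨w, hw⟩ := h8
        have h5 : ((m : ℕ) : ℤ) = 2 * (4 * (w : ℤ)) := by
          rw [hw]
          push_cast
          ring
        rw [h5] at ht
        exact ht.of_mul_right_left
      obtain ⟨x, v, huv⟩ := h4
      rcases Int.emod_two_eq_zero_or_one t with h5 | h5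
      · exfalso
        obtain ⟨w, hw⟩ := Int.dvd_of_emod_eq_zero h5
        rw [hw] at huv
        have h6 : 2 * (x * w + v) = 1 := by linarith
        omega
      · exact h5
    have hvm : ∀ v ∈ S, absNorm v.1.asIdeal ∣ m := by
      intro v hv
      obtain ⟨Pv, hPv⟩ := exists_Pv D
      refine Dvd.dvd.trans ?_ (hdvd (Pv v) ((hT _).2 (Or.inr ⟨v, hv, hPv v⟩)))
      by_cases hk : kL v = 0
      · rw [split_norm D (kL_zero hk) (hPv v)]
      · rw [← inert_map D (kL_ne hk) (hPv v), TT.absNorm_map D]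
        exact dvd_pow_self _ two_ne_zero
    have hy' := l2_root hD hn u i b S σ hσ hSg.pos h8 hvm ht ht2 hee
    rw [← hN, ← hk, ← hy] at hy'
    rw [l2_sign hD hz hn u i hT (ha7 h7m) htd.symm ht2] at hX'
    have hsq : ((h2S D s T (kp (cd D s T z u) i) (kp (u : 𝓞 L) i) ((a : 𝓞 M) + (c : 𝓞 M) * D.om) : ℤ) : ℂ) *
        ((h2S D s T (kp (cd D s T z u) i) (kp (u : 𝓞 L) i) ((a : 𝓞 M) + (c : 𝓞 M) * D.om) : ℤ) : ℂ) = 1 := by
      exact_mod_cast hSg.int_sq (dvd_refl m) ht (TRH.al_cj D a c)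
    rw [l2_sign hD hz hn u i hT (ha7 h7m) htd.symm ht2] at hsq
    rw [map_div₀, map_pow, hσ, map_mul, hX', hy']
    generalize ((((∏ v ∈ S, TT.qr v.1 (t : 𝓞 L)) * ((if Algebra.norm ℤ (u : 𝓞 L) = -1 then ZMod.χ₄ (t : ZMod 4) else 1) *
        (if i then ZMod.χ₈ (t : ZMod 8) else 1)) : ℤ)) : ℂ) = e at hsq ⊢
    congr 1
    linear_combination X * y * hsq

section
variable {s : Bool} {z : HeightOneSpectrum (𝓞 M) → 𝓞 M} (hz : ∀ P, (2 : 𝓞 M) ∉ P.asIdeal → NG D s P (z P))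
  {n : HeightOneSpectrum (𝓞 L) → 𝓞 L} (hn : ∀ v : OQ L, NL v.1 (n v.1)) (u : (𝓞 L)ˣ) (i b : Bool) {S : Finset (OQ L)}
  {T : Finset (HeightOneSpectrum (𝓞 M))} (hT : ∀ P, P ∈ T ↔ (7 : 𝓞 M) ∈ P.asIdeal ∨ ∃ v ∈ S, a7a_pi (L := L) P = v.1)
  (hκ : ¬ IsSquare (kap u i))

include hz hn hT hκ in
/-- [FINL-2] rationality -/
theorem rational_LX {Φ : Ideal (𝓞 M) →*₀ ℂ} (hΦ : TRZ.PhiK D s T (TRZ.kp (TRZ.cd D s T z u) i) (TRZ.kp (u : 𝓞 L) i) Φ)
    {Z : ℂ → ℂ} (hZd : Differentiable ℂ Z)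
    (hZ : ∀ t : ℂ, 3 / 2 < t.re → Z t = ∑' I : Ideal (𝓞 M), conj (Φ I) * (absNorm I : ℂ) ^ (-t)) :
    ∃ q : ℚ, Z 1 * ((√|(discr L : ℝ)| : ℝ) : ℂ) * ((√|((Algebra.norm ℚ (dL n u i b S) : ℚ) : ℝ)| : ℝ) : ℂ) /
        (((√7 : ℝ) : ℂ) ^ ng (dL n u i b S) * ((TRS.Om : ℝ) : ℂ) ^ Module.finrank ℚ L) = q := by
  have _ := hκ
  exact l2_main hD hz hn u i b hT hΦ hZd hZ
    (l2_real hD (PhiK_conj hD (dL_DK hD hz hn u i b hT) hΦ) hZd hZ)

end

end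

end TRR
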