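import Pool.Agent.TRR.Defs2

/-! # [REAL2-L] common definitions of SPEC3 (verbatim) -/

set_option autoImplicit false

open NumberField Ideal IsDedekindDomain
open scoped Classical

namespace TRR

open TRP

/-- the number of the negative conjugates -/
noncomputable def ng {L : Type} [Field L] [NumberField L] (d : L) : ℕ := (Finset.univ.filter fun j : L →+* ℝ => j d < 0).card

/-- `1` for each inert prime, `2` for each split prime -/
noncomputable def eX {L : Type} [Field L] [NumberField L] (S : Finset (OQ L)) : ℕ := ∑ v ∈ S, if kL v = 0 then 2 else 1

end TRR
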