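import Pool.Agent.TRR.FL3
import Pool.Agent.TRR.Defs3
import Pool.Agent.TRX2.CV8
import Pool.Agent.TTS.P5

/-! # [REAL2-L3] the period over `L` of a twist with bad reduction at `2`, the norm of `d` -/

set_option autoImplicit false
set_option linter.unusedSectionVars false

open NumberField Ideal IsDedekindDomain Filter Topology
open scoped Real Classical ComplexConjugate
open TR TRG TTS TU TT XTB TRP TRZ

namespace TRR

theorem l3_ws_ne {F : Type} [Field F] [CharZero F] {δ : F} (hδ : δ ≠ 0) : (Ws δ).Δ ≠ 0 := by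
  have hMδ : (0 : F) ^ 2 + 4 * (δ / 4) = δ := by ring
  obtain ⟨C2, hC2, -⟩ := Wc_eq_Ws (0 : F) (δ / 4)
  rw [hMδ] at hC2
  intro h0
  have h1 : (TT.Wc (0 : F) (δ / 4)).Δ ≠ 0 := by
    rw [TT.Wc_Δ]
    refine mul_ne_zero (by norm_num) (pow_ne_zero _ ?_)
    rw [hMδ]
    exact hδ
  apply h1
  rw [hC2, WeierstrassCurve.variableChange_Δ, h0, mul_zero]

theorem l3_map {F K : Type} [Field F] [Field K] (φ : F →+* K) (δ : F) : (Ws δ).map φ = Ws (φ δ) := by
  have h35 : φ 35 = 35 := map_ofNat φ 35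
  have h98 : φ 98 = 98 := map_ofNat φ 98
  unfold Ws WeierstrassCurve.map
  ext <;> simp [h35, h98]

theorem l3_two_pow (a : ℕ) : padicValRat 2 ((2 : ℚ) ^ a) = a := by
  have : Fact (Nat.Prime 2) := ⟨Nat.prime_two⟩
  rw [padicValRat.pow]
  have h : padicValRat 2 (2 : ℚ) = 1 := by
    have := padicValRat.self (p := 2) (by norm_num)
    exact_mod_cast this
  rw [h, mul_one]

theorem l3_real {x : ℝ} (h : x ≠ 0) : SBSD.realPeriod (Ws x) = TRS.Om * (if x < 0 then √7 else 1) / (2 * √|x|) := by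
  split_ifs with h1
  · rw [realPeriod_Ws_neg h1, abs_of_neg h1, mul_comm (√7)]
  · have h2 : 0 < x := lt_of_le_of_ne (not_lt.1 h1) h.symm
    rw [realPeriod_Ws_pos h2, abs_of_pos h2, mul_one]

section
variable {L : Type} [Field L] [NumberField L] [IsTotallyReal L]

/-- the product of the real periods -/
theorem l3_arch {d : L} (hd : d ≠ 0) :
    (∏ v : InfinitePlace L, SBSD.archPeriod (Ws d) v) * √|((Algebra.norm ℚ d : ℚ) : ℝ)| =
      TRS.Om ^ Module.finrank ℚ L * √7 ^ ng d / 2 ^ Module.finrank ℚ L := by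
  have h1 : ∏ v : InfinitePlace L, SBSD.archPeriod (Ws d) v = ∏ j : L →+* ℝ, SBSD.realPeriod (Ws (j d)) := by
    refine Fintype.prod_bijective _ p5_bij _ _ fun v => ?_
    unfold SBSD.archPeriod
    rw [dif_pos (IsTotallyReal.isReal v), l3_map]
  have h2 : ∏ j : L →+* ℝ, |j d| = |((Algebra.norm ℚ d : ℚ) : ℝ)| := by
    have h3 := InfinitePlace.prod_eq_abs_norm d
    have h4 : ∏ w : InfinitePlace L, w d ^ w.mult = ∏ j : L →+* ℝ, |j d| := by
      refine Fintype.prod_bijective _ p5_bij _ _ fun v => ?_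
      have h5 : v.mult = 1 := InfinitePlace.mult_isReal ⟨v, IsTotallyReal.isReal v⟩
      rw [h5, pow_one, ← InfinitePlace.norm_embedding_of_isReal (IsTotallyReal.isReal v), Real.norm_eq_abs]
    rw [← h4, h3]
    push_cast
    rfl
  have hne : ∀ j : L →+* ℝ, j d ≠ 0 := fun j => (map_ne_zero j).2 hd
  have hpos : 0 < √(∏ j : L →+* ℝ, |j d|) := Real.sqrt_pos.2 (Finset.prod_pos fun j _ => abs_pos.2 (hne j))
  rw [h1, ← h2, Finset.prod_congr rfl fun j _ => l3_real (hne j), Finset.prod_div_distrib, Finset.prod_mul_distrib,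
    Finset.prod_mul_distrib, Finset.prod_const, Finset.prod_const, Finset.card_univ, TR.card_real,
    ← Real.sqrt_prod _ (fun j _ => abs_nonneg _)]
  have h6 : ∏ j : L →+* ℝ, (if j d < 0 then √7 else 1 : ℝ) = √7 ^ ng d := by
    unfold ng
    rw [← Finset.prod_filter, Finset.prod_const]
  rw [h6]
  field_simp

theorem l3_norm_coe (x : 𝓞 L) : |Algebra.norm ℚ (x : L)| = (absNorm (span {x}) : ℚ) := by
  rw [Ideal.absNorm_span_singleton, ← Algebra.coe_norm_int, Nat.cast_natAbs]
  push_cast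
  rfl

end

section
variable {L M : Type} [Field L] [NumberField L] [Field M] [NumberField M] [Algebra L M]
  [IsTotallyReal L] {D : Dat L M} (hD : Od2 D)
include hD

section
variable {n : HeightOneSpectrum (𝓞 L) → 𝓞 L} (hn : ∀ v : OQ L, NL v.1 (n v.1)) (u : (𝓞 L)ˣ) (i b : Bool) {S : Finset (OQ L)}

include hn in
/-- the valuation of `d` at `2` -/
theorem l3_val (S : Finset (OQ L)) : (V2 hD).valuation L (dL n u i b S) = if i then WithZero.exp (-1 : ℤ) else 1 := by
  have h2 : (2 : 𝓞 L) ∈ (V2 hD).asIdeal := (V2_iff hD _).2 rfl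
  have h7 : (7 : 𝓞 L) ∉ (V2 hD).asIdeal := lf_seven_two h2
  have e1 : (V2 hD).valuation L ((if b then -7 else 1 : L)) = 1 := by
    cases b
    · exact map_one _
    · have h2 : ((7 : 𝓞 L) : L) = 7 := map_ofNat (algebraMap (𝓞 L) L) 7
      change (V2 hD).valuation L (-7) = 1
      rw [Valuation.map_neg, ← h2]
      exact ((V2 hD).valuation_eq_one_iff_notMem (K := L)).2 h7
  have e2 : (V2 hD).valuation L (∏ v ∈ S, ((n v.1 : 𝓞 L) : L)) = 1 := by
    rw [map_prod]
    refine Finset.prod_eq_one fun w _ => ?_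
    exact ((V2 hD).valuation_eq_one_iff_notMem (K := L)).2 (lf_notMem hn w (V2 hD) (ne_V2 hn hD w).symm)
  have e3 : (V2 hD).valuation L ((kap u i : 𝓞 L) : L) = if i then WithZero.exp (-1 : ℤ) else 1 := by
    unfold kap
    rw [cmul, map_mul, val_unit, one_mul]
    cases i
    · rw [if_neg Bool.false_ne_true, if_neg Bool.false_ne_true, cone, map_one]
    · rw [if_pos rfl, if_pos rfl, HeightOneSpectrum.valuation_of_algebraMap]
      exact HeightOneSpectrum.intValuation_singleton (V2 hD) two_ne_zero rfl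
  unfold dL
  rw [map_mul, map_mul, e1, e2, e3, mul_one, mul_one]

theorem l3_two_sq : (2 : 𝓞 L) ∉ (V2 hD).asIdeal ^ 2 := by
  intro h
  have h1 := (HeightOneSpectrum.intValuation_le_pow_iff_mem (V2 hD) (2 : 𝓞 L) 2).2 h
  rw [HeightOneSpectrum.intValuation_singleton (V2 hD) two_ne_zero rfl] at h1
  rw [WithZero.exp_le_exp] at h1
  norm_num at h1

include hn in
/-- the Neron factors at the primes above `2` -/
theorem l3_neron (S : Finset (OQ L)) (hκ : ¬ IsSquare (kap u i)) (v : HeightOneSpectrum (𝓞 L)) (hv : (2 : 𝓞 L) ∈ v.asIdeal) :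
    SBSD.neron (Ws (dL n u i b S)) v = 1 := by
  obtain rfl := (V2_iff hD v).1 hv
  refine TRX2.neron_ram (V2 hD) hv (l3_two_sq hD) ?_ fun h => hκ ((dL_ur hD hn u i b S).1 h)
  rw [l3_val hD hn]
  split_ifs
  · exact Or.inr rfl
  · exact Or.inl rfl

variable (hκ : ¬ IsSquare (kap u i))

include hn hκ in
/-- [FINL-3] the period: the model `Ws d` is minimal at `2` (`v₂(d) = 0, 1`, `d` ramified at `2`) -/
theorem period_LX (C : WeierstrassCurve.VariableChange L) :
    ∃ q : ℚ, 0 < q ∧ padicValRat 2 q = -(Module.finrank ℚ L : ℤ) ∧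
      SBSD.period (C • TTS.Ws (dL n u i b S)) * √|((Algebra.norm ℚ (dL n u i b S) : ℚ) : ℝ)| =
        (q : ℝ) * √7 ^ ng (dL n u i b S) * TRS.Om ^ Module.finrank ℚ L := by
  have : Fact (Nat.Prime 2) := ⟨Nat.prime_two⟩
  have hd := dL_ne hD hn u i b S
  obtain ⟨q, hq, hv, hneron⟩ := TW.neron_unit L (Ws (dL n u i b S)) (fun P hP => l3_neron hD hn u i b S hκ P hP)
  refine ⟨q / 2 ^ Module.finrank ℚ L, by positivity, ?_, ?_⟩
  · rw [padicValRat.div hq.ne' (by positivity), hv, l3_two_pow, zero_sub]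
  · rw [period_smul _ (l3_ws_ne hd), SBSD.period, hneron]
    have h1 := l3_arch hd
    push_cast
    linear_combination (q : ℝ) * h1

include hn in
/-- [FINL-3] the norm of `d` against `NN` of TRZ -/
theorem norm_LX : ∃ B B' : ℕ, Odd B ∧ Odd B' ∧ |Algebra.norm ℚ (dL n u i b S)| * B =
    (7 : ℚ) ^ (Module.finrank ℚ L * if b then 1 else 0) * 2 ^ (Module.finrank ℚ L * if i then 1 else 0) * (∏ v ∈ S, (absNorm v.1.asIdeal : ℚ)) * B' := by
  have hprod : ∃ B' : ℕ, Odd B' ∧ absNorm (span {∏ v ∈ S, n v.1}) = (∏ v ∈ S, absNorm v.1.asIdeal) * B' := by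
    induction S using Finset.induction_on with
    | empty => exact ⟨1, odd_one, by simp⟩
    | insert v U hv ih =>
      obtain ⟨B, hB, h1⟩ := ih
      obtain ⟨⟨k, ⟨l, hl⟩, h3⟩, -⟩ := hn v
      have hodd : Odd (absNorm v.1.asIdeal) := TRB.f1_odd_norm v.2.1
      refine ⟨absNorm v.1.asIdeal ^ (2 * l) * B, hodd.pow.mul hB, ?_⟩
      rw [Finset.prod_insert hv, Finset.prod_insert hv, ← Ideal.span_singleton_mul_span_singleton,
        map_mul, h1, h3, map_pow, hl]
      ring
  obtain ⟨B', hB', h1⟩ := hprod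
  refine ⟨1, B', odd_one, hB', ?_⟩
  have h2 : ∀ m : ℕ, absNorm (span {((m : ℕ) : 𝓞 L)}) = m ^ Module.finrank ℚ L := by
    intro m
    have h3 := Ideal.absNorm_span_natCast (S := 𝓞 L) m
    rw [h3, RingOfIntegers.rank]
  have h3 : absNorm (span {(if i then 2 else 1 : 𝓞 L)}) = 2 ^ (Module.finrank ℚ L * if i then 1 else 0) := by
    cases i
    · simp
    · have := h2 2
      rw [if_pos rfl, if_pos rfl, mul_one]
      exact_mod_cast this
  have h4 : absNorm (span {(if b then -7 else 1 : 𝓞 L)}) = 7 ^ (Module.finrank ℚ L * if b then 1 else 0) := by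
    cases b
    · simp
    · have := h2 7
      rw [if_pos rfl, if_pos rfl, mul_one, Ideal.span_singleton_neg]
      exact_mod_cast this
  have h5 : absNorm (span {((u : (𝓞 L)ˣ) : 𝓞 L)}) = 1 := by
    rw [Ideal.span_singleton_eq_top.2 u.isUnit, ← Ideal.one_eq_top, map_one]
  have h6 : absNorm (span {el n u i b S}) = 7 ^ (Module.finrank ℚ L * if b then 1 else 0) * 2 ^ (Module.finrank ℚ L * if i then 1 else 0) *
      (∏ v ∈ S, absNorm v.1.asIdeal) * B' := by
    unfold el kl
    rw [← Ideal.span_singleton_mul_span_singleton, ← Ideal.span_singleton_mul_span_singleton, ← Ideal.span_singleton_mul_span_singleton,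
      map_mul, map_mul, map_mul, h1, h3, h4, h5]
    ring
  rw [← el_coe, l3_norm_coe, h6]
  push_cast
  ring

end

end

end TRR
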