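import Pool.Agent.TRR.FL3
import Pool.Agent.TRR.Defs3
import Pool.Agent.TRB.F4
import Pool.Agent.TRX2.CV8

/-! # [REAL2-L3] Tamagawa numbers over `L` of the curves with bad reduction at `2` -/

set_option autoImplicit false
set_option linter.unusedSectionVars false

open NumberField Ideal IsDedekindDomain Filter Topology
open scoped Real Classical ComplexConjugate
open TR TRG TTS TU TT XTB TRP TRZ

namespace TRR

section
variable {L M : Type} [Field L] [NumberField L] [Field M] [NumberField M] [Algebra L M]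
  [IsTotallyReal L] {D : Dat L M} (hD : Od2 D)
include hD

theorem V2_sq : (2 : 𝓞 L) ∉ (V2 hD).asIdeal ^ 2 := by
  intro h
  have h1 : (V2 hD).asIdeal ^ 2 = span {(2 : 𝓞 L) ^ 2} := by
    have h2 : (V2 hD).asIdeal = span {(2 : 𝓞 L)} := rfl
    rw [h2, Ideal.span_singleton_pow]
  rw [h1, Ideal.mem_span_singleton] at h
  obtain ⟨c, hc⟩ := h
  have h20 : (2 : 𝓞 L) ≠ 0 := by norm_num
  have h2 : (2 : 𝓞 L) * (2 * c) = 2 * 1 := by
    rw [mul_one, ← mul_assoc, ← pow_two]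
    exact hc.symm
  have h3 := mul_left_cancel₀ h20 h2
  apply hD.two.ne_top
  rw [Ideal.eq_top_iff_one, Ideal.mem_span_singleton]
  exact ⟨c, h3.symm⟩

variable {n : HeightOneSpectrum (𝓞 L) → 𝓞 L} (hn : ∀ v : OQ L, NL v.1 (n v.1)) (u : (𝓞 L)ˣ) (i b : Bool) {S : Finset (OQ L)}
  (hκ : ¬ IsSquare (kap u i))

include hn hκ in
/-- [FINL-3] Tamagawa numbers: `2` at `7`, `4` at `2`, `4` at the split and `2` at the inert primes of `S` -/
theorem tam_LX (C : WeierstrassCurve.VariableChange L) :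
    ∏ᶠ v : HeightOneSpectrum (𝓞 L), SBSD.tam (C • TTS.Ws (dL n u i b S)) v = 8 * 2 ^ eX S := by
  have hd0 := dL_ne hD hn u i b S
  have h2V : (2 : 𝓞 L) ∈ (V2 hD).asIdeal := (V2_iff hD _).2 rfl
  have h7V : (7 : 𝓞 L) ∈ (V7 D).asIdeal := (V7_iff D _).2 rfl
  obtain ⟨s, hs7, hs72, huniq⟩ := TRB.f4_s (TRB.ofTR D)
  have hsV : V7 D = s := huniq _ h7V
  rw [← hsV] at hs72
  have hV : V2 hD ∉ insert (V7 D) (S.image fun v : OQ L => v.1) := by
    rw [Finset.mem_insert, not_or, Finset.mem_image]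
    refine ⟨V27_ne hD, ?_⟩
    rintro ⟨v, -, hv⟩
    exact ne_V2 hn hD v hv
  have hV' : V7 D ∉ S.image fun v : OQ L => v.1 := by
    rw [Finset.mem_image]
    rintro ⟨v, -, hv⟩
    exact ne_V7 hn D v hv
  have hsupp : Function.mulSupport (fun v : HeightOneSpectrum (𝓞 L) => SBSD.tam (C • Ws (dL n u i b S)) v) ⊆
      ↑(insert (V2 hD) (insert (V7 D) (S.image fun v : OQ L => v.1))) := by
    intro v hv
    rw [Function.mem_mulSupport] at hv
    rw [Finset.mem_coe, Finset.mem_insert, Finset.mem_insert, Finset.mem_image]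
    by_contra hcon
    rw [not_or, not_or] at hcon
    apply hv
    have h2v : (2 : 𝓞 L) ∉ v.asIdeal := fun h => hcon.1 ((V2_iff hD v).1 h)
    have h7v : (7 : 𝓞 L) ∉ v.asIdeal := fun h => hcon.2.1 ((V7_iff D v).1 h)
    refine tam_good v ?_ h7v C
    rw [ur_iff_val h2v hd0, ← el_coe, val_el_odd hn hD u i b S ⟨v, h2v, h7v⟩]
    intro h
    exact hcon.2.2 ⟨_, h, rfl⟩
  rw [finprod_eq_prod_of_mulSupport_subset _ hsupp, Finset.prod_insert hV, Finset.prod_insert hV']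
  have h2 : SBSD.tam (C • Ws (dL n u i b S)) (V2 hD) = 4 :=
    TRX2.tam_ram (V2 hD) h2V (V2_sq hD) hd0 (fun h => hκ ((dL_ur hD hn u i b S).1 h)) C
  have h7 : SBSD.tam (C • Ws (dL n u i b S)) (V7 D) = 2 := by
    obtain ⟨r1, r2⟩ := exists_rep (V7 D) hd0
    by_cases hsq : IsSquare ((V7 D).valuation L (dL n u i b S))
    · obtain ⟨t, d₀, ht, h1, h2⟩ := r1 hsq
      obtain ⟨C', hC'⟩ := tam_loc (V7 D) (dL n u i b S) ht h1 C
      rw [hC']
      exact tam_seven (V7 D) h7V hs72 (Or.inl h2) C'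
    · obtain ⟨t, d₀, ht, h1, h2⟩ := r2 hsq
      obtain ⟨C', hC'⟩ := tam_loc (V7 D) (dL n u i b S) ht h1 C
      rw [hC']
      exact tam_seven (V7 D) h7V hs72 (Or.inr h2) C'
  have hS : ∀ v ∈ S, SBSD.tam (C • Ws (dL n u i b S)) v.1 = 2 ^ (if kL v = 0 then 2 else 1) := by
    intro v hv
    have hval : ¬ IsSquare (v.1.valuation L (dL n u i b S)) := by
      rw [← el_coe, val_el_odd hn hD u i b S v]
      exact fun h => h hv
    obtain ⟨t, d₀, ht, h1, h2⟩ := (exists_rep v.1 hd0).2 hval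
    obtain ⟨C', hC'⟩ := tam_loc v.1 (dL n u i b S) ht h1 C
    rw [hC']
    unfold kL
    rcases TRB.c7_absNorm v.2.2 with h3 | h3
    · rw [TRB.tam_spl v.1 v.2.1 v.2.2 h3 h2 C', if_pos h3, if_pos rfl]
      norm_num
    · rw [TRB.tam_inert v.1 v.2.1 v.2.2 h3 h2 C', if_neg (show ¬ c7 (absNorm v.1.asIdeal) = 1 by rw [h3]; norm_num),
        if_neg one_ne_zero, pow_one]
  rw [h2, h7, Finset.prod_image fun v _ w _ h => Subtype.ext h, Finset.prod_congr rfl hS, Finset.prod_pow_eq_pow_sum]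
  unfold eX
  ring

end

end TRR
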