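import Pool.Agent.TRR.L4a
import Pool.Agent.TRR.FL4
import Pool.Agent.TRR.L3P
import Pool.Agent.TRR.L3t
import Pool.Agent.TRR.X7d
import Pool.Agent.TRR.X7e
import Pool.Agent.TRR.L1
import Pool.Agent.TRR.L2
import Pool.Agent.TRZ.CL

/-! # [REAL2-L4] BSD modulo 2 over `L` for all allowed twists -/

set_option autoImplicit false
set_option linter.unusedSectionVars false

open NumberField Ideal IsDedekindDomain Filter Topology
open scoped Real Classical ComplexConjugate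
open TR TRG TTS TU TT XTB TRP CM27 CMT GE

namespace TRR

section
variable {L M : Type} [Field L] [NumberField L] [Field M] [NumberField M] [Algebra L M]
  [IsTotallyReal L] {D : Dat L M} (hD : Od2 D)
include hD

/-- both primes above `2` are ramified -/
theorem l4_rm {u : (𝓞 L)ˣ} {i : Bool} (hκ : ¬ IsSquare (kap u i)) : TRZ.Rm (u : 𝓞 L) i := by
  by_cases hi : i = true
  · exact Or.inl hi
  · refine Or.inr fun h => hκ ?_
    obtain ⟨w, hw⟩ := TRZ.q4_unit hD h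
    rw [kap_iff hD]
    exact ⟨by simpa using hi, w, hw⟩

/-- [FINL-4] **BSD modulo 2 over `L`** (bad reduction at `2`) -/
theorem modTwo_LX (Ψ : PsiDat D) {n : HeightOneSpectrum (𝓞 L) → 𝓞 L} (hn : ∀ v : OQ L, NL v.1 (n v.1)) (u : (𝓞 L)ˣ) (i b : Bool) (S : Finset (OQ L))
    (hκ : ¬ IsSquare (kap u i)) {E : WeierstrassCurve L} {C C' : WeierstrassCurve.VariableChange L}
    (hE : E = C • TTS.Ws (dL n u i b S)) (hE' : E = C' • Wd (dL n u i b S)) : TRB.ModTwo E := by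
  have hd := dL_ne hD hn u i b S
  have hdM : algebraMap L M (dL n u i b S) ≠ 0 := by
    rw [Ne, map_eq_zero]
    exact hd
  refine ⟨TRB.m1_ell hd hE, ?_⟩
  obtain ⟨V, hV⟩ := exists_V
  obtain ⟨s, hs⟩ := TRZ.f1_side hV
  obtain ⟨T, hT⟩ := l4_T M S
  have hz : ∀ t : Bool, ∀ P : HeightOneSpectrum (𝓞 M), ∃ q : 𝓞 M, (2 : 𝓞 M) ∉ P.asIdeal → NG D t P q := by
    intro t P
    by_cases hP : (2 : 𝓞 M) ∉ P.asIdeal
    · obtain ⟨q, hq⟩ := exists_NG hD t hP
      exact ⟨q, fun _ => hq⟩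
    · exact ⟨0, fun h => absurd h hP⟩
  choose zz hzz using hz
  have hz := hzz s
  have hz' := hzz (!s)
  generalize zz s = z at hz
  generalize zz (!s) = z' at hz'
  have H := dL_DK hD hz hn u i b hT
  have H' := dL_DK hD hz' hn u i b hT
  have hN : ∀ t, TRZ.Nsq D t (algebraMap L M (dL n u i b S)) :=
    (dL_nsq hD hn u i b S).2 fun h => absurd h hκ
  have hrm := l4_rm hD hκ
  obtain ⟨-, -, -, hR1, -, -, -⟩ := TRZ.DK.other hD H H'
  have hrm' : TRZ.Rm (TRZ.cd D s T z u) i := hR1.1 hrm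
  have hfs : TRB.FiniteSha E ↔ TRZ.GT D s T z u i i ≠ 0 ∧ TRZ.GT D (!s) T z' u i i ≠ 0 := by
    rw [← TRZ.sel_iff hD H (hN s) (hN (!s)), ← TRZ.sel_iff hD H' (hN (!s)) (hN (!(!s))), hE,
      rl_finiteSha (TRB.ofTR D) hd C (C.map (algebraMap L M)), TRZ.finiteSha_iff hD hdM hN]
    constructor
    · exact fun h => ⟨h _, h _⟩
    · rintro ⟨h1, h2⟩ b
      cases s <;> cases b <;> assumption
  obtain ⟨Φ, hΦ⟩ := TRZ.exists_PhiK hD H Ψ
  obtain ⟨Z, hZd, hZ⟩ := TRZ.exists_ZK hD H hΦ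
  obtain ⟨Q, hQ⟩ := TRZ.rational_K hD H hΦ hZd hZ
  obtain ⟨ζ, ζ', h1, h2, hvQ⟩ := TRZ.f2_val hD Ψ H H' hN hV hs hΦ hZd hZ hQ
  rw [if_pos hrm, if_pos hrm', add_zero, mul_zero, mul_zero, add_zero, add_zero] at hvQ
  obtain ⟨hser, hreal⟩ := series_LX hD hz hn u i b hT hκ hΦ hZd hZ C'
  rw [← hE'] at hser
  obtain ⟨q, hq⟩ := rational_LX hD hz hn u i b hT hκ hΦ hZd hZ
  have hcardT := l4_card D hT
  have : Fact (Nat.Prime 2) := ⟨Nat.prime_two⟩
  obtain ⟨g, hg⟩ : ∃ g, g = Module.finrank ℚ L := ⟨_, rfl⟩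
  obtain ⟨e, he⟩ : ∃ e, e = eX S := ⟨_, rfl⟩
  obtain ⟨k, hk⟩ : ∃ k, k = ng (dL n u i b S) := ⟨_, rfl⟩
  obtain ⟨A, hA⟩ : ∃ A : ℚ, A = |Algebra.norm ℚ (dL n u i b S)| := ⟨_, rfl⟩
  have hA0 : A ≠ 0 := by
    rw [hA, Ne, abs_eq_zero]
    exact Algebra.norm_ne_zero_iff.2 hd
  have h2v : padicValRat 2 (2 : ℚ) = 1 := q1_v2
  have hodd : ∀ m : ℕ, Odd m → padicValRat 2 (m : ℚ) = 0 := fun m hm => q1_odd hm
  -- the norms
  have hAv : padicValRat 2 A = (g : ℤ) * (if i then 1 else 0) := by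
    obtain ⟨B, B', hB, hB', h3⟩ := norm_LX hD hn u i b (S := S)
    rw [← hA, ← hg] at h3
    have hP : Odd (7 ^ (g * if b then 1 else 0) * (∏ v ∈ S, absNorm v.1.asIdeal) * B' : ℕ) := by
      refine (Odd.mul (Odd.pow (by decide)) ?_).mul hB'
      exact Finset.prod_induction _ Odd (fun _ _ => Odd.mul) odd_one fun v _ => TRB.f1_odd_norm v.2.1
    have h4 : A * B = ((7 ^ (g * if b then 1 else 0) * (∏ v ∈ S, absNorm v.1.asIdeal) * B' : ℕ) : ℚ) *
        2 ^ (g * if i then 1 else 0) := by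
      rw [h3]
      push_cast
      ring
    have hB0 : (B : ℚ) ≠ 0 := by
      exact_mod_cast hB.pos.ne'
    have h5 := congrArg (padicValRat 2) h4
    rw [padicValRat.mul hA0 hB0, hodd B hB, add_zero, padicValRat.mul (by exact_mod_cast hP.pos.ne') (pow_ne_zero _ two_ne_zero),
      hodd _ hP, padicValRat.pow, h2v] at h5
    rw [h5]
    push_cast
    split_ifs <;> ring
  have hNv : padicValRat 2 ((TRZ.NN (L := L) T i i : ℕ) : ℚ) = 2 * ((g : ℤ) * (if i then 1 else 0)) := by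
    unfold TRZ.NN
    have hP : Odd (7 ^ Module.finrank ℚ L * ∏ P ∈ T, absNorm P.asIdeal) :=
      (Odd.pow (by decide)).mul (TRZ.f2_odd_norm hD H)
    rw [Nat.cast_mul, padicValRat.mul (by exact_mod_cast hP.pos.ne') (by exact_mod_cast pow_ne_zero _ two_ne_zero), hodd _ hP,
      Nat.cast_pow, padicValRat.pow, Nat.cast_two, h2v, ← hg]
    push_cast
    split_ifs <;> ring
  have hN0 : TRZ.NN (L := L) T i i ≠ 0 := by
    unfold TRZ.NN
    have hP : Odd (7 ^ Module.finrank ℚ L * ∏ P ∈ T, absNorm P.asIdeal) :=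
      (Odd.pow (by decide)).mul (TRZ.f2_odd_norm hD H)
    exact mul_ne_zero hP.pos.ne' (pow_ne_zero _ two_ne_zero)
  have hOm : ((TRS.Om : ℝ) : ℂ) ^ g ≠ 0 := by
    apply pow_ne_zero
    exact_mod_cast TRS.Om_pos.ne'
  have h7 : ((√7 : ℝ) : ℂ) ^ k ≠ 0 := by
    apply pow_ne_zero
    rw [Complex.ofReal_ne_zero]
    exact (Real.sqrt_pos.2 (by norm_num)).ne'
  have h72 : (((√7 : ℝ) : ℂ) ^ k) ^ 2 = 7 ^ k := by
    rw [← pow_mul, mul_comm k 2, pow_mul, ← Complex.ofReal_pow, Real.sq_sqrt (by norm_num)]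
    norm_num
  have hsA : (√|((Algebra.norm ℚ (dL n u i b S) : ℚ) : ℝ)|) = √(A : ℝ) := by
    rw [hA]
    push_cast
    rfl
  have hApos : (0 : ℝ) < (A : ℝ) := by
    have h3 : 0 < A := by
      rw [hA] at hA0 ⊢
      exact abs_pos.2 (abs_ne_zero.1 hA0)
    exact_mod_cast h3
  have hA2 : ((√(A : ℝ) : ℝ) : ℂ) ^ 2 = (A : ℂ) := by
    rw [← Complex.ofReal_pow, Real.sq_sqrt hApos.le]
    norm_cast
  rw [hsA, ← hk, ← hg] at hq
  rw [← hg, hreal, mul_comm 2 g, pow_mul] at hQ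
  obtain ⟨hQq, hQv⟩ := l4_q (Q := Q) (q := q) (A := A) (k := k) (N := TRZ.NN (L := L) T i i) (by
    rw [← hQ, ← hq, ← hA2, ← h72]
    field_simp) hA0 hN0 hAv hNv
  rw [hcardT, ← he, ← hg] at hvQ
  have ha : V.valuation (2 : ℂ) ≠ 0 := by
    rw [Ne, map_eq_zero]
    exact two_ne_zero
  -- the valuation of the rational number
  have hone : (TRZ.GT D s T z u i i ≠ 0 ∧ TRZ.GT D (!s) T z' u i i ≠ 0) → q ≠ 0 ∧ padicValRat 2 q + g = (e : ℤ) + 1 := by
    rintro ⟨hf, hf'⟩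
    unfold zl at h1 h2
    rw [if_neg hf] at h1
    rw [if_neg hf'] at h2
    rw [v5_unit h1, v5_unit h2, mul_one, mul_one] at hvQ
    have hQ0 : Q ≠ 0 := by
      rintro rfl
      rw [Rat.cast_zero, map_zero, zero_mul] at hvQ
      exact pow_ne_zero _ ha hvQ.symm
    refine ⟨fun h3 => hQ0 (hQq.2 h3), ?_⟩
    rw [z2_val hV hQ0, ← zpow_natCast, ← zpow_natCast, ← zpow_add₀ ha] at hvQ
    have h5 := (zpow_right_strictAnti₀ (zero_lt_iff.2 ha) hV).injective hvQ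
    rw [hQv] at h5
    push_cast at h5
    linarith
  have hzero : ¬ (TRZ.GT D s T z u i i ≠ 0 ∧ TRZ.GT D (!s) T z' u i i ≠ 0) → q ≠ 0 → (e : ℤ) + 1 < padicValRat 2 q + g := by
    intro hf hq0
    have hQ0 : Q ≠ 0 := fun h3 => hq0 (hQq.1 h3)
    have hle : V.valuation ζ ≤ 1 := by
      have h3 : V.valuation ζ = V.valuation ((ζ - zl (TRZ.GT D s T z u i i)) + zl (TRZ.GT D s T z u i i)) := by
        rw [sub_add_cancel]
      rw [h3]
      exact (V.valuation.map_add _ _).trans (max_le h1.le (va_zl_le _))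
    have hW : V.valuation ζ * V.valuation ζ' < 1 := by
      rw [not_and_or, not_not, not_not] at hf
      rcases hf with hf | hf
      · unfold zl at h1 h2
        rw [if_pos hf, sub_zero] at h1
        refine mul_lt_one_of_lt_of_le h1 ?_
        by_cases hf' : TRZ.GT D (!s) T z' u i i = 0
        · rw [if_pos hf', sub_zero] at h2
          exact h2.le
        · rw [if_neg hf'] at h2
          exact (v5_unit h2).le
      · unfold zl at h2
        rw [if_pos hf, sub_zero] at h2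
        exact mul_lt_one_of_nonneg_of_lt_one_right hle zero_le h2
    have h4 : V.valuation (Q : ℂ) * V.valuation 2 ^ (2 * g) < V.valuation 2 ^ (2 * (e + 1)) := by
      rw [hvQ]
      exact mul_lt_of_lt_one_right (pow_pos (zero_lt_iff.2 ha) _) hW
    rw [z2_val hV hQ0, ← zpow_natCast, ← zpow_natCast, ← zpow_add₀ ha] at h4
    have h5 := (zpow_right_strictAnti₀ (zero_lt_iff.2 ha) hV).lt_iff_gt.1 h4
    rw [hQv] at h5
    push_cast at h5
    linarith
  -- the quotient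
  obtain ⟨qP, hqP, hqP2, hper⟩ := period_LX hD hn u i b (S := S) hκ C
  obtain ⟨m, hm, hcard⟩ := TRB.tor_LG (TRB.ofTR D) hd C
  have htam := tam_LX hD hn u i b (S := S) hκ C
  rw [← hE] at hper hcard htam
  rw [hsA, ← hk, ← hg] at hper
  rw [← he] at htam
  rw [← hg] at hqP2
  have hqP0 : qP ≠ 0 := hqP.ne'
  have hsA0 : √(A : ℝ) ≠ 0 := (Real.sqrt_pos.2 hApos).ne'
  have hquot : SBSD2.bsdQuotient E (Z 1) = ((q * (2 * (m : ℚ)) ^ 2 / (qP * (8 * 2 ^ e)) : ℚ) : ℂ) := by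
    have hper' : SBSD.period E = (qP : ℝ) * √7 ^ k * TRS.Om ^ g / √(A : ℝ) := by
      rw [← hper, mul_div_cancel_right₀ _ hsA0]
    have hsAC : ((√(A : ℝ) : ℝ) : ℂ) ≠ 0 := by rw [Complex.ofReal_ne_zero]; exact hsA0
    have hqPC : (qP : ℂ) ≠ 0 := by exact_mod_cast hqP0
    have h2C : (2 : ℂ) ^ e ≠ 0 := pow_ne_zero _ (by norm_num)
    have hq' : Z 1 * ((√|(discr L : ℝ)| : ℝ) : ℂ) * ((√(A : ℝ) : ℝ) : ℂ) =
        (q : ℂ) * (((√7 : ℝ) : ℂ) ^ k * ((TRS.Om : ℝ) : ℂ) ^ g) := by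
      rw [← hq, div_mul_cancel₀]
      exact mul_ne_zero h7 hOm
    unfold SBSD2.bsdQuotient
    rw [hcard, htam, hper']
    push_cast
    generalize ((TRS.Om : ℝ) : ℂ) ^ g = O at hq' hOm ⊢
    generalize ((√|(discr L : ℝ)| : ℝ) : ℂ) = Y at hq' ⊢
    generalize ((√7 : ℝ) : ℂ) ^ k = W at h7 hq' ⊢
    generalize ((√(A : ℝ) : ℝ) : ℂ) = R at hq' hsAC ⊢
    generalize (2 : ℂ) ^ e = F at h2C ⊢
    field_simp
    linear_combination (m : ℂ) ^ 2 * hq'
  have h8v : padicValRat 2 (8 : ℚ) = 3 := by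
    rw [show (8 : ℚ) = 2 ^ 3 by norm_num, padicValRat.pow, h2v]
    norm_num
  have h2Q : (2 : ℚ) ^ e ≠ 0 := pow_ne_zero _ two_ne_zero
  have h8Q : (8 : ℚ) ≠ 0 := by norm_num
  have hval : ∀ (h0 : q * (2 * (m : ℚ)) ^ 2 / (qP * (8 * 2 ^ e)) ≠ 0),
      padicValRat 2 (q * (2 * (m : ℚ)) ^ 2 / (qP * (8 * 2 ^ e))) = padicValRat 2 q + g - 1 - e := by
    intro h0
    have hq00 : q ≠ 0 := by
      rintro rfl
      exact h0 (by ring)
    have hm0 : (m : ℚ) ≠ 0 := by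
      intro h1
      exact h0 (by rw [h1]; ring)
    have hmo : Odd m := by
      rcases hm with h1 | h1
      · exact absurd (by exact_mod_cast h1) hm0
      · exact h1
    rw [padicValRat.div (mul_ne_zero hq00 (pow_ne_zero _ (mul_ne_zero two_ne_zero hm0)))
      (mul_ne_zero hqP0 (mul_ne_zero h8Q h2Q)), padicValRat.mul hq00
      (pow_ne_zero _ (mul_ne_zero two_ne_zero hm0)), padicValRat.pow, padicValRat.mul two_ne_zero hm0,
      padicValRat.mul hqP0 (mul_ne_zero h8Q h2Q), padicValRat.mul h8Q h2Q, padicValRat.pow, h8v, h2v, hodd m hmo, hqP2]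
    push_cast
    ring
  refine ⟨Z, hser, q * (2 * (m : ℚ)) ^ 2 / (qP * (8 * 2 ^ e)), hquot, ?_, ?_⟩
  · by_cases h0 : q * (2 * (m : ℚ)) ^ 2 / (qP * (8 * 2 ^ e)) = 0
    · rw [h0, padicValRat.zero]
    · rw [hval h0]
      have hq00 : q ≠ 0 := by
        rintro rfl
        exact h0 (by ring)
      by_cases hf : TRZ.GT D s T z u i i ≠ 0 ∧ TRZ.GT D (!s) T z' u i i ≠ 0
      · have := (hone hf).2
        linarith
      · have := hzero hf hq00
        linarith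
  · rw [hfs]
    constructor
    · rintro ⟨h0, h1⟩
      by_contra hf
      have hq00 : q ≠ 0 := by
        rintro rfl
        exact h0 (by ring)
      rw [hval h0] at h1
      have := hzero hf hq00
      linarith
    · intro hf
      obtain ⟨hq00, hv⟩ := hone hf
      have hfin : Finite E.toAffine.Point := (hfs.2 hf).1
      have hm0 : (m : ℚ) ≠ 0 := by
        intro h1
        have h2 : m = 0 := by exact_mod_cast h1
        rw [h2, mul_zero] at hcard
        exact TRB.f6_torsion hcard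
      have h0 : q * (2 * (m : ℚ)) ^ 2 / (qP * (8 * 2 ^ e)) ≠ 0 :=
        div_ne_zero (mul_ne_zero hq00 (pow_ne_zero _ (mul_ne_zero two_ne_zero hm0)))
          (mul_ne_zero hqP0 (mul_ne_zero h8Q h2Q))
      refine ⟨h0, ?_⟩
      rw [hval h0]
      linarith

/-- [FINL] all allowed curves over `L` -/
theorem gen_real {E : WeierstrassCurve L} (hE : GenCurve E) :
    TRB.ModTwo E ∧ GenCurve (E.baseChange M) ∧ (TRB.FiniteSha E ↔ TRB.FiniteSha (E.baseChange M)) := by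
  by_cases hgood : XTS.GoodReduction E (V2 hD)
  · -- good reduction at `2`
    have hE2 : TwoCurve E := by
      refine ⟨hE.j_eq, fun P h2 => hE.two P h2 ?_⟩
      rw [(V2_iff hD P).1 h2]
      exact hgood
    obtain ⟨h1, h2, h3⟩ := two_real hD hE2
    exact ⟨h1, ⟨h2.j_eq, fun P hP _ => h2.two P hP⟩, h3⟩
  · obtain ⟨hell, hj⟩ := hE.j_eq
    obtain ⟨d, C, -, hd, hC, -⟩ := exists_Ws E hj
    obtain ⟨n, hn⟩ : ∃ n : HeightOneSpectrum (𝓞 L) → 𝓞 L, ∀ v : OQ L, NL v.1 (n v.1) := by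
      have h1 : ∀ v : HeightOneSpectrum (𝓞 L), ∃ q, (2 : 𝓞 L) ∉ v.asIdeal → NL v q := by
        intro v
        by_cases hv : (2 : 𝓞 L) ∉ v.asIdeal
        · obtain ⟨q, hq⟩ := exists_NL hD hv
          exact ⟨q, fun _ => hq⟩
        · exact ⟨0, fun h => absurd h hv⟩
      choose n hn using h1
      exact ⟨n, fun v => hn v.1 v.2.1⟩
    obtain ⟨q, i, b, S, y, hy, hdy⟩ := exists_dL hD hn hd
    obtain ⟨C1, hC1, -⟩ := Ws_scale (d := dL n (Quotient.out q) i b S) hy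
    have hE1 : E = (C * C1) • Ws (dL n (Quotient.out q) i b S) := by
      rw [hC, hdy, mul_comm _ (y ^ 2), hC1, mul_smul]
    obtain ⟨C2, hC2⟩ := Wd_eq_Ws (dL n (Quotient.out q) i b S)
    have hE2 : E = (C * C1 * C2⁻¹) • Wd (dL n (Quotient.out q) i b S) := by
      rw [mul_smul, hC2, inv_smul_smul, hE1]
    have hd0 := dL_ne hD hn (Quotient.out q) i b S
    have h2V : (2 : 𝓞 L) ∈ (V2 hD).asIdeal := (V2_iff hD _).2 rfl
    have hκ : ¬ IsSquare (kap (Quotient.out q) i) := by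
      intro h
      apply hgood
      rw [hE1, ra_good_iff]
      exact (ra3_good hd0 (lf_seven_two h2V)).2 ((dL_ur hD hn _ i b S).2 h)
    obtain ⟨Ψ⟩ := D.exists_psi
    have hbc : E.baseChange M = (C * C1).map (algebraMap L M) • Ws (algebraMap L M (dL n (Quotient.out q) i b S)) := by
      rw [hE1, WeierstrassCurve.baseChange, ← WeierstrassCurve.map_variableChange, Ws_map]
    refine ⟨modTwo_LX hD Ψ hn _ i b S hκ hE1 hE2, ?_, ?_⟩
    · rw [hbc, TRZ.cl_iff hD (by rw [Ne, map_eq_zero]; exact hd0)]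
      exact (dL_nsq hD hn _ i b S).2 fun h => absurd h hκ
    · rw [hbc, hE1]
      exact rl_finiteSha (TRB.ofTR D) hd0 _ _

end

end TRR
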