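import Pool.Agent.TRP.RES2
import Pool.Agent.TRR.FL6
import Pool.Agent.TRR.L4

/-! # [REAL2] the final statements over admissible fields of odd degree in which `2` is inert -/

set_option autoImplicit false

open NumberField IsDedekindDomain XTR XTS Filter Topology
open scoped Classical

namespace XTB

open TRB

/-- the conjecture modulo `2` over `L`, and the base change to `M` -/
theorem gen_L {L : Type} [Field L] [NumberField L] (hL : Admissible L) (h2 : (Ideal.span {(2 : 𝓞 L)}).IsPrime)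
    (ho : Odd (Module.finrank ℚ L)) {E : WeierstrassCurve L} (hE : GenCurve E) : ModTwo E ∧
      ∀ (M : Type) [Field M] [NumberField M] [Algebra L M], Module.finrank L M = 2 →
        (∃ r : M, r ^ 2 = -7) → GenCurve (E.baseChange M) ∧ (FiniteSha E ↔ FiniteSha (E.baseChange M)) := by
  have : IsTotallyReal L := hL.real
  refine ⟨?_, fun M _ _ _ hM hr => ?_⟩
  · obtain ⟨M, _, _, _, r, hr, gen⟩ := TR.exists_sqrt L
    have hM : Module.finrank L M = 2 := (hL.good.dat hL.inert M r hr gen).finrank_eq_two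
    obtain ⟨D, hD⟩ := exists_datOd2 hL h2 ho hM ⟨r, hr⟩
    exact (TRR.gen_real hD hE).1
  · obtain ⟨D, hD⟩ := exists_datOd2 hL h2 ho hM hr
    exact (TRR.gen_real hD hE).2

/-- the density theorem over `L` -/
theorem gen_densityL {L : Type} [Field L] [NumberField L] (hL : Admissible L) (h2 : (Ideal.span {(2 : 𝓞 L)}).IsPrime)
    (ho : Odd (Module.finrank ℚ L)) :
    (∀ X : ℕ, (cmFamily L X fun _ => True).Finite) ∧
    Tendsto (fun X : ℕ => (cmFamily L X GenCurve).ncard) atTop atTop ∧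
    Tendsto (fun X : ℕ => ((cmFamily L X GenCurve).ncard : ℝ) / ((cmFamily L X fun _ => True).ncard : ℝ)) atTop
      (𝓝 (1 - 1 / (6 - 2 / 2 ^ Module.finrank ℚ L))) ∧
    Tendsto (fun X : ℕ => ((cmFamily L X fun E => GenCurve E ∧ FiniteSha E).ncard : ℝ) /
      ((cmFamily L X GenCurve).ncard : ℝ)) atTop (𝓝 (1 / 4 * ∏' k : ℕ, (1 - 1 / 2 ^ (2 * k + 1)))) := by
  have : IsTotallyReal L := hL.real
  obtain ⟨M, _, _, _, r, hr, gen⟩ := TR.exists_sqrt L
  have hM : Module.finrank L M = 2 := (hL.good.dat hL.inert M r hr gen).finrank_eq_two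
  obtain ⟨D, hD⟩ := exists_datOd2 hL h2 ho hM ⟨r, hr⟩
  obtain ⟨h1, -, -⟩ := TRP.real_density hD
  obtain ⟨h3, h4, h5⟩ := TRR.realX_limit hD
  exact ⟨h1, h3, h5, h4⟩

end XTB
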