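import Pool.Agent.TRR.Defs
import Pool.Agent.TRP.Defs3
import Pool.Agent.TRZ.CLD

/-! # [REAL2] common definitions over `L` -/

set_option autoImplicit false

open NumberField Ideal IsDedekindDomain
open scoped Classical

namespace TRR

open TRP TRPR

section
variable {L : Type} [Field L] [NumberField L]

/-- `κ = u 2^i` -/
def kap (u : (𝓞 L)ˣ) (i : Bool) : 𝓞 L := (u : 𝓞 L) * if i then 2 else 1

/-- `κ` is no square modulo `v` -/
noncomputable def chiL (κ : 𝓞 L) (v : OQ L) : ZMod 2 := if TT.qr v.1 κ = -1 then 1 else 0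

/-- `e₀`: the norm of the unit is `-1` -/
noncomputable def e0L (u : (𝓞 L)ˣ) : ZMod 2 := if Algebra.norm ℤ (u : 𝓞 L) = -1 then 1 else 0

/-- the units modulo squares -/
abbrev UQ (L : Type) [Field L] [NumberField L] : Type := (𝓞 L)ˣ ⧸ (powMonoidHom 2 : (𝓞 L)ˣ →* (𝓞 L)ˣ).range

/-- the twists `u 2^i (-7)^b ∏ n_v` -/
noncomputable def dL (n : HeightOneSpectrum (𝓞 L) → 𝓞 L) (u : (𝓞 L)ˣ) (i b : Bool) (S : Finset (OQ L)) : L :=
  ((kap u i : 𝓞 L) : L) * (if b then -7 else 1) * ∏ v ∈ S, ((n v.1 : 𝓞 L) : L)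

end

end TRR
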