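import Pool.Agent.TRR.Defs2
import Pool.Agent.TRZ.FD2
import Pool.Agent.TRP.LF0

/-! # [REAL2-X7a] all `d ∈ L` up to squares: `d = u 2^i (-7)^a ∏ π_v` -/

set_option autoImplicit false
set_option linter.unusedSectionVars false

open NumberField Ideal IsDedekindDomain Filter Topology
open scoped Real Classical ComplexConjugate
open TR TRG TTS TU TT XTB TRP TRZ

namespace TRR

section
variable {L : Type} [Field L] [NumberField L]

/-- the part at `2` and `7` -/
noncomputable def kl (u : (𝓞 L)ˣ) (i b : Bool) : 𝓞 L := (u : 𝓞 L) * ((if i then 2 else 1) * (if b then -7 else 1))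

/-- the element `u 2^i (-7)^b ∏ π_v` -/
noncomputable def el (n : HeightOneSpectrum (𝓞 L) → 𝓞 L) (u : (𝓞 L)ˣ) (i b : Bool) (S : Finset (OQ L)) : 𝓞 L :=
  kl u i b * ∏ v ∈ S, n v.1

theorem el_coe (n : HeightOneSpectrum (𝓞 L) → 𝓞 L) (u : (𝓞 L)ˣ) (i b : Bool) (S : Finset (OQ L)) :
    ((el n u i b S : 𝓞 L) : L) = dL n u i b S := by
  have h1 : ((∏ v ∈ S, n v.1 : 𝓞 L) : L) = ∏ v ∈ S, ((n v.1 : 𝓞 L) : L) := map_prod (algebraMap (𝓞 L) L) _ _
  have h2 : ((if b then -7 else 1 : 𝓞 L) : L) = (if b then -7 else 1 : L) := by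
    cases b
    · exact cone
    · show algebraMap (𝓞 L) L (-7) = -7
      rw [map_neg, map_ofNat]
  unfold el kl dL kap
  rw [cmul, cmul, cmul, cmul, h1, h2]
  ring

theorem kl_ne (u : (𝓞 L)ˣ) (i b : Bool) : kl u i b ≠ 0 := by
  unfold kl
  refine mul_ne_zero (Units.ne_zero _) (mul_ne_zero ?_ ?_)
  · split_ifs
    · exact two_ne_zero
    · exact one_ne_zero
  · split_ifs
    · exact neg_ne_zero.2 (by norm_num)
    · exact one_ne_zero

/-- the valuations of a generator of a prime -/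
theorem val_gen {x : 𝓞 L} {V : HeightOneSpectrum (𝓞 L)} (hV : V.asIdeal = span {x})
    (P : HeightOneSpectrum (𝓞 L)) : IsSquare (P.valuation L ((x : 𝓞 L) : L)) ↔ P ≠ V := by
  refine ad1_val (k := 1) odd_one ?_
  rw [pow_one, hV]

variable {n : HeightOneSpectrum (𝓞 L) → 𝓞 L} (hn : ∀ v : OQ L, NL v.1 (n v.1))
include hn

theorem nS_ne (S : Finset (OQ L)) : ((∏ v ∈ S, n v.1 : 𝓞 L) : L) ≠ 0 :=
  RingOfIntegers.coe_ne_zero_iff.2 (Finset.prod_ne_zero_iff.2 fun v _ => lf_ne hn v)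

theorem el_ne (u : (𝓞 L)ˣ) (i b : Bool) (S : Finset (OQ L)) : ((el n u i b S : 𝓞 L) : L) ≠ 0 := by
  unfold el
  rw [cmul]
  exact mul_ne_zero (RingOfIntegers.coe_ne_zero_iff.2 (kl_ne u i b)) (nS_ne hn S)

theorem val_nS (S : Finset (OQ L)) (P : HeightOneSpectrum (𝓞 L)) :
    IsSquare (P.valuation L ((∏ v ∈ S, n v.1 : 𝓞 L) : L)) ↔ ∀ v ∈ S, P ≠ v.1 := by
  induction S using Finset.induction_on with
  | empty =>
    rw [Finset.prod_empty, cone, map_one]
    exact iff_of_true ⟨1, (mul_one _).symm⟩ fun v hv => absurd hv (Finset.notMem_empty v)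
  | insert v U hv ih =>
    obtain ⟨⟨k, hk1, hk2⟩, -⟩ := hn v
    have hzv : ((n v.1 : 𝓞 L) : L) ≠ 0 := RingOfIntegers.coe_ne_zero_iff.2 (lf_ne hn v)
    rw [Finset.prod_insert hv, cmul, sq_mul_iff hzv (nS_ne hn U), ad1_val hk1 hk2, ih]
    constructor
    · intro h w hw
      rcases Finset.mem_insert.1 hw with rfl | hw
      · intro h1
        apply hv
        have h2 : ¬ ∀ v ∈ U, P ≠ v.1 := fun h3 => absurd h1 (h.2 h3)
        push Not at h2
        obtain ⟨u, hu, h3⟩ := h2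
        have : w = u := Subtype.ext (h1.symm.trans h3)
        exact this ▸ hu
      · by_cases h4 : P = v.1
        · intro h1
          exact hv (Subtype.ext (h4.symm.trans h1) ▸ hw)
        · exact h.1 h4 w hw
    · intro h
      exact iff_of_true (h v (Finset.mem_insert_self _ _)) fun w hw => h w (Finset.mem_insert_of_mem hw)

end

section
variable {L M : Type} [Field L] [NumberField L] [Field M] [NumberField M] [Algebra L M]
  [IsTotallyReal L] {D : Dat L M}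

/-- the prime above `2` -/
noncomputable def V2 (hD : Od2 D) : HeightOneSpectrum (𝓞 L) :=
  ⟨span {(2 : 𝓞 L)}, hD.two, by
    rw [Ne, Ideal.span_singleton_eq_bot]
    exact two_ne_zero⟩

theorem V2_iff (hD : Od2 D) (P : HeightOneSpectrum (𝓞 L)) : (2 : 𝓞 L) ∈ P.asIdeal ↔ P = V2 hD := by
  constructor
  · intro h
    exact HeightOneSpectrum.ext (lf_two hD h)
  · rintro rfl
    exact Ideal.mem_span_singleton_self _

theorem exists_V7 (D : Dat L M) : ∃ V : HeightOneSpectrum (𝓞 L), V.asIdeal = span {(7 : 𝓞 L)} ∧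
    ∀ P : HeightOneSpectrum (𝓞 L), (7 : 𝓞 L) ∈ P.asIdeal ↔ P = V := by
  obtain ⟨s, hs7, -, huniq⟩ := TRB.f4_s (TRB.ofTR D)
  refine ⟨s, (D.above_seven.1 s).1 hs7, fun P => ⟨huniq P, ?_⟩⟩
  rintro rfl
  exact hs7

/-- the prime above `7` -/
noncomputable def V7 (D : Dat L M) : HeightOneSpectrum (𝓞 L) := (exists_V7 D).choose

theorem V7_span (D : Dat L M) : (V7 D).asIdeal = span {(7 : 𝓞 L)} := (exists_V7 D).choose_spec.1

theorem V7_iff (D : Dat L M) (P : HeightOneSpectrum (𝓞 L)) : (7 : 𝓞 L) ∈ P.asIdeal ↔ P = V7 D :=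
  (exists_V7 D).choose_spec.2 P

theorem V27_ne (hD : Od2 D) : V2 hD ≠ V7 D := by
  intro h
  have h2 : (2 : 𝓞 L) ∈ (V2 hD).asIdeal := (V2_iff hD _).2 rfl
  exact lf_seven_two h2 (by rw [h]; exact (V7_iff D _).2 rfl)

theorem val_two (hD : Od2 D) (P : HeightOneSpectrum (𝓞 L)) :
    IsSquare (P.valuation L (((2 : 𝓞 L) : 𝓞 L) : L)) ↔ P ≠ V2 hD := val_gen rfl P

theorem val_seven (D : Dat L M) (P : HeightOneSpectrum (𝓞 L)) :
    IsSquare (P.valuation L (((-7 : 𝓞 L) : 𝓞 L) : L)) ↔ P ≠ V7 D := by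
  refine val_gen ?_ P
  rw [Ideal.span_singleton_neg]
  exact V7_span D

theorem val_kl (hD : Od2 D) (u : (𝓞 L)ˣ) (i b : Bool) (P : HeightOneSpectrum (𝓞 L)) :
    IsSquare (P.valuation L (kl u i b : L)) ↔ ((i = true → P ≠ V2 hD) ↔ (b = true → P ≠ V7 D)) := by
  have h1 : ((kl u i b : 𝓞 L) : L) = ((u : 𝓞 L) : L) *
      (((if i then 2 else 1 : 𝓞 L) : L) * ((if b then -7 else 1 : 𝓞 L) : L)) := by
    unfold kl
    rw [cmul, cmul]
  have h2 : ((if i then 2 else 1 : 𝓞 L) : L) ≠ 0 := by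
    rw [RingOfIntegers.coe_ne_zero_iff]
    split_ifs
    · exact two_ne_zero
    · exact one_ne_zero
  have h3 : ((if b then -7 else 1 : 𝓞 L) : L) ≠ 0 := by
    rw [RingOfIntegers.coe_ne_zero_iff]
    split_ifs
    · exact neg_ne_zero.2 (by norm_num)
    · exact one_ne_zero
  have one_sq : IsSquare (P.valuation L ((1 : 𝓞 L) : L)) := by
    rw [cone, map_one]
    exact ⟨1, (mul_one _).symm⟩
  have h4 : IsSquare (P.valuation L ((if i then 2 else 1 : 𝓞 L) : L)) ↔ (i = true → P ≠ V2 hD) := by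
    by_cases h : i = true
    · rw [if_pos h, val_two hD]
      exact ⟨fun h1 _ => h1, fun h1 => h1 h⟩
    · rw [if_neg h]
      exact iff_of_true one_sq fun h1 => absurd h1 h
  have h5 : IsSquare (P.valuation L ((if b then -7 else 1 : 𝓞 L) : L)) ↔ (b = true → P ≠ V7 D) := by
    by_cases h : b = true
    · rw [if_pos h, val_seven D]
      exact ⟨fun h1 _ => h1, fun h1 => h1 h⟩
    · rw [if_neg h]
      exact iff_of_true one_sq fun h1 => absurd h1 h
  rw [h1, sq_mul_iff (unit_ne _) (mul_ne_zero h2 h3), val_unit, sq_mul_iff h2 h3, h4, h5]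
  have h6 : IsSquare (1 : WithZero (Multiplicative ℤ)) := ⟨1, (mul_one _).symm⟩
  exact ⟨fun h => h.1 h6, fun h => iff_of_true h6 h⟩

variable {n : HeightOneSpectrum (𝓞 L) → 𝓞 L} (hn : ∀ v : OQ L, NL v.1 (n v.1))
include hn

theorem ne_V2 (hD : Od2 D) (v : OQ L) : v.1 ≠ V2 hD := fun h => v.2.1 ((V2_iff hD _).2 h)

theorem ne_V7 (D : Dat L M) (v : OQ L) : v.1 ≠ V7 D := fun h => v.2.2 ((V7_iff D _).2 h)

/-- the odd valuations -/
theorem val_el (hD : Od2 D) (u : (𝓞 L)ˣ) (i b : Bool) (S : Finset (OQ L)) (P : HeightOneSpectrum (𝓞 L)) :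
    IsSquare (P.valuation L (el n u i b S : L)) ↔
      (((i = true → P ≠ V2 hD) ↔ (b = true → P ≠ V7 D)) ↔ ∀ v ∈ S, P ≠ v.1) := by
  unfold el
  rw [cmul, sq_mul_iff (RingOfIntegers.coe_ne_zero_iff.2 (kl_ne u i b)) (nS_ne hn S), val_kl hD, val_nS hn]

theorem val_el_odd (hD : Od2 D) (u : (𝓞 L)ˣ) (i b : Bool) (S : Finset (OQ L)) (v : OQ L) :
    IsSquare (v.1.valuation L (el n u i b S : L)) ↔ v ∉ S := by
  rw [val_el hn hD]
  have h2 := ne_V2 hn hD v
  have h7 := ne_V7 hn D v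
  constructor
  · intro h hv
    exact h.1 (iff_of_true (fun _ => h2) fun _ => h7) v hv rfl
  · intro h
    refine iff_of_true (iff_of_true (fun _ => h2) fun _ => h7) fun w hw h3 => h ?_
    exact Subtype.ext h3 ▸ hw

theorem val_el_two (hD : Od2 D) (u : (𝓞 L)ˣ) (i b : Bool) (S : Finset (OQ L)) :
    IsSquare ((V2 hD).valuation L (el n u i b S : L)) ↔ i = false := by
  rw [val_el hn hD]
  have h1 : ∀ v ∈ S, V2 hD ≠ v.1 := fun v _ => (ne_V2 hn hD v).symm
  have h2 := V27_ne hD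
  rw [iff_true_right h1, iff_true_right fun _ => h2]
  cases i
  · exact iff_of_true (fun h => absurd h Bool.false_ne_true) rfl
  · exact iff_of_false (fun h => h rfl rfl) (by decide)

theorem val_el_seven (hD : Od2 D) (u : (𝓞 L)ˣ) (i b : Bool) (S : Finset (OQ L)) :
    IsSquare ((V7 D).valuation L (el n u i b S : L)) ↔ b = false := by
  rw [val_el hn hD]
  have h1 : ∀ v ∈ S, V7 D ≠ v.1 := fun v _ => (ne_V7 hn D v).symm
  have h2 := (V27_ne hD).symm
  rw [iff_true_right h1, iff_true_left fun _ => h2]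
  cases b
  · exact iff_of_true (fun h => absurd h Bool.false_ne_true) rfl
  · exact iff_of_false (fun h => h rfl rfl) (by decide)

end

end TRR
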