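import Pool.Agent.TRR.FL1

/-! # [REAL2-X7b] all `d ∈ L` have the form `u 2^i (-7)^b ∏ π_v` up to squares, uniqueness -/

set_option autoImplicit false
set_option linter.unusedSectionVars false

open NumberField Ideal IsDedekindDomain Filter Topology
open scoped Real Classical ComplexConjugate
open TR TRG TTS TU TT XTB TRP TRZ

namespace TRR

section
variable {L M : Type} [Field L] [NumberField L] [Field M] [NumberField M] [Algebra L M]
  [IsTotallyReal L] {D : Dat L M} (hD : Od2 D)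

variable {n : HeightOneSpectrum (𝓞 L) → 𝓞 L} (hn : ∀ v : OQ L, NL v.1 (n v.1))
include hD hn

/-- the parities of the valuations of two elements agree everywhere if they agree at `2`, `7` and on `OQ` -/
theorem fl2_all {x y : L} (h2 : IsSquare ((V2 hD).valuation L x) ↔ IsSquare ((V2 hD).valuation L y))
    (h7 : IsSquare ((V7 D).valuation L x) ↔ IsSquare ((V7 D).valuation L y))
    (h : ∀ v : OQ L, IsSquare (v.1.valuation L x) ↔ IsSquare (v.1.valuation L y)) (P : HeightOneSpectrum (𝓞 L)) :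
    IsSquare (P.valuation L x) ↔ IsSquare (P.valuation L y) := by
  by_cases h3 : (2 : 𝓞 L) ∈ P.asIdeal
  · rw [(V2_iff hD P).1 h3]
    exact h2
  · by_cases h4 : (7 : 𝓞 L) ∈ P.asIdeal
    · rw [(V7_iff D P).1 h4]
      exact h7
    · exact h ⟨P, h3, h4⟩

/-- **every `d` has the form** -/
theorem exists_el {d : L} (hd : d ≠ 0) {S : Finset (OQ L)} (hS : ∀ v : OQ L, v ∈ S ↔ ¬ IsSquare (v.1.valuation L d)) :
    ∃ (q : UQ L) (i b : Bool) (y : L), y ≠ 0 ∧ d = y ^ 2 * dL n (Quotient.out q) i b S := by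
  obtain ⟨i, hi⟩ : ∃ i : Bool, i = true ↔ ¬ IsSquare ((V2 hD).valuation L d) :=
    ⟨decide (¬ IsSquare ((V2 hD).valuation L d)), decide_eq_true_iff⟩
  obtain ⟨b, hb⟩ : ∃ b : Bool, b = true ↔ ¬ IsSquare ((V7 D).valuation L d) :=
    ⟨decide (¬ IsSquare ((V7 D).valuation L d)), decide_eq_true_iff⟩
  have hf1 := el_ne hn (1 : (𝓞 L)ˣ) i b S
  obtain ⟨u, y, hy, h1⟩ := b3_even D.odd_classNumber (d * (el n 1 i b S : L)) (mul_ne_zero hd hf1) (by
    intro P
    rw [sq_mul_iff hd hf1]
    refine fl2_all hD hn ?_ ?_ ?_ P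
    · rw [val_el_two hn hD]
      constructor
      · intro h
        by_contra h'
        exact hi.1 (by simpa using h') h
      · intro h
        by_contra h'
        rw [← hi] at h'
        rw [h] at h'
        exact Bool.false_ne_true h'
    · rw [val_el_seven hn hD]
      constructor
      · intro h
        by_contra h'
        exact hb.1 (by simpa using h') h
      · intro h
        by_contra h'
        rw [← hb] at h'
        rw [h] at h'
        exact Bool.false_ne_true h'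
    · intro v
      rw [val_el_odd hn hD]
      exact iff_not_comm.1 (hS v))
  refine ⟨QuotientGroup.mk u, i, b, ?_⟩
  obtain ⟨w, hw⟩ : ∃ w : (𝓞 L)ˣ, (Quotient.out (QuotientGroup.mk u : UQ L) : (𝓞 L)ˣ) = u * w ^ 2 := by
    have h2 : (QuotientGroup.mk (Quotient.out (QuotientGroup.mk u : UQ L)) : UQ L) = QuotientGroup.mk u :=
      Quotient.out_eq _
    rw [eq_comm, QuotientGroup.eq] at h2
    obtain ⟨w, hw⟩ := h2
    refine ⟨w, ?_⟩
    have hw' : w ^ 2 = u⁻¹ * (Quotient.out (QuotientGroup.mk u : UQ L) : (𝓞 L)ˣ) := hw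
    rw [hw', mul_inv_cancel_left]
  rw [el_coe] at h1 hf1
  have e : dL n (Quotient.out (QuotientGroup.mk u : UQ L)) i b S = ((u : 𝓞 L) : L) * ((w : 𝓞 L) : L) ^ 2 * dL n 1 i b S := by
    unfold dL kap
    rw [hw, cmul, cmul, Units.val_mul, cmul, Units.val_pow_eq_pow_val, cpow, Units.val_one, cone]
    ring
  have hw0 := unit_ne w
  have hu0 := unit_ne u
  refine ⟨y / (dL n 1 i b S * ((w : 𝓞 L) : L)), div_ne_zero hy (mul_ne_zero hf1 hw0), ?_⟩
  rw [e, div_pow, div_mul_eq_mul_div, eq_div_iff (pow_ne_zero 2 (mul_ne_zero hf1 hw0))]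
  linear_combination (dL n 1 i b S * ((w : 𝓞 L) : L) ^ 2) * h1

/-- **uniqueness** -/
theorem el_inj {q q' : UQ L} {i i' b b' : Bool} {S S' : Finset (OQ L)} {y : L} (hy : y ≠ 0)
    (h : dL n (Quotient.out q) i b S = y ^ 2 * dL n (Quotient.out q') i' b' S') : q = q' ∧ i = i' ∧ b = b' ∧ S = S' := by
  have h1' := el_ne hn (Quotient.out q') i' b' S'
  have h0 := h
  rw [← el_coe, ← el_coe] at h
  have hsq : ∀ P : HeightOneSpectrum (𝓞 L), IsSquare (P.valuation L (el n (Quotient.out q) i b S : L)) ↔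
      IsSquare (P.valuation L (el n (Quotient.out q') i' b' S' : L)) := by
    intro P
    rw [h, sq_mul_iff (pow_ne_zero 2 hy) h1']
    have h2 : IsSquare (P.valuation L (y ^ 2)) := ⟨P.valuation L y, by rw [map_pow, sq]⟩
    exact ⟨fun h3 => h3.1 h2, fun h3 => iff_of_true h2 h3⟩
  have hSS : S = S' := by
    ext v
    have h3 := hsq v.1
    rw [val_el_odd hn hD, val_el_odd hn hD] at h3
    exact not_iff_not.1 h3
  have hii : i = i' := by
    have h3 := hsq (V2 hD)
    rw [val_el_two hn hD, val_el_two hn hD] at h3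
    cases i <;> cases i' <;> simp_all
  have hbb : b = b' := by
    have h3 := hsq (V7 D)
    rw [val_el_seven hn hD, val_el_seven hn hD] at h3
    cases b <;> cases b' <;> simp_all
  subst hSS
  subst hii
  subst hbb
  refine ⟨?_, rfl, rfl, rfl⟩
  have hA1 := el_ne hn (1 : (𝓞 L)ˣ) i b S
  rw [el_coe] at hA1
  have e1 : ∀ q : UQ L, dL n (Quotient.out q) i b S = (((Quotient.out q : (𝓞 L)ˣ) : 𝓞 L) : L) * dL n 1 i b S := by
    intro q
    unfold dL kap
    rw [cmul, cmul, Units.val_one, cone]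
    ring
  have e := h0
  rw [e1, e1] at e
  have e2 : (((Quotient.out q : (𝓞 L)ˣ) : 𝓞 L) : L) = y ^ 2 * (((Quotient.out q' : (𝓞 L)ˣ) : 𝓞 L) : L) := by
    rw [← mul_assoc] at e
    exact mul_right_cancel₀ hA1 e
  have hyu : y ^ 2 = (((Quotient.out q * (Quotient.out q')⁻¹ : (𝓞 L)ˣ) : 𝓞 L) : L) := by
    rw [Units.val_mul, cmul, e2, mul_assoc, ← cmul, Units.mul_inv, cone, mul_one]
  obtain ⟨y', hy'⟩ : ∃ y' : 𝓞 L, (y' : L) = y := by
    have h3 : IsIntegral ℤ y := by
      refine IsIntegral.of_pow (n := 2) (by norm_num) ?_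
      rw [hyu]
      exact RingOfIntegers.isIntegral_coe _
    exact ⟨⟨y, h3⟩, rfl⟩
  have h3 : y' ^ 2 = ((Quotient.out q * (Quotient.out q')⁻¹ : (𝓞 L)ˣ) : 𝓞 L) := by
    apply RingOfIntegers.coe_injective
    refine (cpow _ _).trans ?_
    rw [hy']
    exact hyu
  have hu : IsUnit y' := by
    have h4 : IsUnit (y' ^ 2) := by
      rw [h3]
      exact Units.isUnit _
    exact (isUnit_pow_iff (by norm_num)).1 h4
  obtain ⟨w, rfl⟩ := hu
  have h4 : w ^ 2 = Quotient.out q * (Quotient.out q')⁻¹ := by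
    apply Units.ext
    rw [Units.val_pow_eq_pow_val]
    exact h3
  have h5 : (QuotientGroup.mk (Quotient.out q * (Quotient.out q')⁻¹) : UQ L) = 1 := by
    rw [QuotientGroup.eq_one_iff]
    exact ⟨w, h4⟩
  have h6 : (QuotientGroup.mk (Quotient.out q) : UQ L) * (QuotientGroup.mk (Quotient.out q') : UQ L)⁻¹ = 1 := by
    rw [← QuotientGroup.mk_inv, ← QuotientGroup.mk_mul]
    exact h5
  have h7 : (QuotientGroup.mk (Quotient.out q) : UQ L) = q := Quotient.out_eq _
  have h8 : (QuotientGroup.mk (Quotient.out q') : UQ L) = q' := Quotient.out_eq _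
  rw [h7, h8] at h6
  exact mul_inv_eq_one.1 h6

end

end TRR
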