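import Pool.Agent.TRR.X3
import Pool.Agent.TRR.FL4

/-! # [REAL2-X7g2] limits over the classes and the number of the classes -/

set_option autoImplicit false
set_option linter.unusedSectionVars false

open Filter Topology
open scoped Classical

namespace TRR

open TRPR

/-! ### limits -/

theorem fl5_scale {F : ℝ → ℝ} {κ : ℝ} (h : Tendsto (fun X : ℝ => F X / X) atTop (𝓝 κ)) {w : ℝ} (hw : 0 < w) :
    Tendsto (fun X : ℝ => F (X / w) / X) atTop (𝓝 (κ / w)) := by
  have h1 := (h.comp (tendsto_id.atTop_div_const hw)).div_const w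
  refine h1.congr fun X => ?_
  simp only [Function.comp_apply, id_eq]
  rw [div_div, div_mul_cancel₀ _ hw.ne']

/-- from the ratio to the density -/
theorem fl5_ratio {α : Type} {G : ℝ → Finset α} {H : α → Prop} [DecidablePred H] {p q : ℝ}
    (h : Tendsto (fun X : ℝ => (((G X).filter H).card : ℝ) / (G X).card) atTop (𝓝 p))
    (h' : Tendsto (fun X : ℝ => ((G X).card : ℝ) / X) atTop (𝓝 q)) :
    Tendsto (fun X : ℝ => (((G X).filter H).card : ℝ) / X) atTop (𝓝 (p * q)) := by
  refine (h.mul h').congr fun X => ?_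
  by_cases h0 : ((G X).card : ℝ) = 0
  · have h1 : ((G X).filter H).card = 0 := by
      have h2 : (G X).card = 0 := by exact_mod_cast h0
      exact Nat.le_zero.1 (h2 ▸ Finset.card_filter_le _ _)
    rw [h1, h0]
    simp
  · rw [div_mul_div_cancel₀ h0]

section
variable {P : Type}

theorem fl5_tau (B : LSys P) (c : ZMod 2) : Tendsto (fun X : ℝ =>
    (((B.sb X).filter fun S => ∑ v ∈ S, B.τ v = c).card : ℝ) / X) atTop (𝓝 (B.kap / 2)) := by
  have h := fl5_ratio (G := fun X => B.sb X) (H := fun S => ∑ v ∈ S, B.τ v = c) (card_tauc B c) B.card_sb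
  have e : (1 / 2 * B.kap : ℝ) = B.kap / 2 := by ring
  rwa [e] at h

/-- the density of a property in a class -/
theorem fl5_H (B : LSys P) (c : ZMod 2) (H : Finset P → Prop) {p : ℝ}
    (h : Tendsto (fun X : ℝ => (((B.sb X).filter fun S => ∑ v ∈ S, B.τ v = c ∧ H S).card : ℝ) /
      ((B.sb X).filter fun S => ∑ v ∈ S, B.τ v = c).card) atTop (𝓝 p)) :
    Tendsto (fun X : ℝ => (((B.sb X).filter fun S => ∑ v ∈ S, B.τ v = c ∧ H S).card : ℝ) / X) atTop (𝓝 (p * (B.kap / 2))) := by
  have h1 := fl5_ratio (G := fun X => (B.sb X).filter fun S => ∑ v ∈ S, B.τ v = c) (H := H) (p := p) (by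
    refine h.congr fun X => ?_
    rw [Finset.filter_filter]) (fl5_tau B c)
  refine h1.congr fun X => ?_
  rw [Finset.filter_filter]

/-- both classes together -/
theorem fl5_both (B : LSys P) (H : ZMod 2 → Finset P → Prop) {p : ℝ}
    (h : ∀ c, Tendsto (fun X : ℝ => (((B.sb X).filter fun S => ∑ v ∈ S, B.τ v = c ∧ H c S).card : ℝ) /
      ((B.sb X).filter fun S => ∑ v ∈ S, B.τ v = c).card) atTop (𝓝 p)) :
    Tendsto (fun X : ℝ => (((B.sb X).filter fun S => H (∑ v ∈ S, B.τ v) S).card : ℝ) / X) atTop (𝓝 (p * B.kap)) := by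
  have h1 := (fl5_H B 0 (H 0) (h 0)).add (fl5_H B 1 (H 1) (h 1))
  have e : p * (B.kap / 2) + p * (B.kap / 2) = p * B.kap := by ring
  rw [e] at h1
  refine h1.congr fun X => ?_
  rw [← add_div, ← Nat.cast_add, ← Finset.card_union_of_disjoint]
  · congr 3
    ext S
    simp only [Finset.mem_union, Finset.mem_filter]
    have hc : ∀ c : ZMod 2, c = 0 ∨ c = 1 := by decide
    constructor
    · rintro (⟨h1, h2, h3⟩ | ⟨h1, h2, h3⟩)
      · exact ⟨h1, h2.symm ▸ h3⟩
      · exact ⟨h1, h2.symm ▸ h3⟩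
    · rintro ⟨h1, h2⟩
      rcases hc (∑ v ∈ S, B.τ v) with h3 | h3
      · exact Or.inl ⟨h1, h3, h3 ▸ h2⟩
      · exact Or.inr ⟨h1, h3, h3 ▸ h2⟩
  · rw [Finset.disjoint_left]
    intro S h2 h3
    rw [Finset.mem_filter] at h2 h3
    rw [h2.2.1] at h3
    exact zero_ne_one h3.2.1

end

/-! ### the number of the classes -/

open NumberField TRZ TRP TR TRG TTS TU TT

section
variable {L : Type} [Field L] [NumberField L]

theorem fl5_card_UQ [IsTotallyReal L] : Nat.card (UQ L) = 2 ^ Module.finrank ℚ L := by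
  have hg : Units.rank L + 1 = Module.finrank ℚ L := by
    have h2 := InfinitePlace.card_eq_nrRealPlaces_add_nrComplexPlaces L
    have h3 : 0 < Fintype.card (InfinitePlace L) := Fintype.card_pos
    have h4 : InfinitePlace.nrComplexPlaces L = 0 := IsTotallyReal.nrComplexPlaces_eq_zero L
    rw [IsTotallyReal.finrank]
    unfold Units.rank
    omega
  rw [← hg]
  exact TR.card_units_quot L

theorem fl5_card_FI [IsTotallyReal L] : Fintype.card (FI L) = 4 * 2 ^ Module.finrank ℚ L := by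
  rw [← Nat.card_eq_fintype_card, Nat.card_prod, Nat.card_prod, Nat.card_eq_fintype_card (α := Bool), Fintype.card_bool]
  have h : Nat.card (FM1Q L) = 2 ^ Module.finrank ℚ L := fl5_card_UQ
  rw [h]
  ring

theorem fl5_out (q : UQ L) : (∃ w : (𝓞 L)ˣ, Quotient.out q = w ^ 2) ↔ q = 1 := by
  have h1 : (QuotientGroup.mk (Quotient.out q) : UQ L) = q := Quotient.out_eq _
  constructor
  · rintro ⟨w, hw⟩
    rw [← h1, QuotientGroup.eq_one_iff]
    exact ⟨w, hw.symm⟩
  · rintro rfl
    have h2 : (QuotientGroup.mk (Quotient.out (1 : UQ L)) : UQ L) = 1 := h1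
    rw [QuotientGroup.eq_one_iff] at h2
    obtain ⟨w, hw⟩ := h2
    exact ⟨w, hw.symm⟩

end

section
variable {L M : Type} [Field L] [NumberField L] [Field M] [NumberField M] [Algebra L M]
  [IsTotallyReal L] {D : Dat L M} (hD : Od2 D)
include hD

theorem fl5_sq (f : FI L) : IsSquare (kap (Quotient.out f.1) f.2.1) ↔ f.1 = 1 ∧ f.2.1 = false := by
  rw [kap_iff hD, fl5_out, and_comm]

theorem fl5_card_sq : ((Finset.univ : Finset (FI L)).filter fun f => IsSquare (kap (Quotient.out f.1) f.2.1)).card = 2 := by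
  have h : ((Finset.univ : Finset (FI L)).filter fun f => IsSquare (kap (Quotient.out f.1) f.2.1)) =
      (Finset.univ : Finset Bool).image fun b => ((1 : FM1Q L), false, b) := by
    ext ⟨q, i, b⟩
    rw [Finset.mem_filter, fl5_sq hD, Finset.mem_image]
    constructor
    · rintro ⟨-, h1, h2⟩
      exact ⟨b, Finset.mem_univ _, by rw [← h1, ← h2]⟩
    · rintro ⟨b', -, h1⟩
      obtain ⟨h2, h3⟩ := Prod.mk.inj h1
      exact ⟨Finset.mem_univ _, h2.symm, (Prod.mk.inj h3).1.symm⟩
  rw [h, Finset.card_image_of_injective, Finset.card_univ, Fintype.card_bool]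
  intro b b' h1
  exact (Prod.mk.inj (Prod.mk.inj h1).2).2

end

end TRR
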