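import Pool.Agent.TRZ.H3b
import Pool.Agent.TRR.X7e
import Pool.Agent.TRR.Defs3
import Pool.Agent.TRP.RA1

/-! # [REAL2-L2a] the sign of the character of a twist by `d ∈ L` at `a + b ω` -/

set_option autoImplicit false
set_option linter.unusedSectionVars false

open NumberField Ideal IsDedekindDomain
open scoped Real Classical ComplexConjugate
open TR TRG TTS TU TT XTB TRP TRZ

namespace TRR

section
variable {L M : Type} [Field L] [NumberField L] [Field M] [NumberField M] [Algebra L M]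
  [IsTotallyReal L] {D : Dat L M}

/-- the norm to `L` of `a + b ω` -/
theorem l2_nm (D : Dat L M) (a b : ℤ) :
    TT.nm ((a : 𝓞 M) + (b : 𝓞 M) * D.om) = ((a ^ 2 - 7 * a * b + 14 * b ^ 2 : ℤ) : 𝓞 L) := by
  apply TT.h1_inj D
  rw [TT.nm_eq D, map_intCast]
  exact TRH.al_cj D a b

/-- the symbols above `v` -/
theorem l2_fib (D : Dat L M) {v : OQ L} {P : HeightOneSpectrum (𝓞 M)} (hP : a7a_pi (L := L) P = v.1) (x : 𝓞 M) :
    ∏ Q ∈ ({P, u6_conj D P} : Finset (HeightOneSpectrum (𝓞 M))), TT.qr Q x = TT.qr v.1 (TT.nm x) := by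
  by_cases hv : kL v = 0
  · rw [Finset.prod_pair (split_conj_ne D (kL_zero hv) hP).symm, ← ra1_qr_conj' D P x, ← TT.qr_mul P (two_above hP v.2.1),
      ← TT.nm_eq D, qr_split_alg D hP v.2.1 (kL_zero hv)]
  · rw [ra1_inert D hv hP, Finset.pair_eq_singleton, Finset.prod_singleton, qr_inert_nm D hP v.2.1 (kL_ne hv)]

/-- the product over the primes above `7` and `S` -/
theorem l2_T (D : Dat L M) {S : Finset (OQ L)} {T : Finset (HeightOneSpectrum (𝓞 M))}
    (hT : ∀ P, P ∈ T ↔ (7 : 𝓞 M) ∈ P.asIdeal ∨ ∃ v ∈ S, a7a_pi (L := L) P = v.1) (f : HeightOneSpectrum (𝓞 M) → ℤ)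
    {R : HeightOneSpectrum (𝓞 M)} (hR : R.asIdeal = span {D.rr}) {Pv : OQ L → HeightOneSpectrum (𝓞 M)} (hPv : Above Pv) :
    ∏ P ∈ T, f P = f R * ∏ v ∈ S, ∏ Q ∈ ({Pv v, u6_conj D (Pv v)} : Finset (HeightOneSpectrum (𝓞 M))), f Q := by
  have hab : ∀ (v : OQ L) (P : HeightOneSpectrum (𝓞 M)), P = Pv v ∨ P = u6_conj D (Pv v) → a7a_pi (L := L) P = v.1 := by
    rintro v P (rfl | rfl)
    · exact hPv v
    · exact (pi_conj D _).trans (hPv v)
  have h7R : (7 : 𝓞 M) ∈ R.asIdeal := by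
    rw [n1_rr_iff D, hR]
    exact Ideal.mem_span_singleton_self _
  have e : T = insert R (S.biUnion fun v => {Pv v, u6_conj D (Pv v)}) := by
    ext P
    rw [hT, Finset.mem_insert, Finset.mem_biUnion]
    constructor
    · rintro (h | ⟨v, hv, h⟩)
      · exact Or.inl (se4_uniq hR ((n1_rr_iff D P).1 h))
      · refine Or.inr ⟨v, hv, ?_⟩
        rw [Finset.mem_insert, Finset.mem_singleton]
        exact ra1_fib D (hPv v) h
    · rintro (rfl | ⟨v, hv, h⟩)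
      · exact Or.inl h7R
      · rw [Finset.mem_insert, Finset.mem_singleton] at h
        exact Or.inr ⟨v, hv, hab v P h⟩
  have hRn : R ∉ S.biUnion fun v => {Pv v, u6_conj D (Pv v)} := by
    rw [Finset.mem_biUnion]
    rintro ⟨v, -, h⟩
    rw [Finset.mem_insert, Finset.mem_singleton] at h
    apply v.2.2
    rw [← hab v R h]
    change algebraMap (𝓞 L) (𝓞 M) 7 ∈ R.asIdeal
    rw [map_ofNat]
    exact h7R
  rw [e, Finset.prod_insert hRn, Finset.prod_biUnion]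
  intro u _ v _ huv
  rw [Function.onFun, Finset.disjoint_left]
  intro P h1 h2
  rw [Finset.mem_insert, Finset.mem_singleton] at h1 h2
  exact huv (Subtype.ext (by rw [← hab u P h1, ← hab v P h2]))

/-- the symbol of `a + b ω` at the prime above `7` -/
theorem l2_seven (D : Dat L M) {R : HeightOneSpectrum (𝓞 M)} (hR : R.asIdeal = span {D.rr}) {a b : ℤ} (ha : c7 a = 1) :
    TT.qr R ((a : 𝓞 M) + (b : 𝓞 M) * D.om) = 1 := by
  have h7R : (7 : 𝓞 M) ∈ R.asIdeal := by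
    rw [n1_rr_iff D, hR]
    exact Ideal.mem_span_singleton_self _
  have hom : D.om ∈ R.asIdeal := by
    apply R.isPrime.mem_of_pow_mem 2
    have h := D.a2_om_sq
    have e : D.om ^ 2 = 7 * (-D.om - 2) := by linear_combination h
    rw [e]
    exact Ideal.mul_mem_right _ _ h7R
  have h1 : TT.qr R ((a : 𝓞 M) + (b : 𝓞 M) * D.om) = TT.qr R (a : 𝓞 M) := by
    refine TT.qr_congr R ?_
    rw [add_sub_cancel_left]
    exact Ideal.mul_mem_left _ _ hom
  obtain ⟨y, k, hy, hk⟩ : ∃ y k : ℤ, y % 7 ≠ 0 ∧ y ^ 2 - a = 7 * k := by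
    unfold c7 at ha
    have h3 : a % 7 = 1 ∨ a % 7 = 2 ∨ a % 7 = 4 := by
      split_ifs at ha with h4 h5 <;> omega
    rcases h3 with h3 | h3 | h3
    · exact ⟨1, (1 - a) / 7, by norm_num, by omega⟩
    · exact ⟨3, (9 - a) / 7, by norm_num, by omega⟩
    · exact ⟨2, (4 - a) / 7, by norm_num, by omega⟩
  have hyR : ((y : ℤ) : 𝓞 M) ∉ R.asIdeal := by
    intro h
    have hc : IsCoprime y 7 := by
      have h5 : ¬ (7 : ℤ) ∣ y := by omega
      exact ((by norm_num : Prime (7 : ℤ)).coprime_iff_not_dvd.2 h5).symm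
    obtain ⟨p, q, hpq⟩ := hc
    apply R.isPrime.ne_top
    rw [Ideal.eq_top_iff_one]
    have h6 := congrArg (fun z : ℤ => (z : 𝓞 M)) hpq
    push_cast at h6
    rw [← h6]
    exact Ideal.add_mem _ (Ideal.mul_mem_left _ _ h) (Ideal.mul_mem_left _ _ h7R)
  have haR : ((a : ℤ) : 𝓞 M) ∉ R.asIdeal := by
    intro h
    apply hyR
    apply R.isPrime.mem_of_pow_mem 2
    have h6 := congrArg (fun z : ℤ => (z : 𝓞 M)) hk
    push_cast at h6
    have e : ((y : ℤ) : 𝓞 M) ^ 2 = (a : 𝓞 M) + 7 * (k : 𝓞 M) := by linear_combination h6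
    rw [e]
    exact Ideal.add_mem _ h (Ideal.mul_mem_right _ _ h7R)
  rw [h1]
  unfold TT.qr
  rw [if_neg haR, if_pos]
  refine ⟨(y : 𝓞 M), ?_⟩
  have h6 := congrArg (fun z : ℤ => (z : 𝓞 M)) hk
  push_cast at h6
  rw [h6]
  exact Ideal.mul_mem_right _ _ h7R

theorem l2_odd {s : 𝓞 L} (hs : IsCoprime s 2) : Algebra.norm ℤ s % 2 = 1 := by
  obtain ⟨a, b, hab⟩ := hs
  have h4 := k1_norm_congr 2 (a * s) b
  have e : a * s + ((2 : ℕ) : 𝓞 L) * b = 1 := by
    rw [← hab]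
    push_cast
    ring
  rw [e, map_one, map_mul] at h4
  have h5 : (1 : ℤ) % 2 = (Algebra.norm ℤ a * Algebra.norm ℤ s) % 2 := by exact_mod_cast h4
  by_contra hcon
  have h6 : Algebra.norm ℤ s % 2 = 0 := by omega
  rw [Int.mul_emod, h6, mul_zero] at h5
  norm_num at h5

/-- the norm of a unit modulo `4` -/
theorem l2_norm {u : (𝓞 L)ˣ} {γ : 𝓞 L} (h : Cl γ (u : 𝓞 L)) :
    Algebra.norm ℤ (u : 𝓞 L) = if (2 : ℤ) ∣ Algebra.trace ℤ (𝓞 L) γ then 1 else -1 := by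
  obtain ⟨s, c, hs, he⟩ := h
  have hso := l2_odd hs
  obtain ⟨r, hr⟩ := Algebra.norm_one_add_smul (2 : ℤ) γ
  have h1 := k1_norm_congr 4 (s ^ 2 * (1 + 2 * γ)) c
  have e4 : ((4 : ℕ) : 𝓞 L) = 4 := by norm_num
  rw [e4, ← he, map_mul, map_pow] at h1
  have e2 : (1 : 𝓞 L) + 2 * γ = 1 + (2 : ℤ) • γ := by
    rw [zsmul_eq_mul]
    push_cast
    rfl
  rw [e2, hr] at h1
  have h3 : Algebra.norm ℤ s ^ 2 % 4 = 1 := by
    have h4 : Algebra.norm ℤ s % 4 = 1 ∨ Algebra.norm ℤ s % 4 = 3 := by omega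
    rcases h4 with h4 | h4 <;> rw [pow_two, Int.mul_emod, h4] <;> norm_num
  have h5 : Algebra.norm ℤ (u : 𝓞 L) % 4 = (1 + Algebra.trace ℤ (𝓞 L) γ * 2) % 4 := by
    have h6 : ((4 : ℕ) : ℤ) = 4 := by norm_num
    rw [h6] at h1
    rw [h1, Int.mul_emod, h3, one_mul, Int.emod_emod_of_dvd _ (dvd_refl _)]
    omega
  rcases Int.isUnit_iff.1 (u.isUnit.map (Algebra.norm ℤ)) with h6 | h6
  · rw [h6] at h5 ⊢
    rw [if_pos (by omega)]
  · rw [h6] at h5 ⊢
    rw [if_neg (by omega)]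

end

end TRR
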