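import Pool.Agent.TRR.L2a

/-! # [REAL2-L2b] the Galois action on the square root of the norm of `d` -/

set_option autoImplicit false
set_option linter.unusedSectionVars false

open NumberField Ideal IsDedekindDomain
open scoped Real Classical ComplexConjugate
open TR TRG TTS TU TT XTB TRP TRZ

namespace TRR

section
variable {L M : Type} [Field L] [NumberField L] [Field M] [NumberField M] [Algebra L M]
  [IsTotallyReal L] {D : Dat L M} (hD : Od2 D)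
include hD

/-- the character depends on the class only -/
theorem l2_kp_congr {c c' : 𝓞 L} {i : Bool}
    (hR : Rm c i ↔ Rm c' i) (h : Q4 (c * c')) : kp c i = kp c' i := by
  by_cases hr : Rm c i
  · unfold kp
    rw [if_pos hr, if_pos (hR.1 hr)]
    funext x
    unfold kc
    congr 1
    by_cases hx : x ∈ span {(2 : 𝓞 L)}
    · rw [tp_zero hD (Or.inl hx), tp_zero hD (Or.inl hx)]
    · have h1 : tp x c * tp x c' = 1 := by
        rw [tp_comm hD x c, tp_comm hD x c', ← tp_mul hD c c' x hx, tp_q4 hD h hx]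
      rcases Int.isUnit_iff.1 (IsUnit.of_mul_eq_one _ h1) with h2 | h2
      · rw [h2] at h1 ⊢
        linarith
      · rw [h2] at h1 ⊢
        linarith
  · rw [kp_one hD hr, kp_one hD (fun h1 => hr (hR.2 h1))]

/-- both local characters are that of `u` -/
theorem l2_kp {s : Bool} {z : HeightOneSpectrum (𝓞 M) → 𝓞 M} (hz : ∀ P, (2 : 𝓞 M) ∉ P.asIdeal → NG D s P (z P))
    {n : HeightOneSpectrum (𝓞 L) → 𝓞 L} (hn : ∀ v : OQ L, NL v.1 (n v.1)) (u : (𝓞 L)ˣ) (i b : Bool) {S : Finset (OQ L)}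
    {T : Finset (HeightOneSpectrum (𝓞 M))} (hT : ∀ P, P ∈ T ↔ (7 : 𝓞 M) ∈ P.asIdeal ∨ ∃ v ∈ S, a7a_pi (L := L) P = v.1) :
    kp (cd D s T z u) i = kp (u : 𝓞 L) i := by
  have hz' : ∀ P : HeightOneSpectrum (𝓞 M), ∃ q : 𝓞 M, (2 : 𝓞 M) ∉ P.asIdeal → NG D (!s) P q := by
    intro P
    by_cases h : (2 : 𝓞 M) ∈ P.asIdeal
    · exact ⟨0, fun h' => absurd h h'⟩
    · obtain ⟨q, hq⟩ := exists_NG hD (!s) h
      exact ⟨q, fun _ => hq⟩
  choose z' hz' using hz'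
  have H := dL_DK hD hz hn u i b hT
  have H' := dL_DK hD hz' hn u i b hT
  obtain ⟨-, -, -, hR1, -, hQ1, -⟩ := DK.other hD H H'
  exact (l2_kp_congr hD hR1 hQ1).symm

theorem l2_rd (s : Bool) (a b : ℤ) : rd8 D s ((a : 𝓞 M) + (b : 𝓞 M) * D.om) = lf (lb8 s) ((a : 𝓞 L), (b : 𝓞 L)) := by
  rw [← rd8_om hD s]
  congr 1
  change _ = algebraMap (𝓞 L) (𝓞 M) (a : 𝓞 L) + algebraMap (𝓞 L) (𝓞 M) (b : 𝓞 L) * D.om
  rw [map_intCast, map_intCast]

/-- the product of the two local symbols -/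
theorem l2_two {f : 𝓞 L → ℤ} (hf : H2Gd f) (s : Bool) (a b : ℤ) :
    f (rd8 D (!s) ((a : 𝓞 M) + (b : 𝓞 M) * D.om)) * f (rd8 D s ((a : 𝓞 M) + (b : 𝓞 M) * D.om)) =
      f ((a ^ 2 - 7 * a * b + 14 * b ^ 2 : ℤ) : 𝓞 L) := by
  rw [← hf.mul, l2_rd hD, l2_rd hD]
  refine hf.per (Ideal.mem_span_singleton'.2 ⟨2 * (a : 𝓞 L) * (b : 𝓞 L), ?_⟩)
  cases s <;> unfold lf lb8 <;>
    simp only [Bool.not_false, Bool.not_true, if_true, if_false, Bool.false_eq_true] <;> push_cast <;> ring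

/-- the symbol of `-1` -/
theorem l2_neg (u : (𝓞 L)ˣ) (i : Bool) : kp (u : 𝓞 L) i ((-1 : ℤ) : 𝓞 L) = Algebra.norm ℤ (u : 𝓞 L) := by
  have hu : (u : 𝓞 L) ∉ span {(2 : 𝓞 L)} := fun h => hD.two.ne_top (Ideal.eq_top_of_isUnit_mem _ h u.isUnit)
  by_cases h : Rm (u : 𝓞 L) i
  · obtain ⟨γ, hγ⟩ := exists_cl hD hu
    have h1 : Cl (-1 : 𝓞 L) ((-1 : ℤ) : 𝓞 L) := ⟨1, 0, isCoprime_one_left, by push_cast; ring⟩
    have h3 : te i ((-1 : ℤ) : 𝓞 L) = 1 := by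
      cases i
      · rfl
      · change t8 _ = 1
        rw [h3_t8_int hD]
        decide
    unfold kp
    rw [if_pos h]
    unfold kc
    rw [h3, mul_one, tp_eq hD h1 hγ, l2_norm hγ]
    have e : (2 : ℤ) ∣ Algebra.trace ℤ (𝓞 L) (-1 * γ) ↔ (2 : ℤ) ∣ Algebra.trace ℤ (𝓞 L) γ := by
      rw [neg_one_mul, map_neg, dvd_neg]
    simp only [e]
  · rw [kp_one hD h]
    have hq : Q4 (u : 𝓞 L) := by
      by_contra hcon
      exact h (Or.inr hcon)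
    obtain ⟨w, rfl⟩ := q4_unit hD hq
    rw [Units.val_pow_eq_pow_val, map_pow]
    rcases Int.isUnit_iff.1 (w.isUnit.map (Algebra.norm ℤ)) with h6 | h6 <;> rw [h6] <;> norm_num

/-- the symbol of an odd integer -/
theorem l2_int (u : (𝓞 L)ˣ) (i : Bool) {t : ℤ} (ht : t % 2 = 1) : kp (u : 𝓞 L) i ((t : ℤ) : 𝓞 L) =
    (if Algebra.norm ℤ (u : 𝓞 L) = -1 then ZMod.χ₄ (t : ZMod 4) else 1) * (if i then ZMod.χ₈ (t : ZMod 8) else 1) := by
  have hu : (u : 𝓞 L) ∉ span {(2 : 𝓞 L)} := fun h => hD.two.ne_top (Ideal.eq_top_of_isUnit_mem _ h u.isUnit)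
  rcases h3_x4 ht with ⟨h, hx⟩ | ⟨h, hx⟩
  · rw [hx, h3_kp_int hD hu i h, ite_self, one_mul]
  · have e : kp (u : 𝓞 L) i ((t : ℤ) : 𝓞 L) = kp (u : 𝓞 L) i ((-1 : ℤ) : 𝓞 L) * kp (u : 𝓞 L) i ((-t : ℤ) : 𝓞 L) := by
      rw [← (h2_gd hD hu i).mul]
      congr 1
      push_cast
      ring
    have h8 : ZMod.χ₈ ((-t : ℤ) : ZMod 8) = ZMod.χ₈ (t : ZMod 8) := by
      have hd : ∀ a : ZMod 8, ZMod.χ₈ (-a) = ZMod.χ₈ a := by decide
      rw [Int.cast_neg, hd]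
    have hm : (-t) % 4 = 1 := by omega
    rw [e, l2_neg hD, h3_kp_int hD hu i hm, h8, hx]
    congr 1
    rcases Int.isUnit_iff.1 (u.isUnit.map (Algebra.norm ℤ)) with h6 | h6 <;> rw [h6] <;> norm_num

/-- **the sign at `a + b ω`** -/
theorem l2_sign {s : Bool} {z : HeightOneSpectrum (𝓞 M) → 𝓞 M} (hz : ∀ P, (2 : 𝓞 M) ∉ P.asIdeal → NG D s P (z P))
    {n : HeightOneSpectrum (𝓞 L) → 𝓞 L} (hn : ∀ v : OQ L, NL v.1 (n v.1)) (u : (𝓞 L)ˣ) (i : Bool) {S : Finset (OQ L)}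
    {T : Finset (HeightOneSpectrum (𝓞 M))} (hT : ∀ P, P ∈ T ↔ (7 : 𝓞 M) ∈ P.asIdeal ∨ ∃ v ∈ S, a7a_pi (L := L) P = v.1)
    {a b t : ℤ} (ha : c7 a = 1) (hab : a ^ 2 - 7 * a * b + 14 * b ^ 2 = t) (ht : t % 2 = 1) :
    h2S D s T (kp (cd D s T z u) i) (kp (u : 𝓞 L) i) ((a : 𝓞 M) + (b : 𝓞 M) * D.om) =
      (∏ v ∈ S, TT.qr v.1 (t : 𝓞 L)) * ((if Algebra.norm ℤ (u : 𝓞 L) = -1 then ZMod.χ₄ (t : ZMod 4) else 1) *
        (if i then ZMod.χ₈ (t : ZMod 8) else 1)) := by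
  have hu : (u : 𝓞 L) ∉ span {(2 : 𝓞 L)} := fun h => hD.two.ne_top (Ideal.eq_top_of_isUnit_mem _ h u.isUnit)
  obtain ⟨R, hR⟩ := se4_R D
  obtain ⟨Pv, hPv⟩ := exists_Pv D
  have h1 := l2_T D hT (fun P => TT.qr P ((a : 𝓞 M) + (b : 𝓞 M) * D.om)) hR hPv
  unfold h2S
  rw [l2_kp hD hz hn u i false hT, mul_assoc, l2_two hD (h2_gd hD hu i) s a b, hab, l2_int hD u i ht]
  congr 1
  rw [h1, l2_seven D hR ha, one_mul]
  refine Finset.prod_congr rfl fun v _ => ?_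
  rw [l2_fib D (hPv v), l2_nm, hab]

end

section
variable {L : Type} [Field L] [NumberField L] [IsTotallyReal L]

/-- the norm of a normalised generator -/
theorem l2_nv {v : OQ L} {q : 𝓞 L} (hq : NL v.1 q) : ∃ B : ℕ, ((Algebra.norm ℤ q : ℤ) : ℂ) =
    (f2_e (absNorm v.1.asIdeal) * ((√(absNorm v.1.asIdeal : ℝ) : ℝ) : ℂ) * (B : ℂ)) ^ 2 := by
  obtain ⟨⟨k, ⟨l, hl⟩, hk⟩, s, c, hs, he⟩ := hq
  rw [Units.val_one, one_mul] at he
  set A : ℕ := absNorm v.1.asIdeal with hA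
  have hAo : A % 2 = 1 := Nat.odd_iff.1 (TRB.f1_odd_norm v.2.1)
  have h1 : (Algebra.norm ℤ q).natAbs = A * (A ^ l) ^ 2 := by
    rw [← Ideal.absNorm_span_singleton, hk, map_pow, hl]
    ring
  have h4 : Algebra.norm ℤ q % 4 = 1 := by
    have h2 := k1_norm_congr 4 (s ^ 2) c
    have e4 : ((4 : ℕ) : 𝓞 L) = 4 := by norm_num
    have h6 : ((4 : ℕ) : ℤ) = 4 := by norm_num
    rw [e4, ← he, map_pow, h6] at h2
    rw [h2]
    have hso := l2_odd hs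
    have h4 : Algebra.norm ℤ s % 4 = 1 ∨ Algebra.norm ℤ s % 4 = 3 := by omega
    rcases h4 with h4 | h4 <;> rw [pow_two, Int.mul_emod, h4] <;> norm_num
  have hB : (A ^ l) ^ 2 % 4 = 1 := by
    have h5 : A ^ l % 2 = 1 := by
      rw [Nat.pow_mod, hAo, one_pow]
      norm_num
    have h6 : A ^ l % 4 = 1 ∨ A ^ l % 4 = 3 := by omega
    rcases h6 with h6 | h6 <;> rw [pow_two, Nat.mul_mod, h6]
  have h7 : (Algebra.norm ℤ q).natAbs % 4 = A % 4 := by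
    rw [h1, Nat.mul_mod, hB, mul_one, Nat.mod_mod]
  have hsq : (((√(A : ℝ) : ℝ) : ℂ)) ^ 2 = (A : ℂ) := by
    rw [← Complex.ofReal_pow, Real.sq_sqrt (Nat.cast_nonneg _)]
    push_cast
    rfl
  refine ⟨A ^ l, ?_⟩
  rw [mul_pow, mul_pow, hsq]
  have hA4 : A % 4 = 1 ∨ A % 4 = 3 := by omega
  unfold f2_e
  rcases hA4 with h8 | h8
  · have h9 : Algebra.norm ℤ q = (((Algebra.norm ℤ q).natAbs : ℕ) : ℤ) := by omega
    rw [if_neg (by omega), h9, h1]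
    push_cast
    ring
  · have h9 : Algebra.norm ℤ q = -(((Algebra.norm ℤ q).natAbs : ℕ) : ℤ) := by omega
    rw [if_pos h8, h9, h1, Complex.I_sq]
    push_cast
    ring

/-- the norm of `d` -/
theorem l2_nd (n : HeightOneSpectrum (𝓞 L) → 𝓞 L) (u : (𝓞 L)ˣ) (i b : Bool) (S : Finset (OQ L)) :
    Algebra.norm ℚ (dL n u i b S) = ((Algebra.norm ℤ (u : 𝓞 L) : ℤ) : ℚ) * (if i then 2 ^ Module.finrank ℚ L else 1) *
      (if b then (-7) ^ Module.finrank ℚ L else 1) * ∏ v ∈ S, ((Algebra.norm ℤ (n v.1) : ℤ) : ℚ) := by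
  have h1 : ∀ r : ℚ, Algebra.norm ℚ (algebraMap ℚ L r) = r ^ Module.finrank ℚ L := fun r => Algebra.norm_algebraMap r
  have hi : Algebra.norm ℚ (((if i then 2 else 1 : 𝓞 L)) : L) = if i then 2 ^ Module.finrank ℚ L else 1 := by
    cases i
    · simp only [Bool.false_eq_true, if_false]
      rw [show ((1 : 𝓞 L) : L) = 1 from map_one (algebraMap (𝓞 L) L), map_one]
    · simp only [if_true]
      rw [show ((2 : 𝓞 L) : L) = algebraMap ℚ L 2 by rw [map_ofNat]; exact map_ofNat (algebraMap (𝓞 L) L) 2, h1]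
  have hb : Algebra.norm ℚ ((if b then -7 else 1 : L)) = if b then (-7) ^ Module.finrank ℚ L else 1 := by
    cases b
    · simp only [Bool.false_eq_true, if_false]
      rw [map_one]
    · simp only [if_true]
      rw [show (-7 : L) = algebraMap ℚ L (-7) by rw [map_neg, map_ofNat], h1]
  unfold dL kap
  rw [show (((u : 𝓞 L) * if i then 2 else 1 : 𝓞 L) : L) = ((u : 𝓞 L) : L) * (((if i then 2 else 1 : 𝓞 L)) : L) from
    map_mul (algebraMap (𝓞 L) L) _ _, map_mul, map_mul, map_mul, hi, hb, map_prod, ← Algebra.coe_norm_int]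
  congr 1
  exact Finset.prod_congr rfl fun v _ => (Algebra.coe_norm_int _).symm

/-- the sign of the norm -/
theorem l2_sg (d : L) : ((Algebra.norm ℚ d : ℚ) : ℝ) = (-1) ^ ng d * |((Algebra.norm ℚ d : ℚ) : ℝ)| := by
  rw [TR.norm_eq L d, Finset.abs_prod]
  unfold ng
  rw [← Finset.prod_const, Finset.prod_filter, ← Finset.prod_mul_distrib]
  refine Finset.prod_congr rfl fun j _ => ?_
  split_ifs with h
  · rw [abs_of_neg h]
    ring
  · rw [abs_of_nonneg (not_lt.1 h), one_mul]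

end

end TRR
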