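import Pool.Agent.TRR.Defs3
import Pool.Agent.TRZ.F2
import Pool.Agent.TRP.RL

/-! # [REAL2-L4] numerical part: the rational number over `L` and over `M`; the primes of `M` above `7 S` -/

set_option autoImplicit false
set_option linter.unusedSectionVars false

open NumberField Ideal IsDedekindDomain Filter Topology
open scoped Real Classical ComplexConjugate
open TR TRG TTS TU TT XTB TRP CM27 CMT GE

namespace TRR

theorem l4_q {Q q A : ℚ} {k N : ℕ} {e : ℤ} (h : (Q : ℂ) * A = q ^ 2 * 7 ^ k * ((√(N : ℝ) : ℝ) : ℂ)) (hA : A ≠ 0) (hN : N ≠ 0)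
    (hAv : padicValRat 2 A = e) (hNv : padicValRat 2 (N : ℚ) = 2 * e) :
    (Q = 0 ↔ q = 0) ∧ padicValRat 2 Q = 2 * padicValRat 2 q := by
  have : Fact (Nat.Prime 2) := ⟨Nat.prime_two⟩
  have hsN : ((√(N : ℝ) : ℝ) : ℂ) ≠ 0 := by
    rw [Complex.ofReal_ne_zero]
    exact (Real.sqrt_pos.2 (by exact_mod_cast Nat.pos_of_ne_zero hN)).ne'
  have h7 : (7 : ℂ) ^ k ≠ 0 := pow_ne_zero _ (by norm_num)
  have hAC : (A : ℂ) ≠ 0 := by exact_mod_cast hA
  by_cases hq : q = 0
  · have hQ : Q = 0 := by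
      rw [hq, Rat.cast_zero, zero_pow two_ne_zero, zero_mul, zero_mul] at h
      rcases mul_eq_zero.1 h with h1 | h1
      · exact_mod_cast h1
      · exact absurd h1 hAC
    rw [hq, hQ, padicValRat.zero, mul_zero]
    exact ⟨Iff.rfl, rfl⟩
  · have hqC : (q : ℂ) ≠ 0 := by exact_mod_cast hq
    have hQ : Q ≠ 0 := by
      rintro rfl
      rw [Rat.cast_zero, zero_mul] at h
      exact mul_ne_zero (mul_ne_zero (pow_ne_zero _ hqC) h7) hsN h.symm
    refine ⟨⟨fun h1 => absurd h1 hQ, fun h1 => absurd h1 hq⟩, ?_⟩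
    obtain ⟨K, hK⟩ : ∃ K : ℚ, K = Q * A / (q ^ 2 * 7 ^ k) := ⟨_, rfl⟩
    have h7Q : (7 : ℚ) ^ k ≠ 0 := pow_ne_zero _ (by norm_num)
    have hK0 : K ≠ 0 := by
      rw [hK]
      exact div_ne_zero (mul_ne_zero hQ hA) (mul_ne_zero (pow_ne_zero _ hq) h7Q)
    have hK1 : (K : ℂ) = ((√(N : ℝ) : ℝ) : ℂ) := by
      rw [hK]
      push_cast
      rw [h, mul_div_cancel_left₀]
      exact mul_ne_zero (pow_ne_zero _ hqC) h7
    have hK2 : K ^ 2 = (N : ℚ) := by
      have h2 : (K : ℂ) ^ 2 = ((N : ℚ) : ℂ) := by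
        rw [hK1, ← Complex.ofReal_pow, Real.sq_sqrt (Nat.cast_nonneg N)]
        push_cast
        rfl
      exact_mod_cast h2
    have hKv : padicValRat 2 K = e := by
      have h3 := congrArg (padicValRat 2) hK2
      rw [padicValRat.pow, hNv] at h3
      push_cast at h3
      linarith
    have hQA : Q * A = q ^ 2 * 7 ^ k * K := by
      rw [hK]
      field_simp
    have h4 := congrArg (padicValRat 2) hQA
    have h7v : padicValRat 2 (7 : ℚ) = 0 := by
      have := q1_odd (m := 7) (by decide)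
      exact_mod_cast this
    rw [padicValRat.mul hQ hA, padicValRat.mul (mul_ne_zero (pow_ne_zero _ hq) h7Q) hK0,
      padicValRat.mul (pow_ne_zero _ hq) h7Q, padicValRat.pow, padicValRat.pow, h7v, hKv, hAv] at h4
    push_cast at h4
    linarith

section
variable {L M : Type} [Field L] [NumberField L] [Field M] [NumberField M] [Algebra L M]

/-- the primes of `M` above `7` and `S` -/
theorem l4_T (M : Type) [Field M] [NumberField M] [Algebra L M] (S : Finset (OQ L)) : ∃ T : Finset (HeightOneSpectrum (𝓞 M)),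
    ∀ P, P ∈ T ↔ (7 : 𝓞 M) ∈ P.asIdeal ∨ ∃ v ∈ S, a7a_pi (L := L) P = v.1 := by
  have h1 : {P : HeightOneSpectrum (𝓞 M) | (7 : 𝓞 M) ∈ P.asIdeal ∨ ∃ v ∈ S, a7a_pi (L := L) P = v.1}.Finite := by
    rw [Set.ofPred_or]
    refine Set.Finite.union ?_ ?_
    · have h2 : span {(7 : 𝓞 M)} ≠ 0 := by
        rw [Ideal.zero_eq_bot, Ne, Ideal.span_singleton_eq_bot]
        norm_num
      refine (Ideal.finite_factors h2).subset fun P hP => ?_
      exact Ideal.dvd_iff_le.2 ((Ideal.span_singleton_le_iff_mem _).2 hP)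
    · have h3 : {P : HeightOneSpectrum (𝓞 M) | ∃ v ∈ S, a7a_pi (L := L) P = v.1} =
          ⋃ v ∈ S, {P : HeightOneSpectrum (𝓞 M) | a7a_pi (L := L) P = v.1} := by
        ext P
        simp
      rw [h3]
      refine S.finite_toSet.biUnion fun v _ => ?_
      have h2 : v.1.asIdeal.map (algebraMap (𝓞 L) (𝓞 M)) ≠ 0 := by
        rw [Ideal.zero_eq_bot, Ne, Ideal.map_eq_bot_iff_of_injective
          (FaithfulSMul.algebraMap_injective (𝓞 L) (𝓞 M))]
        exact v.1.ne_bot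
      refine (Ideal.finite_factors h2).subset fun P hP => ?_
      have hP' : a7a_pi (L := L) P = v.1 := hP
      refine Ideal.dvd_iff_le.2 ?_
      rw [Ideal.map_le_iff_le_comap, ← hP']
      exact le_rfl
  exact ⟨h1.toFinset, fun P => by rw [Set.Finite.mem_toFinset]; rfl⟩

/-- the number of the primes of `M` above `7` and `S` -/
theorem l4_card [IsTotallyReal L] (D : Dat L M) {S : Finset (OQ L)} {T : Finset (HeightOneSpectrum (𝓞 M))}
    (hT : ∀ P, P ∈ T ↔ (7 : 𝓞 M) ∈ P.asIdeal ∨ ∃ v ∈ S, a7a_pi (L := L) P = v.1) : T.card = eX S + 1 := by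
  obtain ⟨-, h7, -, -⟩ := D.above_seven
  obtain ⟨R, hR⟩ := se4_R D
  have hRT : R ∈ T := (hT R).2 (Or.inl ((h7 R).2 hR))
  have hS7 : ∀ v ∈ S.map (Function.Embedding.subtype _), (7 : 𝓞 L) ∉ v.asIdeal := by
    intro v hv
    obtain ⟨w, -, rfl⟩ := Finset.mem_map.1 hv
    exact w.2.2
  have hmem : ∀ P, P ∈ T.erase R ↔ a7a_pi (L := L) P ∈ S.map (Function.Embedding.subtype _) := by
    intro P
    rw [Finset.mem_erase, hT P, Finset.mem_map]
    constructor
    · rintro ⟨hPR, h | ⟨v, hv, hP⟩⟩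
      · exact absurd (HeightOneSpectrum.ext (((h7 P).1 h).trans hR.symm)) hPR
      · exact ⟨v, hv, hP.symm⟩
    · rintro ⟨v, hv, hP⟩
      have hP' : a7a_pi (L := L) P = v.1 := hP.symm
      refine ⟨?_, Or.inr ⟨v, hv, hP'⟩⟩
      rintro rfl
      apply v.2.2
      rw [← hP']
      change (7 : 𝓞 L) ∈ P.asIdeal.comap (algebraMap (𝓞 L) (𝓞 M))
      rw [Ideal.mem_comap, map_ofNat]
      exact (h7 P).2 hR
  have h1 := eS_eq D hS7 hmem
  rw [← Finset.card_erase_add_one hRT, ← h1]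
  congr 1
  unfold TRB.eS eX
  rw [Finset.sum_map]
  refine Finset.sum_congr rfl fun v _ => ?_
  unfold kL
  rcases TRB.c7_absNorm v.2.2 with h2 | h2
  · rw [if_neg (by
      change ¬ (c7 (absNorm v.1.asIdeal) = -1)
      rw [h2]; norm_num), if_pos h2, if_pos rfl]
  · rw [if_pos (by
      change c7 (absNorm v.1.asIdeal) = -1
      exact h2), if_neg (by rw [h2]; norm_num)]


end

end TRR
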