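import Pool.Agent.TRR.Defs2
import Pool.Agent.TRP.RA1
import Pool.Agent.TRZ.FD7
import Pool.Agent.TRP.AN

/-! # [REAL2-X6b0] arithmetic inputs of the link: the prime above `7`, the inert primes -/

set_option autoImplicit false
set_option linter.unusedSectionVars false

open NumberField Ideal IsDedekindDomain Filter Topology
open scoped Real Classical ComplexConjugate
open TR TRG TTS TU TT XTB TRPR TRP

namespace TRR

section
variable {L M : Type} [Field L] [NumberField L] [Field M] [NumberField M] [Algebra L M]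
  [IsTotallyReal L] {D : Dat L M} (hD : Od2 D)

/-- the prime above `7` -/
theorem x6_rr (D : Dat L M) {r : HeightOneSpectrum (𝓞 M)} (hr : (7 : 𝓞 M) ∈ r.asIdeal) : r.asIdeal = span {D.rr} := by
  have h1 : D.rr ∈ r.asIdeal := by
    have h2 : D.rr * D.rr ∈ r.asIdeal := by
      have e : D.rr * D.rr = -(7 : 𝓞 M) := by linear_combination D.rr_sq
      rw [e]
      exact neg_mem hr
    rcases r.isPrime.mem_or_mem h2 with h | h <;> exact h
  have hne : span {D.rr} ≠ ⊥ := by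
    rw [Ne, Ideal.span_singleton_eq_bot]
    exact bl_rr_ne
  have hmax : (span {D.rr}).IsMaximal := D.span_rr_prime.isMaximal hne
  exact (hmax.eq_of_le r.isPrime.ne_top ((Ideal.span_singleton_le_iff_mem _).2 h1)).symm

include hD

theorem x6_gen {s : Bool} {r : HeightOneSpectrum (𝓞 M)} (hr : (7 : 𝓞 M) ∈ r.asIdeal) {q : 𝓞 M} (hq : NG D s r q) :
    ∃ (w : (𝓞 L)ˣ) (k : ℕ), Odd k ∧ q = algebraMap (𝓞 L) (𝓞 M) ((w : 𝓞 L) ^ 2) * rs7 D s ^ k := by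
  obtain ⟨k, hk, h1⟩ := hq.gen
  have h2 : span {q} = span {rs7 D s ^ k} := by
    rw [h1, x6_rr D hr, ← span_rs7 D s, Ideal.span_singleton_pow]
  obtain ⟨v, hv⟩ := Ideal.span_singleton_eq_span_singleton.1 h2.symm
  have h3 : q = (v : 𝓞 M) * rs7 D s ^ k := by rw [← hv, mul_comm]
  have h4 : Et D s ((v : 𝓞 M) * rs7 D s ^ k) := h3 ▸ hq.et
  obtain ⟨w, hw⟩ := Et.unit hD ((et_rs7 D s).pow k) h4
  exact ⟨w, k, hk, by rw [h3, hw]⟩

theorem x6_t8 {s : Bool} {r : HeightOneSpectrum (𝓞 M)} (hr : (7 : 𝓞 M) ∈ r.asIdeal) {q : 𝓞 M} (hq : NG D s r q) :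
    TRZ.t8 (TRZ.rd8 D s q) = -1 := by
  obtain ⟨w, k, hk, rfl⟩ := x6_gen hD hr hq
  have h1 := x_mul D s
  have h2 := x_add D s
  have h3 : rs7 D s - 5 ∈ span {p2 D s ^ 3} := by
    refine Ideal.mem_span_singleton'.2 ⟨2, ?_⟩
    unfold rs7
    have e : p1 D s = 1 - p2 D s := by linear_combination h2
    rw [e] at h1 ⊢
    linear_combination (-2 * p2 D s - 2) * h1
  have h4 : algebraMap (𝓞 L) (𝓞 M) ((w : 𝓞 L) ^ 2) * rs7 D s ^ k - algebraMap (𝓞 L) (𝓞 M) ((w : 𝓞 L) ^ 2 * 5 ^ k) ∈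
      span {p2 D s ^ 3} := by
    have e : algebraMap (𝓞 L) (𝓞 M) ((w : 𝓞 L) ^ 2) * rs7 D s ^ k - algebraMap (𝓞 L) (𝓞 M) ((w : 𝓞 L) ^ 2 * 5 ^ k) =
        algebraMap (𝓞 L) (𝓞 M) ((w : 𝓞 L) ^ 2) * (rs7 D s ^ k - 5 ^ k) := by
      rw [map_mul, map_pow _ (5 : 𝓞 L) k, map_ofNat]
      ring
    rw [e]
    refine Ideal.mul_mem_left _ _ ?_
    rw [Ideal.mem_span_singleton] at h3 ⊢
    exact h3.trans (sub_dvd_pow_sub_pow _ _ k)
  have h5 := TRZ.rd8_uniq hD s h4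
  obtain ⟨y, hy⟩ := Ideal.mem_span_singleton'.1 h5
  have h6 : TRZ.rd8 D s (algebraMap (𝓞 L) (𝓞 M) ((w : 𝓞 L) ^ 2) * rs7 D s ^ k) = (w : 𝓞 L) ^ 2 * 5 ^ k + 8 * y := by
    linear_combination -hy
  have h7 : (w : 𝓞 L) ^ 2 * 5 ^ k = (w : 𝓞 L) * (w : 𝓞 L) * 5 ^ k := by ring
  have h8 : ∀ n : ℕ, TRZ.t8 ((5 : 𝓞 L) ^ n) = (-1) ^ n := by
    have h9 : TRZ.t8 (5 : 𝓞 L) = -1 := by
      have h5 : (5 : 𝓞 L) = algebraMap ℤ (𝓞 L) 5 := by simp
      unfold TRZ.t8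
      rw [h5, Algebra.norm_algebraMap, RingOfIntegers.rank]
      obtain ⟨g, hg⟩ := hD.odd
      rw [hg]
      have h6 : ∀ g : ℕ, ZMod.χ₈ (((5 : ℤ) ^ (2 * g + 1) : ℤ) : ZMod 8) = -1 := by
        intro g
        push_cast
        rw [pow_succ, pow_mul]
        have h7 : ((5 : ZMod 8) ^ 2) = 1 := by decide
        rw [h7, one_pow, one_mul]
        decide
      exact h6 g
    have h10 : TRZ.t8 (1 : 𝓞 L) = 1 := by
      have := TRZ.t8_unit hD (1 : (𝓞 L)ˣ)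
      rwa [Units.val_one] at this
    intro n
    induction n with
    | zero => rw [pow_zero, pow_zero, h10]
    | succ n ih => rw [pow_succ, TRZ.t8_mul hD, ih, h9, pow_succ]
  rw [h6, TRZ.t8_per hD, h7, TRZ.t8_mul hD, TRZ.t8_mul hD, TRZ.t8_unit hD, h8, hk.neg_one_pow]
  norm_num

theorem x6_ar {s : Bool} {z : HeightOneSpectrum (𝓞 M) → 𝓞 M} (hz : ∀ P, (2 : 𝓞 M) ∉ P.asIdeal → NG D s P (z P))
    {r : HeightOneSpectrum (𝓞 M)} (hr : (7 : 𝓞 M) ∈ r.asIdeal) {P : HeightOneSpectrum (𝓞 M)} (h2 : (2 : 𝓞 M) ∉ P.asIdeal)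
    (hPr : P ≠ r) : TRG.aM z P r = bQ D s P := by
  have hR := x6_rr D hr
  obtain ⟨w, k, hk, h1⟩ := x6_gen hD hr (hz r (x_two_R hR))
  have h3 : rs7 D s ∉ P.asIdeal := by
    intro h
    apply hPr
    have h4 : r.asIdeal ≤ P.asIdeal := by
      rw [hR, ← span_rs7 D s, Ideal.span_singleton_le_iff_mem]
      exact h
    exact (HeightOneSpectrum.ext (r.isMaximal.eq_of_le P.isPrime.ne_top h4)).symm
  have h4 : algebraMap (𝓞 L) (𝓞 M) (w : 𝓞 L) ∉ P.asIdeal := by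
    intro h
    exact P.isPrime.ne_top (Ideal.eq_top_of_isUnit_mem _ h (w.isUnit.map _))
  have h5 : TT.qr P (z r) = TT.qr P (rs7 D s) := by
    rw [h1, map_pow, TT.qr_mul P h2, TT.qr_sq P h4, one_mul]
    obtain ⟨j, rfl⟩ := hk
    rw [pow_succ, pow_mul', TT.qr_mul P h2]
    have h6 : rs7 D s ^ j ∉ P.asIdeal := fun h => h3 (P.isPrime.mem_of_pow_mem j h)
    rw [TT.qr_sq P h6, one_mul]
  unfold TRG.aM bQ
  rw [h5]

theorem x6_br (u : (𝓞 L)ˣ) (i : Bool) {r : HeightOneSpectrum (𝓞 M)} (hr : (7 : 𝓞 M) ∈ r.asIdeal) :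
    (if TT.qr r (algebraMap (𝓞 L) (𝓞 M) (kap u i)) = -1 then 1 else 0 : ZMod 2) = e0L u := by
  have h1 := chi_eq_qr_rr D r (x6_rr D hr) (kap u i) 0
  rw [map_zero, zero_mul, add_zero] at h1
  have h2 : ∀ n : ℕ, c7 ((2 : ℤ) ^ n) = 1 := by
    intro n
    induction n with
    | zero => decide
    | succ n ih =>
      rw [pow_succ, c7_mul, ih]
      decide
  have h3 : chi L (kap u i) = c7 (Algebra.norm ℤ (u : 𝓞 L)) := by
    unfold chi kap
    rw [map_mul, c7_mul]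
    cases i
    · rw [if_neg (by decide), map_one]
      have : c7 1 = 1 := by decide
      rw [this, mul_one]
    · rw [if_pos rfl]
      have h4 : (2 : 𝓞 L) = algebraMap ℤ (𝓞 L) 2 := by simp
      rw [h4, Algebra.norm_algebraMap, h2, mul_one]
  rw [← h1, h3]
  unfold e0L
  rcases norm_unit_cases u with h | h
  · rw [h]
    have : c7 1 = 1 := by decide
    rw [this]
  · rw [h]
    have : c7 (-1) = -1 := by decide
    rw [this]

theorem x6_nvr {s : Bool} {z : HeightOneSpectrum (𝓞 M) → 𝓞 M} (hz : ∀ P, (2 : 𝓞 M) ∉ P.asIdeal → NG D s P (z P))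
    {r : HeightOneSpectrum (𝓞 M)} (hr : (7 : 𝓞 M) ∈ r.asIdeal) : TRZ.nv D s z r = 1 := by
  have h := x6_t8 hD hr (hz r (x_two_R (x6_rr D hr)))
  unfold TRZ.nv TRZ.bt
  exact if_pos h

theorem x6_tau_inert {s : Bool} {z : HeightOneSpectrum (𝓞 M) → 𝓞 M} (hz : ∀ P, (2 : 𝓞 M) ∉ P.asIdeal → NG D s P (z P))
    {v : OQ L} (hv : kL v ≠ 0) {P : HeightOneSpectrum (𝓞 M)} (hP : a7a_pi (L := L) P = v.1) : TRZ.nv D s z P = tauL v := by
  have h2 : (2 : 𝓞 M) ∉ P.asIdeal := two_above hP v.2.1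
  have h1 := TRZ.nu_eq hD (s := !s) h2 (hz P h2)
  rw [Bool.not_not] at h1
  have h3 : TRZ.nv D s z P = TRZ.nu D (!s) P := by
    rw [h1]
    rfl
  have hp : p1 D (!s) = p2 D s := rfl
  have hq : p2 D (!s) = p1 D s := by
    unfold p2
    rw [Bool.not_not]
  have hcj : D.cjO (p2 D s) = p1 D s := by
    have := bl_cj (D := D) (!s)
    rwa [hp, hq] at this
  have hnm : TT.nm (-(p2 D s)) = (2 : 𝓞 L) := by
    apply TT.h1_inj D
    rw [TT.nm_eq D, map_neg, hcj, map_ofNat]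
    linear_combination x_mul D s
  rw [h3]
  unfold TRZ.nu tauL
  rw [hp, qr_inert_nm D hP v.2.1 (kL_ne hv), hnm]

end

end TRR
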