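import Pool.Agent.TRR.X6a
import Pool.Agent.TRR.X6b0
import Pool.Agent.TRP.RA1
import Pool.Agent.TRZ.FD7

/-! # [REAL2-X6b] the link: the matrix over `M` and the form with the special vertices -/

set_option autoImplicit false
set_option linter.unusedSectionVars false

open NumberField Ideal IsDedekindDomain Filter Topology
open scoped Real Classical ComplexConjugate
open TR TRG TTS TU TT XTB TRPR TRP

namespace TRR

section
variable {L M : Type} [Field L] [NumberField L] [Field M] [NumberField M] [Algebra L M]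
  [IsTotallyReal L] {D : Dat L M}

theorem x6_nu_conj (s : Bool) (P : HeightOneSpectrum (𝓞 M)) :
    TRZ.nu D s (u6_conj D P) = TRZ.nu D (!s) P := by
  have h1 : TT.qr (u6_conj D P) (-(p1 D s)) = TT.qr P (-(p1 D (!s))) := by
    rw [← ra1_qr_conj', map_neg, bl_cj]
    rfl
  unfold TRZ.nu
  rw [h1]

theorem x6_kap_not_mem {v : OQ L} (u : (𝓞 L)ˣ) (i : Bool) : kap u i ∉ v.1.asIdeal := by
  intro h
  unfold kap at h
  rcases v.1.isPrime.mem_or_mem h with h1 | h1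
  · exact v.1.isPrime.ne_top (Ideal.eq_top_of_isUnit_mem _ h1 u.isUnit)
  · cases i
    · exact v.1.isPrime.ne_top (Ideal.eq_top_of_isUnit_mem _ h1 isUnit_one)
    · exact v.2.1 h1

theorem x6_b_split (u : (𝓞 L)ˣ) (i : Bool) {v : OQ L} (hv : kL v = 0) {P : HeightOneSpectrum (𝓞 M)}
    (hP : a7a_pi (L := L) P = v.1) (D : Dat L M) :
    (if TT.qr P (algebraMap (𝓞 L) (𝓞 M) (kap u i)) = -1 then 1 else 0 : ZMod 2) = chiL (kap u i) v := by
  rw [qr_split_alg D hP v.2.1 (kL_zero hv)]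
  rfl

theorem x6_b_inert (u : (𝓞 L)ˣ) (i : Bool) {v : OQ L} (hv : kL v ≠ 0) {P : HeightOneSpectrum (𝓞 M)}
    (hP : a7a_pi (L := L) P = v.1) (D : Dat L M) :
    (if TT.qr P (algebraMap (𝓞 L) (𝓞 M) (kap u i)) = -1 then 1 else 0 : ZMod 2) = 0 := by
  rw [qr_inert_alg D hP v.2.1 (kL_ne hv) (x6_kap_not_mem u i), if_neg (by norm_num)]

/-- `v` split: the two values of `ν` -/
theorem x6_tau_split (s : Bool) {v : OQ L} (hv : kL v = 0) {P : HeightOneSpectrum (𝓞 M)}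
    (hP : a7a_pi (L := L) P = v.1) :
    TRZ.nu D s P + TRZ.nu D (!s) P = tauL v := by
  have h2 : (2 : 𝓞 M) ∉ P.asIdeal := two_above hP v.2.1
  have h1 : TT.qr P (-(p1 D s)) * TT.qr P (-(p1 D (!s))) = TT.qr v.1 2 := by
    rw [← TT.qr_mul _ h2]
    have h3 : -(p1 D s) * -(p1 D (!s)) = algebraMap (𝓞 L) (𝓞 M) 2 := by
      rw [neg_mul_neg, map_ofNat]
      exact bl_mul D s
    rw [h3, qr_split_alg D hP v.2.1 (kL_zero hv)]
  have hp : ∀ t : Bool, p1 D t ∉ P.asIdeal := by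
    intro t h
    apply h2
    rw [← bl_mul (D := D) t]
    exact P.asIdeal.mul_mem_right _ h
  have h4 := qr_sgn (v := P) (x := -(p1 D s)) (fun h => hp s (by simpa using P.asIdeal.neg_mem h))
  have h5 := qr_sgn (v := P) (x := -(p1 D (!s))) (fun h => hp (!s) (by simpa using P.asIdeal.neg_mem h))
  unfold TRZ.nu tauL
  rw [← h1]
  rcases h4 with h4 | h4 <;> rcases h5 with h5 | h5 <;> rw [h4, h5] <;> decide

/-- the prime above `7` -/
theorem x6_seven (D : Dat L M) : ∃ r : HeightOneSpectrum (𝓞 M), ∀ P : HeightOneSpectrum (𝓞 M),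
    (7 : 𝓞 M) ∈ P.asIdeal ↔ P = r := by
  have h1 := D.above_seven
  have hne : span {D.rr} ≠ ⊥ := by
    intro h
    have h2 := h1.2.2.2
    rw [h, Ideal.absNorm_bot] at h2
    exact (pow_ne_zero _ (by norm_num : (7 : ℕ) ≠ 0)) h2.symm
  refine ⟨⟨span {D.rr}, D.span_rr_prime, hne⟩, fun P => ?_⟩
  rw [h1.2.1 P]
  exact ⟨fun h => HeightOneSpectrum.ext h, fun h => by rw [h]⟩

theorem x6_seven_conj (D : Dat L M) {r : HeightOneSpectrum (𝓞 M)} (hr : (7 : 𝓞 M) ∈ r.asIdeal) :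
    (7 : 𝓞 M) ∈ (u6_conj D r).asIdeal := by
  rw [ra1_mem_conj, map_ofNat]
  exact hr

theorem x6_seven_two {r : HeightOneSpectrum (𝓞 M)} (hr : (7 : 𝓞 M) ∈ r.asIdeal) : (2 : 𝓞 M) ∉ r.asIdeal := by
  intro h
  apply r.isPrime.ne_top
  rw [Ideal.eq_top_iff_one]
  have h1 : (1 : 𝓞 M) = 7 - 3 * 2 := by norm_num
  rw [h1]
  exact r.asIdeal.sub_mem hr (r.asIdeal.mul_mem_left _ h)

theorem x6_seven_above {v : OQ L} {P : HeightOneSpectrum (𝓞 M)} (hP : a7a_pi (L := L) P = v.1) :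
    (7 : 𝓞 M) ∉ P.asIdeal := by
  intro h
  apply v.2.2
  rw [← hP]
  change algebraMap (𝓞 L) (𝓞 M) 7 ∈ P.asIdeal
  rw [map_ofNat]
  exact h

variable (hD : Od2 D)
include hD

theorem x6_nv {s : Bool} {z : HeightOneSpectrum (𝓞 M) → 𝓞 M} (hz : ∀ P, (2 : 𝓞 M) ∉ P.asIdeal → NG D s P (z P))
    {P : HeightOneSpectrum (𝓞 M)} (h2 : (2 : 𝓞 M) ∉ P.asIdeal) :
    TRZ.nv D s z P = TRZ.nu D (!s) P := by
  rw [TRZ.nu_eq hD (s := !s) h2 (hz P h2), Bool.not_not]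
  rfl

/-- [X6] **the link**: `T` = the primes above `S` and the prime above `7` -/
theorem link_X {s : Bool} {z : HeightOneSpectrum (𝓞 M) → 𝓞 M} (hz : ∀ P, (2 : 𝓞 M) ∉ P.asIdeal → NG D s P (z P))
    {n : HeightOneSpectrum (𝓞 L) → 𝓞 L} (hn : ∀ v : OQ L, NL v.1 (n v.1)) {Pv : OQ L → HeightOneSpectrum (𝓞 M)} (hP : Above Pv)
    {rt eta : OQ L → ZMod 2} {m : OQ L → OQ L → ZMod 2} (hrt : ∀ v, kL v = 0 → rt v = rtL D s Pv v)
    (hm : ∀ u v, kL u = 0 → kL v = 0 → m u v = mL D z Pv u v) (heta : ∀ v, kL v = 0 → eta v = TRZ.nu D (!s) (Pv v))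
    (u : (𝓞 L)ˣ) (i : Bool) {S : Finset (OQ L)} {T : Finset (HeightOneSpectrum (𝓞 M))}
    (hT : ∀ P, P ∈ T ↔ (7 : 𝓞 M) ∈ P.asIdeal ∨ ∃ v ∈ S, a7a_pi (L := L) P = v.1) :
    (Pool.Agent.TRG.lap (TRG.aM z) (fun P => if TT.qr P (algebraMap (𝓞 L) (𝓞 M) (kap u i)) = -1 then 1 else 0) T +
      Matrix.vecMulVec (fun P : T => TRZ.nu D s P) (fun P : T => TRZ.nv D s z P)).det ≠ 0 ↔
      HRk kL xL tauL rt (wL n) m (chiL (kap u i)) eta (e0L u) (∑ v ∈ S, tauL v) S := by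
  obtain ⟨r, hr7⟩ := x6_seven D
  have hr : (7 : 𝓞 M) ∈ r.asIdeal := (hr7 r).2 rfl
  have hr2 : (2 : 𝓞 M) ∉ r.asIdeal := x6_seven_two hr
  have hPc : ∀ v : OQ L, a7a_pi (L := L) (u6_conj D (Pv v)) = v.1 := fun v => (pi_conj D _).trans (hP v)
  have hab : ∀ (v : OQ L) (P : HeightOneSpectrum (𝓞 M)), P = Pv v ∨ P = u6_conj D (Pv v) → a7a_pi (L := L) P = v.1 := by
    rintro v P (rfl | rfl)
    · exact hP v
    · exact hPc v
  have hPr : ∀ (v : OQ L) (P : HeightOneSpectrum (𝓞 M)), a7a_pi (L := L) P = v.1 → P ≠ r := by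
    intro v P h1 h2
    exact x6_seven_above h1 ((hr7 P).2 h2)
  have hT2 : ∀ P ∈ T, (2 : 𝓞 M) ∉ P.asIdeal := by
    intro P hPT
    rcases (hT P).1 hPT with h | ⟨v, -, h⟩
    · exact x6_seven_two h
    · exact two_above h v.2.1
  refine link_coreX kL xL tauL rt (wL n) m (chiL (kap u i)) eta (e0L u) (∑ v ∈ S, tauL v) S T r Pv (u6_conj D)
    (TRG.aM z) _ (TRZ.nu D s) (TRZ.nv D s z) (u6_conj_conj D) ?_ ?_ ?_ ?_ ?_ ?_ ?_ ?_ ?_ ?_ ?_ ?_ ?_ ?_ ?_ ?_ ?_ ?_ ?_ ?_ ?_ rfl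
  · intro v _ hv
    exact split_conj_ne D (kL_zero hv) (hP v)
  · intro v _ hv
    exact ra1_inert D hv (hP v)
  · intro u _ v _ huv
    constructor
    · intro h
      exact huv (Subtype.ext (by rw [← hP u, h, hP v]))
    · intro h
      exact huv (Subtype.ext (by rw [← hP u, h, hPc v]))
  · exact (hr7 _).1 (x6_seven_conj D hr)
  · intro v _
    exact hPr v _ (hP v)
  · intro Q
    rw [hT, hr7]
    refine or_congr Iff.rfl ?_
    constructor
    · rintro ⟨v, hv, hQ⟩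
      exact ⟨v, hv, ra1_fib D (hP v) hQ⟩
    · rintro ⟨v, hv, hQ⟩
      exact ⟨v, hv, hab v Q hQ⟩
  · intro u _ v _ huv hv P hPu
    exact ra1_pair_s hD hz hn huv hv (hab u P hPu) (hP v)
  · intro u _ v _ huv hv P hPu
    exact ra1_pair_i hD hz hn huv hv (hab u P hPu) (hP v)
  · intro P hPT R hRT hPR
    exact ra1_T hD hz (hT2 P hPT) (hT2 R hRT) hPR
  · intro v _ hv
    exact ra1_diag hD hz hv (hP v)
  · intro v _ hv
    rw [x6_ar hD hz hr (two_above (hP v) v.2.1) (hPr v _ (hP v)), x6_ar hD hz hr (two_above (hPc v) v.2.1) (hPr v _ (hPc v)), hrt v hv]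
    exact ⟨ra1_root_s s hv (hP v), rfl⟩
  · intro v _ hv
    rw [x6_ar hD hz hr (two_above (hP v) v.2.1) (hPr v _ (hP v))]
    exact ra1_root_i s hv (hP v)
  · intro u _ v _ hu hv
    exact hm u v hu hv
  · intro v _ hv
    rw [hm v v hv hv, hrt v hv]
    exact mL_diag hD hz hP hv
  · intro v _ hv
    exact ⟨x6_b_split u i hv (hP v) D, x6_b_split u i hv (hPc v) D⟩
  · intro v _ hv
    exact x6_b_inert u i hv (hP v) D
  · exact x6_br hD u i hr
  · intro P hPT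
    rw [x6_nu_conj, x6_nv hD hz (hT2 P hPT)]
  · exact x6_nvr hD hz hr
  · intro v _ hv
    have h2 := two_above (hP v) v.2.1
    have h2' := two_above (hPc v) v.2.1
    rw [x6_nv hD hz h2, x6_nv hD hz h2', heta v hv]
    refine ⟨rfl, ?_⟩
    rw [x6_nu_conj, Bool.not_not, add_comm]
    exact x6_tau_split s hv (hP v)
  · intro v _ hv
    exact x6_tau_inert hD hz hv (hP v)

end

end TRR
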